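import Pool.Agent.Lib.MP_75fd85_lc.Defs

/-!
# Polynomial time, NP and algorithms for shortest induced nonseparating cycles

Machines are Mathlib's finite multi-stack machines (`Turing.FinTM2`).
-/

namespace Pool.Agent.Lib.MP_75fd85_lc

open Turing

/-- Started on the word `w`, the machine `M` halts with output `w'` after at most `T` steps. -/
def Halts {α β : Type} (M : TM2ComputableAux α β) (w : List α) (w' : List β) (T : ℕ) : Prop :=
  Nonempty (TM2OutputsInTime M.tm (w.map M.inputAlphabet.invFun)
    (some (w'.map M.outputAlphabet.invFun)) T)

/-- The language `L` is decidable in polynomial time. -/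
def InP {α : Type} (L : Set (List α)) : Prop :=
  ∃ (M : TM2ComputableAux α Bool) (p : Polynomial ℕ), (∀ k, Finite (M.tm.Γ k)) ∧
    ∀ w, (w ∈ L → Halts M w [true] (p.eval w.length)) ∧
      (w ∉ L → Halts M w [false] (p.eval w.length))

/-- The language `L` is in NP: there is a polynomially balanced relation `R`, decidable in
polynomial time, such that `x ∈ L` if and only if `(x, y) ∈ R` for some `y`. The pair `(x, y)` is
written as the word `x` in the first copy of the alphabet followed by `y` in the second copy. -/
def InNP (L : Set (List Bool)) : Prop :=
  ∃ R : Set (List (Bool ⊕ Bool)), InP R ∧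
    (∃ q : Polynomial ℕ, ∀ x y : List Bool, x.map Sum.inl ++ y.map Sum.inr ∈ R →
      y.length ≤ q.eval x.length) ∧
    ∀ x, x ∈ L ↔ ∃ y : List Bool, x.map Sum.inl ++ y.map Sum.inr ∈ R

open Classical in
/-- The word describing a graph on `{0, ..., n-1}` and two vertices `u`, `v`: the numbers `n`,
`u`, `v` in unary, each followed by `false`, and the rows of the adjacency matrix. -/
noncomputable def instanceWord {n : ℕ} (G : SimpleGraph (Fin n)) (u v : Fin n) : List Bool :=
  List.replicate n true ++ false :: (List.replicate u.val true ++ false ::
    (List.replicate v.val true ++ false ::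
      (List.finRange n).flatMap fun i => (List.finRange n).map fun j => decide (G.Adj i j)))

/-- The word describing a walk: its vertices in order, each in unary and followed by `false`. -/
def walkWord {n : ℕ} {G : SimpleGraph (Fin n)} {u v : Fin n} (w : G.Walk u v) : List Bool :=
  w.support.flatMap fun a => List.replicate a.val true ++ [false]

/-- The machine `A` solves the task of Q1 within time `p(|V| + |E|)`: for every 3-connected graph
`G` and every edge `uv` of `G` it outputs a path `w` from `u` to `v` that forms together with `uv`
an induced nonseparating cycle whose length is minimum among all induced nonseparating cycles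
through `uv`. -/
def SolvesTask (A : TM2ComputableAux Bool Bool) (p : Polynomial ℕ) : Prop :=
  ∀ (n : ℕ) (G : SimpleGraph (Fin n)) (u v : Fin n) (h : G.Adj v u), ThreeConnected G →
    ∃ w : G.Walk u v, InducedNonseparating G (.cons h w) ∧
      (∀ (x : Fin n) (c : G.Walk x x), InducedNonseparating G c → s(u, v) ∈ c.edges →
        (SimpleGraph.Walk.cons h w).length ≤ c.length) ∧
      Halts A (instanceWord G u v) (walkWord w) (p.eval (n + Nat.card G.edgeSet))

/-- Q1: there is a polynomially bounded algorithm for the task (a machine with finitely many
states and finite alphabets). -/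
def PolynomialAlgorithm : Prop :=
  ∃ (A : TM2ComputableAux Bool Bool) (p : Polynomial ℕ), (∀ k, Finite (A.tm.Γ k)) ∧
    SolvesTask A p

end Pool.Agent.Lib.MP_75fd85_lc
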