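import Pool.Agent.Lib.MP_75fd85_lc.Defs

/-!
# Adjacency in the SAT graph and connectedness of its large induced subgraphs
-/

namespace Pool.Agent.Lib.MP_75fd85_lc

open Vert

variable {n m K : ℕ} {cl : Fin m → Finset (Fin n × Bool)}

theorem card_vert (n m K : ℕ) :
    Fintype.card (Vert n m K) = (n + 1) + 2 * n + 6 * (m + 1) * n * K := by
  rw [Fintype.card_congr (Vert.equiv n m K)]
  simp only [Fintype.card_sum, Fintype.card_prod, Fintype.card_fin, Fintype.card_bool,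
    Fintype.card_option]
  ring

theorem adj_s_s (i i' : Fin (n + 1)) :
    (satGraph K cl).Adj (s i) (s i') ↔
      i ≠ i' ∧ ((i.val = 0 ∧ i'.val = n) ∨ (i'.val = 0 ∧ i.val = n)) := by
  simp [satGraph, rel]

theorem adj_s_lit (i : Fin (n + 1)) (k : Fin n) (b : Bool) :
    (satGraph K cl).Adj (s i) (lit k b) ↔ (i.val = k.val ∨ i.val = k.val + 1) := by
  simp [satGraph, rel]

theorem adj_lit_s (i : Fin (n + 1)) (k : Fin n) (b : Bool) :
    (satGraph K cl).Adj (lit k b) (s i) ↔ (i.val = k.val ∨ i.val = k.val + 1) := by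
  simp [satGraph, rel]

theorem adj_lit_lit (k k' : Fin n) (b b' : Bool) :
    ¬ (satGraph K cl).Adj (lit k b) (lit k' b') := by
  simp [satGraph, rel]

theorem adj_s_blob (i : Fin (n + 1)) (j : Option (Fin m)) (t : Fin (2 * n * K)) (a : Fin 3) :
    ¬ (satGraph K cl).Adj (s i) (blob j t a) := by
  simp [satGraph, rel]

theorem adj_blob_s (i : Fin (n + 1)) (j : Option (Fin m)) (t : Fin (2 * n * K)) (a : Fin 3) :
    ¬ (satGraph K cl).Adj (blob j t a) (s i) := by
  simp [satGraph, rel]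

theorem adj_lit_blob (k : Fin n) (b : Bool) (j : Option (Fin m)) (t : Fin (2 * n * K))
    (a : Fin 3) :
    (satGraph K cl).Adj (lit k b) (blob j t a) ↔ t.val = pos K k b ∧ ∀ c ∈ j, (k, b) ∈ cl c := by
  simp [satGraph, rel]

theorem adj_blob_lit (k : Fin n) (b : Bool) (j : Option (Fin m)) (t : Fin (2 * n * K))
    (a : Fin 3) :
    (satGraph K cl).Adj (blob j t a) (lit k b) ↔ t.val = pos K k b ∧ ∀ c ∈ j, (k, b) ∈ cl c := by
  simp [satGraph, rel]

theorem adj_blob_blob (j j' : Option (Fin m)) (t t' : Fin (2 * n * K)) (a a' : Fin 3) :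
    (satGraph K cl).Adj (blob j t a) (blob j' t' a') ↔
      (j = j' ∧ ¬ (t = t' ∧ a = a')) ∧ t.val ≤ t'.val + 1 ∧ t'.val ≤ t.val + 1 := by
  simp only [satGraph, SimpleGraph.fromRel_adj, rel, ne_eq, blob.injEq]
  constructor
  · rintro ⟨h, ⟨rfl, h1, h2⟩ | ⟨rfl, h1, h2⟩⟩
    · exact ⟨⟨rfl, fun h3 => h ⟨rfl, h3.1, h3.2⟩⟩, h1, h2⟩
    · exact ⟨⟨rfl, fun h3 => h ⟨rfl, h3.1, h3.2⟩⟩, h2, h1⟩
  · rintro ⟨⟨rfl, h⟩, h1, h2⟩
    exact ⟨fun h3 => h ⟨h3.2.1, h3.2.2⟩, Or.inl ⟨rfl, h1, h2⟩⟩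

theorem pos_lt (hK : 1 ≤ K) (k : Fin n) (b : Bool) : pos K k b < 2 * n * K := by
  unfold pos
  have h1 : 2 * k.val + b.toNat < 2 * n := by
    have := k.isLt
    have := Bool.toNat_le b
    omega
  exact Nat.mul_lt_mul_of_pos_right h1 hK

/-- If a set `R` of vertices meets every layer, contains a literal vertex of every clause, and
every vertex `s i ∈ R` is connected within `R` to a literal vertex, then `R` is connected. -/
theorem connected_of (hn : 1 ≤ n) (hK : 1 ≤ K) (R : Set (Vert n m K))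
    (h1 : ∀ j t, ∃ a, blob j t a ∈ R)
    (h2 : ∀ c, ∃ l ∈ cl c, lit l.1 l.2 ∈ R)
    (h3 : ∀ i (hi : s i ∈ R), ∃ k b, ∃ hk : lit k b ∈ R,
      ((satGraph K cl).induce R).Reachable ⟨s i, hi⟩ ⟨lit k b, hk⟩) :
    ((satGraph K cl).induce R).Connected := by
  have hpos : 0 < 2 * n * K := by positivity
  set z : Fin (2 * n * K) := ⟨0, hpos⟩ with hz
  -- within one blob
  have hA : ∀ (j : Option (Fin m)) (a₀ : Fin 3) (h₀ : blob j z a₀ ∈ R) (t : ℕ)
      (ht : t < 2 * n * K) (a : Fin 3) (h : blob j ⟨t, ht⟩ a ∈ R),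
      ((satGraph K cl).induce R).Reachable ⟨blob j z a₀, h₀⟩ ⟨blob j ⟨t, ht⟩ a, h⟩ := by
    intro j a₀ h₀ t
    induction t with
    | zero =>
      intro ht a h
      by_cases haa : a₀ = a
      · subst haa; exact SimpleGraph.Reachable.refl _
      · apply SimpleGraph.Adj.reachable
        rw [SimpleGraph.comap_adj]
        show (satGraph K cl).Adj (blob j z a₀) (blob j ⟨0, ht⟩ a)
        rw [adj_blob_blob]
        exact ⟨⟨rfl, fun h3 => haa h3.2⟩, by simp [hz], by simp [hz]⟩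
    | succ t ih =>
      intro ht a h
      obtain ⟨a', ha'⟩ := h1 j ⟨t, by omega⟩
      refine (ih (by omega) a' ha').trans ?_
      apply SimpleGraph.Adj.reachable
      rw [SimpleGraph.comap_adj]
      show (satGraph K cl).Adj (blob j ⟨t, by omega⟩ a') (blob j ⟨t + 1, ht⟩ a)
      rw [adj_blob_blob]
      refine ⟨⟨rfl, fun h3 => ?_⟩, by show t ≤ t + 1 + 1; omega, by simp⟩
      have := congrArg Fin.val h3.1
      simp at this
  obtain ⟨a₀, ha₀⟩ := h1 none z
  -- literal vertices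
  have hB : ∀ k b (h : lit k b ∈ R),
      ((satGraph K cl).induce R).Reachable ⟨blob none z a₀, ha₀⟩ ⟨lit k b, h⟩ := by
    intro k b h
    obtain ⟨a, ha⟩ := h1 none ⟨pos K k b, pos_lt hK k b⟩
    refine (hA none a₀ ha₀ _ _ a ha).trans ?_
    apply SimpleGraph.Adj.reachable
    rw [SimpleGraph.comap_adj]
    show (satGraph K cl).Adj (blob none ⟨pos K k b, _⟩ a) (lit k b)
    rw [adj_blob_lit]
    exact ⟨rfl, by simp⟩
  -- clause blobs
  have hC : ∀ j t a (h : blob j t a ∈ R),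
      ((satGraph K cl).induce R).Reachable ⟨blob none z a₀, ha₀⟩ ⟨blob j t a, h⟩ := by
    intro j t a h
    cases j with
    | none => exact hA none a₀ ha₀ _ _ a h
    | some c =>
      obtain ⟨l, hl, hlR⟩ := h2 c
      obtain ⟨a₁, ha₁⟩ := h1 (some c) z
      obtain ⟨a₂, ha₂⟩ := h1 (some c) ⟨pos K l.1 l.2, pos_lt hK l.1 l.2⟩
      refine (hB l.1 l.2 hlR).trans ?_
      have e1 : ((satGraph K cl).induce R).Reachable ⟨lit l.1 l.2, hlR⟩
          ⟨blob (some c) ⟨pos K l.1 l.2, pos_lt hK l.1 l.2⟩ a₂, ha₂⟩ := by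
        apply SimpleGraph.Adj.reachable
        rw [SimpleGraph.comap_adj]
        show (satGraph K cl).Adj (lit l.1 l.2) (blob (some c) ⟨pos K l.1 l.2, _⟩ a₂)
        rw [adj_lit_blob]
        exact ⟨rfl, by simpa using hl⟩
      exact e1.trans ((hA (some c) a₁ ha₁ _ _ a₂ ha₂).symm.trans (hA (some c) a₁ ha₁ _ _ a h))
  have hall : ∀ v : R, ((satGraph K cl).induce R).Reachable ⟨blob none z a₀, ha₀⟩ v := by
    rintro ⟨v, hv⟩
    cases v with
    | s i =>
      obtain ⟨k, b, hk, hr⟩ := h3 i hv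
      exact (hB k b hk).trans hr.symm
    | lit k b => exact hB k b hv
    | blob j t a => exact hC j t a hv
  have : Nonempty R := ⟨⟨blob none z a₀, ha₀⟩⟩
  exact ⟨fun u v => (hall u).symm.trans (hall v)⟩

end Pool.Agent.Lib.MP_75fd85_lc
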