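import Mathlib

/-!
# Shortest induced nonseparating cycles: definitions and the SAT graph
-/

namespace Pool.Agent.Lib.MP_75fd85_lc

/-- `G` is 3-connected: it has at least four vertices and deleting any set of at most two vertices
leaves a connected graph. -/
def ThreeConnected {V : Type} [Fintype V] (G : SimpleGraph V) : Prop :=
  4 ≤ Fintype.card V ∧ ∀ X : Finset V, X.card ≤ 2 → (G.induce {v | v ∉ X}).Connected

/-- The bridges of the cycle traced by the closed walk `p`: its chords (edges of `G` not on the
cycle with both ends on the cycle) and the connected components of `G - V(C)`. -/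
def Bridge {V : Type} (G : SimpleGraph V) {v : V} (p : G.Walk v v) : Type :=
  {e : Sym2 V // e ∈ G.edgeSet ∧ e ∉ p.edges ∧ ∀ x ∈ e, x ∈ p.support} ⊕
    (G.induce {x | x ∉ p.support}).ConnectedComponent

/-- `p` traces an induced nonseparating cycle: a cycle with exactly one bridge. -/
def InducedNonseparating {V : Type} (G : SimpleGraph V) {v : V} (p : G.Walk v v) : Prop :=
  p.IsCycle ∧ Nat.card (Bridge G p) = 1

/-- A CNF formula with variables `Fin n` and clauses `cl j`, `j : Fin m`, is satisfiable; the
literal `(k, b)` is true under `τ` when `τ k = b`. -/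
def Satisfiable {n m : ℕ} (cl : Fin m → Finset (Fin n × Bool)) : Prop :=
  ∃ τ : Fin n → Bool, ∀ j, ∃ l ∈ cl j, τ l.1 = l.2

/-- Vertices of the graph of a CNF formula with `n` variables and `m` clauses; `K` is a length
parameter. -/
inductive Vert (n m K : ℕ) : Type
  | s (i : Fin (n + 1))
  | lit (k : Fin n) (b : Bool)
  | blob (j : Option (Fin m)) (t : Fin (2 * n * K)) (a : Fin 3)
  deriving DecidableEq

/-- The vertex type as a sum of finite types. -/
def Vert.equiv (n m K : ℕ) :
    Vert n m K ≃ Fin (n + 1) ⊕ (Fin n × Bool) ⊕ (Option (Fin m) × Fin (2 * n * K) × Fin 3) where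
  toFun
    | .s i => .inl i
    | .lit k b => .inr (.inl (k, b))
    | .blob j t a => .inr (.inr (j, t, a))
  invFun
    | .inl i => .s i
    | .inr (.inl (k, b)) => .lit k b
    | .inr (.inr (j, t, a)) => .blob j t a
  left_inv := by rintro (i | ⟨k, b⟩ | ⟨j, t, a⟩) <;> rfl
  right_inv := by rintro (i | ⟨k, b⟩ | ⟨j, t, a⟩) <;> rfl

instance (n m K : ℕ) : Fintype (Vert n m K) := Fintype.ofEquiv _ (Vert.equiv n m K).symm

/-- The layer of every blob at which the literal `(k, b)` is attached. -/
def pos {n : ℕ} (K : ℕ) (k : Fin n) (b : Bool) : ℕ := (2 * k.val + b.toNat) * K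

/-- The (directed) adjacency rules of the graph. -/
def rel {n m K : ℕ} (cl : Fin m → Finset (Fin n × Bool)) : Vert n m K → Vert n m K → Prop
  | .s i, .s i' => i.val = 0 ∧ i'.val = n
  | .s i, .lit k _ => i.val = k.val ∨ i.val = k.val + 1
  | .lit k b, .blob j t _ => t.val = pos K k b ∧ ∀ c ∈ j, (k, b) ∈ cl c
  | .blob j t _, .blob j' t' _ => j = j' ∧ t.val ≤ t'.val + 1 ∧ t'.val ≤ t.val + 1
  | _, _ => False

/-- The graph of a CNF formula. The vertices `s 0, ..., s n` and the literal vertices form a
chain in which consecutive `s k`, `s (k+1)` are joined by the two paths through `lit k true` and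
`lit k false`; `s 0` and `s n` are adjacent. For each clause, and for one extra index `none`, there
is a long thick path (`2 n K` layers of three vertices, all vertices of equal or consecutive
layers adjacent); literal vertex `lit k b` is adjacent to the three vertices of layer `pos K k b`
of the thick path `none` and of the thick paths of the clauses containing `(k, b)`. -/
def satGraph {n m : ℕ} (K : ℕ) (cl : Fin m → Finset (Fin n × Bool)) :
    SimpleGraph (Vert n m K) :=
  SimpleGraph.fromRel (rel cl)

end Pool.Agent.Lib.MP_75fd85_lc
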