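import Pool.Agent.Lib.PolyTM.Tableau
import Pool.Agent.Lib.PolyTM.Emit
import Pool.Agent.Lib.MP_75fd85_lc.Defs

/-! # The CNF formula of a list of clause schemes -/

namespace Pool.Agent.Lib.MP_75fd85_lc

set_option linter.unusedSectionVars false
set_option linter.unusedSimpArgs false

open Pool.Agent.Lib.PolyTM Pool.Agent.Lib.PolyTM.Tab

section Idx

variable {M : ℕ}

/-- Number of a triple. -/
def idx (M u t i : ℕ) : ℕ := u * (M * M) + (t * M + i)

theorem idx_lt {U u t i : ℕ} (hu : u < U) (ht : t < M) (hi : i < M) :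
    idx M u t i < U * (M * M) := by
  unfold idx
  have h1 : (t + 1) * M ≤ M * M := Nat.mul_le_mul_right _ ht
  have h2 : (u + 1) * (M * M) ≤ U * (M * M) := Nat.mul_le_mul_right _ hu
  nlinarith

theorem idx_low {t i : ℕ} (ht : t < M) (hi : i < M) : t * M + i < M * M := by
  have h1 : (t + 1) * M ≤ M * M := Nat.mul_le_mul_right _ ht
  nlinarith

theorem idx_div {u t i : ℕ} (ht : t < M) (hi : i < M) : idx M u t i / (M * M) = u := by
  have h := idx_low ht hi
  unfold idx
  rw [Nat.mul_comm, Nat.mul_add_div (by omega), Nat.div_eq_of_lt h, Nat.add_zero]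

theorem idx_mid {u t i : ℕ} (ht : t < M) (hi : i < M) : idx M u t i / M % M = t := by
  unfold idx
  rw [show u * (M * M) + (t * M + i) = M * (u * M + t) + i by ring,
    Nat.mul_add_div (by omega), Nat.div_eq_of_lt hi, Nat.add_zero, Nat.mul_comm,
    Nat.mul_add_mod, Nat.mod_eq_of_lt ht]

theorem idx_mod {u t i : ℕ} (hi : i < M) : idx M u t i % M = i := by
  unfold idx
  rw [show u * (M * M) + (t * M + i) = M * (u * M + t) + i by ring, Nat.mul_add_mod,
    Nat.mod_eq_of_lt hi]

theorem idx_eq (k : ℕ) : idx M (k / (M * M)) (k / M % M) (k % M) = k := by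
  unfold idx
  rw [← Nat.div_div_eq_div_mul]
  have h1 := Nat.div_add_mod (k / M) M
  have h2 := Nat.div_add_mod k M
  calc k / M / M * (M * M) + (k / M % M * M + k % M)
      = M * (M * (k / M / M) + k / M % M) + k % M := by ring
    _ = M * (k / M) + k % M := by rw [h1]
    _ = k := h2

end Idx

variable {K : Type} {Γ : K → Type} {S : Type}

/-- A scheme with the signs of the two dummy literals. -/
abbrev Sc4 (K : Type) (Γ : K → Type) (S : Type) : Type := Sc K Γ S × Bool × Bool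

/-- All signs of the dummy literals. -/
def sc4 (cs : List (Sc K Γ S)) : List (Sc4 K Γ S) :=
  cs.flatMap fun c => [(c, false, false), (c, false, true), (c, true, false), (c, true, true)]

theorem mem_sc4 {cs : List (Sc K Γ S)} {q : Sc4 K Γ S} : q ∈ sc4 cs ↔ q.1 ∈ cs := by
  obtain ⟨c, b, b'⟩ := q
  unfold sc4
  rw [List.mem_flatMap]
  constructor
  · rintro ⟨c', hc', h⟩
    have : c = c' := by
      simp only [List.mem_cons, Prod.mk.injEq, List.not_mem_nil, or_false] at h
      rcases h with h | h | h | h <;> exact h.1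
    rw [this]
    exact hc'
  · intro hc
    refine ⟨c, hc, ?_⟩
    cases b <;> cases b' <;> simp

/-- Sign of a dummy literal. -/
def sgn (q : Sc4 K Γ S) (β : Bool) : Bool := if β then q.2.2 else q.2.1

/-- Membership of the literal with kind `v`, time `tx`, position `ix` and sign `b` in the
instance `(tz, iz)` of a scheme. -/
def Mem (M : ℕ) (A : GW → ℕ → Prop) (q : Sc4 K Γ S) (tz iz : ℕ) (v : VT K Γ S) (tx ix : ℕ)
    (b : Bool) : Prop :=
  (q.1.ok M A tz iz ∧ ∃ l ∈ q.1.lits, l.v = v ∧ l.b = b ∧ tx = tz + l.dt.toNat ∧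
      ix = l.di.at iz) ∨
    ∃ β, v = .dm β ∧ tx = 0 ∧ ix = 0 ∧ (¬q.1.ok M A tz iz ∨ b = sgn q β)

variable {U : ℕ} (cd : VT K Γ S ≃ Fin U) (cs : List (Sc K Γ S)) (M : ℕ) (A : GW → ℕ → Prop)

open Classical in
/-- The clauses. -/
noncomputable def clauses (j : Fin ((sc4 cs).length * (M * M))) :
    Finset (Fin (U * (M * M)) × Bool) :=
  Finset.univ.filter fun p => ∃ q v, (sc4 cs)[j.val / (M * M)]? = some q ∧
    (cd v).val = p.1.val / (M * M) ∧
    Mem M A q (j.val / M % M) (j.val % M) v (p.1.val / M % M) (p.1.val % M) p.2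

variable {cd cs M A}

theorem mem_clauses {j : Fin ((sc4 cs).length * (M * M))} {p : Fin (U * (M * M)) × Bool} :
    p ∈ clauses cd cs M A j ↔ ∃ q v, (sc4 cs)[j.val / (M * M)]? = some q ∧
      (cd v).val = p.1.val / (M * M) ∧
      Mem M A q (j.val / M % M) (j.val % M) v (p.1.val / M % M) (p.1.val % M) p.2 := by
  classical
  simp [clauses]

theorem satisfiable_of_satBy (hM : 0 < M) {α : VT K Γ S → ℕ → ℕ → Bool}
    (h : SatBy M A cs α) : Satisfiable (clauses cd cs M A) := by
  classical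
  have hlt : ∀ k : Fin (U * (M * M)), k.val / (M * M) < U := fun k =>
    Nat.div_lt_of_lt_mul (k.2.trans_eq (Nat.mul_comm _ _))
  refine ⟨fun k => α (cd.symm ⟨k.val / (M * M), hlt k⟩) (k.val / M % M) (k.val % M),
    fun j => ?_⟩
  have hj : j.val / (M * M) < (sc4 cs).length :=
    Nat.div_lt_of_lt_mul (j.2.trans_eq (Nat.mul_comm _ _))
  set q := (sc4 cs)[j.val / (M * M)] with hq
  have hq' : (sc4 cs)[j.val / (M * M)]? = some q := List.getElem?_eq_getElem hj
  have hqc : q.1 ∈ cs := mem_sc4.1 (List.getElem_mem hj)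
  have ht : j.val / M % M < M := Nat.mod_lt _ hM
  have hi : j.val % M < M := Nat.mod_lt _ hM
  have mkl : ∀ (v : VT K Γ S) (t i : ℕ) (b : Bool), t < M → i < M → α v t i = b →
      Mem M A q (j.val / M % M) (j.val % M) v t i b →
      ∃ l ∈ clauses cd cs M A j,
        α (cd.symm ⟨l.1.val / (M * M), hlt l.1⟩) (l.1.val / M % M) (l.1.val % M) = l.2 := by
    intro v t i b ht hi hα hm
    refine ⟨(⟨idx M (cd v).val t i, idx_lt (cd v).2 ht hi⟩, b), ?_, ?_⟩
    · rw [mem_clauses]
      refine ⟨q, v, hq', ?_, ?_⟩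
      · exact (idx_div ht hi).symm
      · simp only
        rw [idx_mid ht hi, idx_mod hi]
        exact hm
    · simp only [idx_div ht hi, idx_mid ht hi, idx_mod hi, Fin.eta, Equiv.symm_apply_apply]
      exact hα
  by_cases hok : q.1.ok M A (j.val / M % M) (j.val % M)
  · obtain ⟨l, hl, hs⟩ := h q.1 hqc _ ht _ hi hok
    refine mkl l.v _ _ l.b ?_ ?_ hs (Or.inl ⟨hok, l, hl, rfl, rfl, rfl, rfl⟩)
    · cases hd : l.dt
      · simpa using ht
      · have := hok.1 (List.any_eq_true.2 ⟨l, hl, hd⟩)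
        simpa using this
    · cases hd : l.di
      · simpa [Sh.at] using hM
      · simpa [Sh.at] using hi
      · have := hok.2.1 (List.any_eq_true.2 ⟨l, hl, by simp [hd]⟩)
        simpa [Sh.at] using this
  · exact mkl (.dm false) 0 0 _ hM hM rfl (Or.inr ⟨false, rfl, rfl, rfl, Or.inl hok⟩)

theorem satBy_of_satisfiable (h : Satisfiable (clauses cd cs M A)) :
    ∃ α, SatBy M A cs α := by
  classical
  obtain ⟨τ, hτ⟩ := h
  set α : VT K Γ S → ℕ → ℕ → Bool := fun v t i =>
    if h : t < M ∧ i < M then τ ⟨idx M (cd v).val t i, idx_lt (cd v).2 h.1 h.2⟩ else false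
    with hα
  refine ⟨α, fun c hc t ht i hi hok => ?_⟩
  have hM : 0 < M := by omega
  set q : Sc4 K Γ S := (c, !α (.dm false) 0 0, !α (.dm true) 0 0) with hq
  have hqm : q ∈ sc4 cs := mem_sc4.2 hc
  obtain ⟨σ, hσ, hσq⟩ := List.mem_iff_getElem.1 hqm
  obtain ⟨⟨k, b⟩, hmem, hsat⟩ := hτ ⟨idx M σ t i, idx_lt hσ ht hi⟩
  rw [mem_clauses] at hmem
  obtain ⟨q', v, h1, h2, h3⟩ := hmem
  simp only [idx_div ht hi, idx_mid ht hi, idx_mod hi] at h1 h2 h3
  rw [List.getElem?_eq_getElem hσ, hσq, Option.some.injEq] at h1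
  subst h1
  have hk : α v (k.val / M % M) (k.val % M) = b := by
    change τ k = b at hsat
    rw [← hsat, hα]
    simp only
    rw [dif_pos ⟨Nat.mod_lt _ hM, Nat.mod_lt _ hM⟩]
    congr 1
    apply Fin.ext
    simp only
    rw [h2, idx_eq]
  rcases h3 with ⟨-, l, hl, hlv, hlb, hlt, hli⟩ | ⟨β, rfl, h4, h5, h6⟩
  · refine ⟨l, hl, ?_⟩
    rw [Lt.sat, ← hlt, ← hli, hlv, hk, hlb]
  · exfalso
    rw [h4, h5] at hk
    rcases h6 with h6 | h6
    · exact h6 hok
    · rw [h6] at hk
      cases β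
      · simp [sgn, hq] at hk
      · simp [sgn, hq] at hk

theorem three_le_clause (hM : 0 < M) (hcs : ∀ c ∈ cs, ∃ l ∈ c.lits, ∀ β, l.v ≠ .dm β)
    (j : Fin ((sc4 cs).length * (M * M))) : 3 ≤ (clauses cd cs M A j).card := by
  classical
  have hj : j.val / (M * M) < (sc4 cs).length :=
    Nat.div_lt_of_lt_mul (j.2.trans_eq (Nat.mul_comm _ _))
  set q := (sc4 cs)[j.val / (M * M)] with hq
  have hq' : (sc4 cs)[j.val / (M * M)]? = some q := List.getElem?_eq_getElem hj
  have hqc : q.1 ∈ cs := mem_sc4.1 (List.getElem_mem hj)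
  have hi : j.val % M < M := Nat.mod_lt _ hM
  have ht : j.val / M % M < M := Nat.mod_lt _ hM
  have mkl : ∀ (v : VT K Γ S) (t i : ℕ) (b : Bool) (ht : t < M) (hi : i < M),
      Mem M A q (j.val / M % M) (j.val % M) v t i b →
      ((⟨idx M (cd v).val t i, idx_lt (cd v).2 ht hi⟩, b) : Fin (U * (M * M)) × Bool) ∈
        clauses cd cs M A j := by
    intro v t i b ht hi hm
    rw [mem_clauses]
    refine ⟨q, v, hq', ?_, ?_⟩
    · exact (idx_div ht hi).symm
    · simp only
      rw [idx_mid ht hi, idx_mod hi]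
      exact hm
  have hne : ∀ {v v' : VT K Γ S} {t i t' i' : ℕ} {b b' : Bool} (ht : t < M) (hi : i < M)
      (ht' : t' < M) (hi' : i' < M), (v ≠ v' ∨ b ≠ b') →
      ((⟨idx M (cd v).val t i, idx_lt (cd v).2 ht hi⟩, b) : Fin (U * (M * M)) × Bool) ≠
        (⟨idx M (cd v').val t' i', idx_lt (cd v').2 ht' hi'⟩, b') := by
    intro v v' t i t' i' b b' ht hi ht' hi' h heq
    simp only [Prod.mk.injEq, Fin.mk.injEq] at heq
    rcases h with h | h
    · have h1 := idx_div (u := (cd v).val) ht hi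
      rw [heq.1, idx_div ht' hi'] at h1
      exact h (cd.injective (Fin.ext h1.symm))
    · exact h heq.2
  by_cases hok : q.1.ok M A (j.val / M % M) (j.val % M)
  · obtain ⟨l, hl, hld⟩ := hcs _ hqc
    have hlt : j.val / M % M + l.dt.toNat < M := by
      cases hd : l.dt
      · simpa using ht
      · have := hok.1 (List.any_eq_true.2 ⟨l, hl, hd⟩)
        simpa using this
    have hli : l.di.at (j.val % M) < M := by
      cases hd : l.di
      · simpa [Sh.at] using hM
      · simpa [Sh.at] using hi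
      · have := hok.2.1 (List.any_eq_true.2 ⟨l, hl, by simp [hd]⟩)
        simpa [Sh.at] using this
    have m1 := mkl l.v _ _ l.b hlt hli (Or.inl ⟨hok, l, hl, rfl, rfl, rfl, rfl⟩)
    have m2 := mkl (.dm false) 0 0 (sgn q false) hM hM
      (Or.inr ⟨false, rfl, rfl, rfl, Or.inr rfl⟩)
    have m3 := mkl (.dm true) 0 0 (sgn q true) hM hM
      (Or.inr ⟨true, rfl, rfl, rfl, Or.inr rfl⟩)
    refine Nat.succ_le_of_lt (Finset.two_lt_card.2 ⟨_, m1, _, m2, _, m3, ?_, ?_, ?_⟩)
    · exact hne hlt hli hM hM (Or.inl (hld false))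
    · exact hne hlt hli hM hM (Or.inl (hld true))
    · exact hne hM hM hM hM (Or.inl (by simp))
  · have m1 := mkl (.dm false) 0 0 true hM hM
      (Or.inr ⟨false, rfl, rfl, rfl, Or.inl hok⟩)
    have m2 := mkl (.dm false) 0 0 false hM hM
      (Or.inr ⟨false, rfl, rfl, rfl, Or.inl hok⟩)
    have m3 := mkl (.dm true) 0 0 true hM hM
      (Or.inr ⟨true, rfl, rfl, rfl, Or.inl hok⟩)
    refine Nat.succ_le_of_lt (Finset.two_lt_card.2 ⟨_, m1, _, m2, _, m3, ?_, ?_, ?_⟩)
    · exact hne hM hM hM hM (Or.inr (by simp))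
    · exact hne hM hM hM hM (Or.inl (by simp))
    · exact hne hM hM hM hM (Or.inl (by simp))

end Pool.Agent.Lib.MP_75fd85_lc
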