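import Pool.Agent.Lib.MP_75fd85_lc.Red

/-! # NP-hardness and the main theorem -/

namespace Pool.Agent.Lib.MP_75fd85_lc

set_option linter.unusedSectionVars false
set_option linter.unusedSimpArgs false

open Pool.Agent.Lib.PolyTM Pool.Agent.Lib.PolyTM.Tab Function Turing

/-- Consequences of the graph construction for one formula. -/
theorem graph_step {n m K' : ℕ} (hn : 2 ≤ n) (hK : 3 * n ≤ K')
    (cl : Fin m → Finset (Fin n × Bool)) (h3 : ∀ j, 3 ≤ (cl j).card) :
    ∃ (k : ℕ) (G : SimpleGraph (Fin k)) (u v : Fin k),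
      instWord (satGraph K' cl) (vl n m K') (2 * n) (3 * n) = instanceWord G u v ∧
      ThreeConnected G ∧ G.Adj v u ∧
      (Satisfiable cl → ∃ (y : Fin k) (c : G.Walk y y), InducedNonseparating G c ∧
        s(u, v) ∈ c.edges ∧ c.length ≤ v.val) ∧
      (¬Satisfiable cl → ∀ (y : Fin k) (c : G.Walk y y), InducedNonseparating G c →
        s(u, v) ∈ c.edges → v.val < c.length) := by
  obtain ⟨g1, -, g2, -, g3, g4⟩ := sat_graph_theorem n m K' hn (by omega) cl h3
  set l := vl n m K' with hl
  have hu := vl_s0 (n := n) (m := m) (K' := K') (by omega)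
  have hv := vl_sl (n := n) (m := m) (K' := K')
  rw [← hl] at hu hv
  obtain ⟨hu1, hu2⟩ := List.getElem?_eq_some_iff.1 hu
  obtain ⟨hv1, hv2⟩ := List.getElem?_eq_some_iff.1 hv
  set e : Fin l.length ≃ Vert n m K' :=
    List.Nodup.getEquivOfForallMemList l vl_nodup mem_vl with he
  set G : SimpleGraph (Fin l.length) := (satGraph K' cl).comap l.get with hG
  let φ : G ≃g satGraph K' cl := ⟨e, Iff.rfl⟩
  have hφu : φ ⟨2 * n, hu1⟩ = .s 0 := hu2
  have hφv : φ ⟨3 * n, hv1⟩ = .s (Fin.last n) := hv2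
  have hψu : φ.symm (.s 0) = ⟨2 * n, hu1⟩ := by
    rw [← hφu]; exact φ.symm_apply_apply _
  have hψv : φ.symm (.s (Fin.last n)) = ⟨3 * n, hv1⟩ := by
    rw [← hφv]; exact φ.symm_apply_apply _
  refine ⟨l.length, G, ⟨2 * n, hu1⟩, ⟨3 * n, hv1⟩, instWord_eq _ _ _ _ hu1 hv1, g1.iso φ, ?_,
    ?_, ?_⟩
  · have : (satGraph K' cl).Adj (φ ⟨3 * n, hv1⟩) (φ ⟨2 * n, hu1⟩) := by
      rw [hφu, hφv]
      exact g2.symm
    exact φ.map_rel_iff.1 this
  · intro hs
    obtain ⟨w, p, hp, hpe, hpl⟩ := g3 hs
    refine ⟨φ.symm w, p.map φ.symm.toHom, hp.iso φ.symm, ?_, ?_⟩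
    · rw [SimpleGraph.Walk.edges_map, List.mem_map]
      refine ⟨_, hpe, ?_⟩
      change s(φ.symm (.s 0), φ.symm (.s (Fin.last n))) = _
      rw [hψu, hψv]
    · rw [SimpleGraph.Walk.length_map, hpl]
      change 2 * n + 1 ≤ 3 * n
      omega
  · intro hs y c hc hce
    have := g4 hs _ (c.map φ.toHom) (hc.iso φ) (by
      rw [SimpleGraph.Walk.edges_map, List.mem_map]
      refine ⟨_, hce, ?_⟩
      change s(φ ⟨2 * n, hu1⟩, φ ⟨3 * n, hv1⟩) = _
      rw [hφu, hφv])
    rw [SimpleGraph.Walk.length_map] at this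
    change 3 * n < _
    omega

/-- **NP-hardness**: every language in NP reduces in polynomial time to the question whether the
shortest induced nonseparating cycle through a given edge `uv` of a 3-connected graph is short. -/
theorem reduction (L : Set (List Bool)) (hL : InNP L) :
    ∃ f : List Bool → List Bool, PolyFun f ∧
      ∀ x, ∃ (n : ℕ) (G : SimpleGraph (Fin n)) (u v : Fin n), f x = instanceWord G u v ∧
        ThreeConnected G ∧ G.Adj v u ∧
        (x ∈ L → ∃ (y : Fin n) (c : G.Walk y y), InducedNonseparating G c ∧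
          s(u, v) ∈ c.edges ∧ c.length ≤ v.val) ∧
        (x ∉ L → ∀ (y : Fin n) (c : G.Walk y y), InducedNonseparating G c →
          s(u, v) ∈ c.edges → v.val < c.length) := by
  classical
  obtain ⟨R, ⟨MV, pV, hfin, hR⟩, ⟨q, hq⟩, hLR⟩ := hL
  let tm := MV.tm
  let _ : Fintype tm.K := tm.kFin
  let _ : Fintype tm.σ := tm.σFin
  let _ : ∀ k, Fintype (tm.Γ k) := fun k => by
    have := hfin k
    exact Fintype.ofFinite _
  let S := Micro.MS tm.m
  let act : S → Act tm.K tm.Γ S := Micro.act tm.m tm.k₁ (MV.outputAlphabet.invFun true)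
  let start : S := Micro.mk tm.m (tm.m tm.main) tm.initialState
  let acc : S := .inr true
  let rej : S := .inr false
  let g : Bool ⊕ Bool → tm.Γ tm.k₀ := MV.inputAlphabet.invFun
  let cs := schemes act start rej tm.k₀ g
  let U := Fintype.card (VT tm.K tm.Γ S)
  let cd : VT tm.K tm.Γ S ≃ Fin U := Fintype.equivFin _
  have hU : 0 < U := Fintype.card_pos_iff.2 ⟨VT.dm true⟩
  let C := ∑ l : tm.Λ, Micro.depth (tm.m l)
  obtain ⟨m2, hm2⟩ := poly_pow_bound (q + Polynomial.X)
  obtain ⟨m1, hm1⟩ := poly_pow_bound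
    ((C : Polynomial ℕ) * pV.comp (Polynomial.X ^ (m2 + 1)) + 1)
  let D := (m1 + 1) + m2 + 2
  obtain ⟨c, hc⟩ := poly_pow_bound
    (((3 * U : ℕ) : Polynomial ℕ) * Polynomial.X ^ (D + D))
  let P : Par := ⟨m1 + 1, m2, c⟩
  have hPD : P.D = D := rfl
  refine ⟨(wordP P cd cs).out (fun _ => true) (fun (_ : Unit) b => some b) ∘
    padS.out (fun _ => true) (fun (_ : Unit) b => some b),
    (polyFun_out _ wf_wordP).comp (polyFun_out _ padS_wf), fun x => ?_⟩
  set N := x.length + 2 with hN
  have hN2 : 2 ≤ N := by omega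
  have hNpos : 0 < N := by omega
  -- sizes
  have b1 : q.eval x.length + x.length ≤ N ^ (m2 + 1) := by
    have h1 := hm2 N hN2
    simp only [Polynomial.eval_add, Polynomial.eval_X] at h1
    have h2 : q.eval x.length ≤ q.eval N := poly_mono q (by omega)
    have h3 : N ^ m2 ≤ N ^ (m2 + 1) := Nat.pow_le_pow_right hNpos (by omega)
    omega
  have b2 : C * pV.eval (N ^ (m2 + 1)) + 1 ≤ Pn N P.D := by
    have h1 := hm1 N hN2
    simp only [Polynomial.eval_add, Polynomial.eval_mul, Polynomial.eval_natCast,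
      Polynomial.eval_comp, Polynomial.eval_pow, Polynomial.eval_X, Polynomial.eval_one] at h1
    refine h1.trans ?_
    rw [Pn]
    have h2 : N ^ m1 ≤ N ^ (P.D - 1) := Nat.pow_le_pow_right hNpos (by
      rw [hPD]; omega)
    have h3 : 1 * N ^ (P.D - 1) ≤ (N - 1) * N ^ (P.D - 1) := Nat.mul_le_mul_right _ (by omega)
    omega
  have b3 : Pn N P.D + N ^ (P.m2 + 1) < N ^ P.D := by
    have h2 : N ^ (P.m2 + 1) < N ^ (P.D - 1) := Nat.pow_lt_pow_right (by omega) (by
      rw [hPD]; change m2 + 1 < D - 1; omega)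
    have h3 : N ^ P.D = N * N ^ (P.D - 1) := by
      rw [← pow_succ', Nat.sub_add_cancel (by rw [hPD]; omega)]
    rw [Pn, h3]
    have h4 : (N - 1) * N ^ (P.D - 1) + 1 * N ^ (P.D - 1) = N * N ^ (P.D - 1) := by
      rw [← Nat.add_mul, Nat.sub_add_cancel (by omega)]
    omega
  have b4 : 3 * nn U N P ≤ N ^ P.c := by
    have h1 := hc N hN2
    simp only [Polynomial.eval_mul, Polynomial.eval_natCast, Polynomial.eval_pow,
      Polynomial.eval_X, pow_add, Nat.cast_id] at h1
    calc 3 * nn U N P = 3 * U * (N ^ D * N ^ D) := by rw [nn, hPD]; ring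
      _ ≤ N ^ c := h1
  have b5 : 2 ≤ nn U N P := by
    have h1 : 2 ^ 2 ≤ N ^ P.D := (Nat.pow_le_pow_left hN2 2).trans
      (Nat.pow_le_pow_right hNpos (by rw [hPD]; omega))
    have h2 : 4 * 4 ≤ N ^ P.D * N ^ P.D := Nat.mul_le_mul (by omega) (by omega)
    have h3 : 1 * (4 * 4) ≤ U * (N ^ P.D * N ^ P.D) := Nat.mul_le_mul (by omega) h2
    rw [nn]
    omega
  have b6 : 0 < N ^ P.D := pow_pos hNpos _
  -- the verifier
  have hrun : ∀ y : List Bool, Pn N P.D + x.length + y.length ≤ Pn N P.D + N ^ (P.m2 + 1) →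
      ∃ stk, ∃ n ≤ Pn N P.D, ∀ n' ≥ n, run act start tm.k₀ g x y n' =
        ⟨if decide (x.map Sum.inl ++ y.map Sum.inr ∈ R) then acc else rej, stk⟩ := by
    intro y hy
    have hw : Halts MV (x.map Sum.inl ++ y.map Sum.inr)
        [decide (x.map Sum.inl ++ y.map Sum.inr ∈ R)]
        (pV.eval (x.map Sum.inl ++ y.map Sum.inr).length) := by
      by_cases h : x.map Sum.inl ++ y.map Sum.inr ∈ R
      · rw [decide_eq_true h]; exact (hR _).1 h
      · rw [decide_eq_false h]; exact (hR _).2 h
    obtain ⟨stk, n, hn, hrun⟩ := verifier_run MV x y _ _ hw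
    refine ⟨stk, n, ?_, hrun⟩
    have h1 : pV.eval (x.map (Sum.inl : Bool → Bool ⊕ Bool) ++ y.map Sum.inr).length ≤
        pV.eval (N ^ (m2 + 1)) := by
      refine poly_mono pV ?_
      simp only [List.length_append, List.length_map]
      change Pn N P.D + x.length + y.length ≤ Pn N P.D + N ^ (m2 + 1) at hy
      omega
    have h2 := Nat.mul_le_mul_left C h1
    exact hn.trans ((Nat.add_le_add_right h2 1).trans b2)
  -- satisfiability
  have hsat : Satisfiable (clauses cd cs (N ^ P.D) (AmP P N x)) ↔ x ∈ L := by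
    rw [hLR]
    constructor
    · intro hs
      obtain ⟨α, hα⟩ := satBy_of_satisfiable hs
      obtain ⟨y, -, hy⟩ := Tab.sound (acc := acc) (rej := rej)
        (fun y => decide (x.map Sum.inl ++ y.map Sum.inr ∈ R))
        (by have := b1; change _ ≤ Pn N P.D + N ^ (m2 + 1); omega) b3 le_rfl hrun hα
      exact ⟨y, of_decide_eq_true hy⟩
    · rintro ⟨y, hy⟩
      have hyl := hq x y hy
      have hlen : Pn N P.D + x.length + y.length ≤ Pn N P.D + N ^ (P.m2 + 1) := by
        change _ ≤ Pn N P.D + N ^ (m2 + 1)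
        omega
      obtain ⟨stk, hv⟩ := hrun y hlen
      rw [decide_eq_true hy] at hv
      have hj : act rej = .jump rej := rfl
      have hne : acc ≠ rej := fun h => absurd (Sum.inr.inj h) (by simp)
      exact satisfiable_of_satBy b6 (Tab.complete hj hne le_rfl hlen hv)
  have h3 := three_le_clause (cd := cd) (A := AmP P N x) b6
    (schemes_lits act start rej tm.k₀ g)
  obtain ⟨k, G, u, v, e1, e2, e3, e4, e5⟩ := graph_step b5 b4
    (clauses cd cs (N ^ P.D) (AmP P N x)) h3
  refine ⟨k, G, u, v, ?_, e2, e3, fun h => e4 (hsat.2 h), fun h => e5 fun hs => h (hsat.1 hs)⟩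
  rw [← e1, Function.comp_apply, padS_out]
  have hcnt : (x ++ [true, true]).countP (fun _ => true) = N := by simp [hN]
  unfold Stmt.out
  rw [hcnt]
  have := emits_wordP (P := P) (cd := cd) (cs := cs) (N := N)
    (a := iniArr N (fun (_ : Unit) b => some b) (x ++ [true, true])) (e := fun _ => 0) hU hN
    (fun t _ => iniArr_one _ _ _) (fun _ => hNpos) []
  rw [this]
  rfl

theorem length_instanceWord {n : ℕ} (G : SimpleGraph (Fin n)) (u v : Fin n) :
    n + n * n ≤ (instanceWord G u v).length := by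
  classical
  unfold instanceWord
  simp only [List.length_append, List.length_cons, List.length_replicate, List.length_flatMap,
    List.length_map, List.length_finRange, List.map_const', List.sum_replicate, smul_eq_mul]
  omega

theorem card_edges_le {n : ℕ} (G : SimpleGraph (Fin n)) : Nat.card G.edgeSet ≤ n * n := by
  classical
  rw [Nat.card_eq_fintype_card, ← SimpleGraph.edgeFinset_card]
  refine G.card_edgeFinset_le_card_choose_two.trans ?_
  rw [Fintype.card_fin, Nat.choose_two_right]
  refine (Nat.div_le_self _ _).trans (Nat.mul_le_mul_left _ (Nat.sub_le _ _))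

theorem walkWord_eq {n : ℕ} {G : SimpleGraph (Fin n)} {u v : Fin n} (w : G.Walk u v) :
    ∃ l : List ℕ, walkWord w = blocks (l ++ [v.val]) ∧ l.length + 1 = w.length + 1 := by
  refine ⟨(w.support.dropLast).map Fin.val, ?_, ?_⟩
  · have h : w.support = w.support.dropLast ++ [v] := by
      conv_lhs => rw [← List.dropLast_append_getLast w.support_ne_nil]
      rw [SimpleGraph.Walk.getLast_support]
    have h2 : (w.support.dropLast.map Fin.val) ++ [v.val] = w.support.map Fin.val := by
      conv_rhs => rw [h]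
      rw [List.map_append]
      rfl
    rw [h2, walkWord, blocks, List.flatMap_map]
  · rw [List.length_map, List.length_dropLast, SimpleGraph.Walk.length_support]
    omega

/-- **Main theorem**: a polynomially bounded algorithm for Q1 would imply P = NP. -/
theorem main (h : ∃ (A : TM2ComputableAux Bool Bool) (p : Polynomial ℕ),
    (∀ k, Finite (A.tm.Γ k)) ∧ SolvesTask A p) (L : Set (List Bool)) (hL : InNP L) : InP L := by
  obtain ⟨A, pA, hAfin, hA⟩ := h
  obtain ⟨f, ⟨Mf, pf, hffin, hf⟩, hred⟩ := reduction L hL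
  obtain ⟨M4, p4, h4fin, h4⟩ := polyFun_out postS postS_wf
  obtain ⟨M1, h1fin, hM1⟩ := comp_outputs Mf A
  obtain ⟨M2, h2fin, hM2⟩ := comp_outputs M1 M4
  obtain ⟨Cf, hCf⟩ := Outputs.length_le Mf
  obtain ⟨CA, hCA⟩ := Outputs.length_le A
  -- bounds
  set pl : Polynomial ℕ := Polynomial.X + (Cf : Polynomial ℕ) * pf with hpl
  set tA : Polynomial ℕ := pA.comp pl with htA
  set pw : Polynomial ℕ := pl + (CA : Polynomial ℕ) * tA with hpw
  refine ⟨M2, pf + 2 * (pl + 1) + tA + 2 * (pw + 1) + p4.comp pw,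
    h2fin (h1fin hffin hAfin) h4fin, ?_⟩
  have key : ∀ x, ∃ b : Bool, (b = true ↔ x ∈ L) ∧
      Outputs M2 x [b] ((pf + 2 * (pl + 1) + tA + 2 * (pw + 1) + p4.comp pw).eval x.length) := by
    intro x
    obtain ⟨n, G, u, v, e1, e2, e3, e4, e5⟩ := hred x
    obtain ⟨w, w1, w2, w3⟩ := hA n G u v e3 e2
    obtain ⟨l, hl1, hl2⟩ := walkWord_eq w
    have o1 : Outputs Mf x (instanceWord G u v) (pf.eval x.length) := e1 ▸ hf x
    have o2 : Outputs A (instanceWord G u v) (walkWord w) (pA.eval (n + Nat.card G.edgeSet)) := w3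
    have o3 := h4 (walkWord w)
    have hout : postS.out (fun _ => true) (fun (_ : Unit) b => some b) (walkWord w) =
        [decide (l.length + 1 ≤ v.val)] := by
      rw [hl1, postS_out]
    rw [hout] at o3
    have o4 := hM2 _ _ _ _ _ (hM1 _ _ _ _ _ o1 o2) o3
    have c1 : (instanceWord G u v).length ≤ pl.eval x.length := by
      have := hCf _ _ _ o1
      simp only [hpl, Polynomial.eval_add, Polynomial.eval_X, Polynomial.eval_mul,
        Polynomial.eval_natCast]
      exact this
    have c2 : n + Nat.card G.edgeSet ≤ pl.eval x.length :=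
      ((Nat.add_le_add_left (card_edges_le G) n).trans (length_instanceWord G u v)).trans c1
    have c3 : pA.eval (n + Nat.card G.edgeSet) ≤ tA.eval x.length := by
      rw [htA, Polynomial.eval_comp]
      exact poly_mono pA c2
    have c4 : (walkWord w).length ≤ pw.eval x.length := by
      have := hCA _ _ _ o2
      simp only [hpw, Polynomial.eval_add, Polynomial.eval_mul, Polynomial.eval_natCast,
        Nat.cast_id]
      have := Nat.mul_le_mul_left CA c3
      omega
    have c5 : p4.eval (walkWord w).length ≤ (p4.comp pw).eval x.length := by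
      rw [Polynomial.eval_comp]
      exact poly_mono p4 c4
    refine ⟨decide (l.length + 1 ≤ v.val), ?_, ?_⟩
    · rw [decide_eq_true_iff, hl2]
      constructor
      · intro hle
        by_contra hx
        have h1 := e5 hx v (.cons e3 w) w1 (by simp [Sym2.eq_swap])
        rw [SimpleGraph.Walk.length_cons] at h1
        omega
      · intro hx
        obtain ⟨y, c, k1, k2, k3⟩ := e4 hx
        have h1 := w2 y c k1 k2
        rw [SimpleGraph.Walk.length_cons] at h1
        omega
    · obtain ⟨⟨o5, o6⟩⟩ := o4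
      refine ⟨⟨o5, o6.trans ?_⟩⟩
      simp only [Polynomial.eval_add, Polynomial.eval_mul, Polynomial.eval_ofNat,
        Polynomial.eval_one] at c1 c2 c3 c4 c5 ⊢
      omega
  intro x
  obtain ⟨b, hb1, hb2⟩ := key x
  constructor
  · intro hx
    rw [hb1.2 hx] at hb2
    exact hb2
  · intro hx
    have : b = false := by
      cases b
      · rfl
      · exact absurd (hb1.1 rfl) hx
    rw [this] at hb2
    exact hb2

end Pool.Agent.Lib.MP_75fd85_lc
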