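import Pool.Agent.Lib.MP_75fd85_lc.Cook

/-! # Formulas for the clauses -/

namespace Pool.Agent.Lib.MP_75fd85_lc

set_option linter.unusedSectionVars false
set_option linter.unusedSimpArgs false

open Pool.Agent.Lib.PolyTM Pool.Agent.Lib.PolyTM.Tab Function

variable {L : Type} [DecidableEq L] {N : ℕ} {a : Arr Unit} {e : Vr L → ℕ}

/-- Variables as digits. -/
abbrev dx (vs : List (Vr L)) : List (Dg (Vr L)) := vs.map .x

/-- The number given by some variables. -/
def nv (N : ℕ) (e : Vr L → ℕ) (vs : List (Vr L)) : ℕ := num N e (dx vs)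

/-- Digit variables. -/
def DV (vs : List (Vr L)) : Prop := ∀ x ∈ vs, ∃ i, x = .inl i

theorem radP_dx (vs : List (Vr L)) : radP N (dx vs) = N ^ vs.length := by
  induction vs with
  | nil => simp [radP]
  | cons v vs ih =>
    simp only [dx, List.map_cons, List.length_cons] at ih ⊢
    rw [radP_cons, ih, pow_succ, Nat.mul_comm]
    rfl

theorem good_dx (h : ∀ x, e x < N) (vs : List (Vr L)) : Good N e (dx vs) := by
  intro d hd
  obtain ⟨x, -, rfl⟩ := List.mem_map.1 hd
  exact h x

theorem dvar_dx {vs : List (Vr L)} (h : DV vs) : Dvar (dx vs) := by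
  intro x hx
  obtain ⟨y, hy, hxy⟩ := List.mem_map.1 hx
  cases hxy
  exact h _ hy

theorem nv_lt (h : ∀ x, e x < N) (vs : List (Vr L)) : nv N e vs < N ^ vs.length := by
  rw [← radP_dx]
  exact num_lt (good_dx h vs)

theorem nv_cons (v : Vr L) (vs : List (Vr L)) :
    nv N e (v :: vs) = e v * N ^ vs.length + nv N e vs := by
  simp only [nv, dx, List.map_cons, num]
  rw [← dx, radP_dx]
  rfl

theorem nv_append (vs vs' : List (Vr L)) :
    nv N e (vs ++ vs') = nv N e vs * N ^ vs'.length + nv N e vs' := by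
  simp only [nv, dx, List.map_append]
  rw [num_append, ← dx, ← dx, radP_dx]

theorem nv_single (v : Vr L) : nv N e [v] = e v := by
  rw [nv_cons]; simp [nv, num]

theorem eval_zero {vs : List (Vr L)} (hd : DV vs) (h : ∀ x, e x < N) :
    (zeroT (dx vs) : Fml (Vr L) Unit).eval N a e = true ↔ nv N e vs = 0 :=
  eval_zeroT (dvar_dx hd) (good_dx h vs)

/-- Variables of a position: first digit, high part, middle part, last digit. -/
structure PosV (L : Type) where
  h : Vr L
  hi : List (Vr L)
  mid : List (Vr L)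
  l : Vr L

/-- All variables of a position. -/
def PosV.all (p : PosV L) : List (Vr L) := p.h :: (p.hi ++ (p.mid ++ [p.l]))

/-- The last digit is smaller than `N - 2`. -/
def smallF (l : Vr L) : Fml (Vr L) Unit :=
  .ex (zv 0) (.and (.lt l (zv 0)) (.ex (zv 1) (.lt (zv 0) (zv 1))))

/-- The input letter with this index is `b`. -/
def inpF (l : Vr L) (b : Bool) : Fml (Vr L) Unit :=
  if b then .arr () [l] else .not (.arr () [l])

/-- Formulas for the position predicates. -/
def gF (p : PosV L) : GW → Fml (Vr L) Unit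
  | .ptr => .and (maxD (.x p.h)) (zeroT (dx (p.hi ++ (p.mid ++ [p.l]))))
  | .bel => maxD (.x p.h)
  | .in0 => .and (maxD (.x p.h)) (.and (zeroT (dx (p.hi ++ p.mid)))
      (.and (smallF p.l) (inpF p.l false)))
  | .in1 => .and (maxD (.x p.h)) (.and (zeroT (dx (p.hi ++ p.mid)))
      (.and (smallF p.l) (inpF p.l true)))
  | .gue => .and (maxD (.x p.h)) (.and (zeroT (dx p.hi))
      (.not (.and (zeroT (dx p.mid)) (smallF p.l))))
  | .emp => .and (maxD (.x p.h)) (.not (zeroT (dx p.hi)))

theorem eval_smallF {l : Vr L} (hl : ∃ i, l = .inl i) :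
    (smallF l).eval N a e = true ↔ e l + 2 < N := by
  obtain ⟨i, rfl⟩ := hl
  rw [smallF, Fml.eval_ex]
  constructor
  · rintro ⟨t, ht, h⟩
    rw [Fml.eval_and, Fml.eval_lt, Fml.eval_ex] at h
    obtain ⟨h1, t', ht', h2⟩ := h
    rw [Fml.eval_lt] at h2
    simp at h1 h2
    omega
  · intro h
    refine ⟨e (.inl i) + 1, by omega, ?_⟩
    rw [Fml.eval_and, Fml.eval_lt, Fml.eval_ex]
    refine ⟨by simp, e (.inl i) + 2, by omega, ?_⟩
    rw [Fml.eval_lt]
    simp

theorem eval_inpF {l : Vr L} {b : Bool} : (inpF l b).eval N a e = true ↔ a () [e l] = b := by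
  cases b
  · simp [inpF, Fml.eval]
  · simp [inpF, Fml.eval]

/-- The start of the stacks. -/
def Pn (N D : ℕ) : ℕ := (N - 1) * N ^ (D - 1)

theorem eval_gF {p : PosV L} (hp : DV p.all) (h : ∀ x, e x < N) {x : List Bool}
    (hN : N = x.length + 2) (ha : ∀ t, t < N → a () [t] = (x ++ [true, true]).getD t false)
    (w : GW) :
    (gF p w).eval N a e = true ↔ Am (Pn N p.all.length)
      (Pn N p.all.length + N ^ (p.mid.length + 1)) x w (nv N e p.all) := by
  have hh := hp p.h (by simp [PosV.all])
  have hl := hp p.l (by simp [PosV.all])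
  have hhi : DV p.hi := fun y hy => hp y (by simp [PosV.all, hy])
  have hmid : DV p.mid := fun y hy => hp y (by simp [PosV.all, hy])
  have hR : DV (p.hi ++ (p.mid ++ [p.l])) := fun y hy => hp y (by
    simp only [PosV.all, List.mem_cons]; exact Or.inr hy)
  have hhm : DV (p.hi ++ p.mid) := fun y hy => by
    rcases List.mem_append.1 hy with hy | hy
    · exact hhi y hy
    · exact hmid y hy
  have hDh : Dvar [Dg.x p.h] := fun y hy => by
    simp only [List.mem_singleton, Dg.x.injEq] at hy
    rw [hy]; exact hh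
  have emax : (maxD (.x p.h) : Fml (Vr L) Unit).eval N a e = true ↔ e p.h + 1 = N := by
    rw [eval_maxD hDh (h _)]
    rfl
  set T := N ^ (p.hi ++ (p.mid ++ [p.l])).length with hT
  set R := nv N e (p.hi ++ (p.mid ++ [p.l])) with hRdef
  have hRT : R < T := nv_lt h _
  have hall : nv N e p.all = e p.h * T + R := by
    rw [PosV.all, nv_cons]
  have hPn : Pn N p.all.length = (N - 1) * T := by
    rw [Pn, PosV.all, List.length_cons, Nat.add_sub_cancel]
  set C := N ^ (p.mid.length + 1) with hC
  set lo := nv N e (p.mid ++ [p.l]) with hlo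
  have hloC : lo < C := by
    have := nv_lt h (p.mid ++ [p.l])
    simpa using this
  have hRlo : R = nv N e p.hi * C + lo := by
    rw [hRdef, nv_append]
    simp [hC, hlo]
  have hlo2 : lo = nv N e p.mid * N + e p.l := by
    rw [hlo, nv_append, nv_single]
    simp
  have hHN := h p.h
  have hlN := h p.l
  have hle : Pn N p.all.length ≤ nv N e p.all ↔ e p.h + 1 = N := by
    rw [hPn, hall]
    constructor
    · intro h1
      by_contra h2
      have h3 : (e p.h + 1) * T ≤ (N - 1) * T := Nat.mul_le_mul_right _ (by omega)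
      nlinarith
    · intro h1
      have : e p.h = N - 1 := by omega
      rw [this]; omega
  have hoff : e p.h + 1 = N → nv N e p.all = Pn N p.all.length + R := by
    intro h1
    rw [hPn, hall]
    have : e p.h = N - 1 := by omega
    rw [this]
  have hin : ∀ b : Bool, (Fml.and (maxD (.x p.h)) (.and (zeroT (dx (p.hi ++ p.mid)))
      (.and (smallF p.l) (inpF p.l b))) : Fml (Vr L) Unit).eval N a e = true ↔
      ∃ j, nv N e p.all = Pn N p.all.length + j ∧ x[j]? = some b := by
    intro b
    rw [Fml.eval_and, Fml.eval_and, Fml.eval_and, emax, eval_zero hhm h, eval_smallF hl,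
      eval_inpF, ha _ hlN]
    have hR2 : R = nv N e (p.hi ++ p.mid) * N + e p.l := by
      rw [hRdef, ← List.append_assoc, nv_append, nv_single]
      simp
    constructor
    · rintro ⟨h1, h2, h3, h4⟩
      refine ⟨R, hoff h1, ?_⟩
      rw [h2, Nat.zero_mul, Nat.zero_add] at hR2
      have h5 : R < x.length := by omega
      rw [← hR2, List.getD_append _ _ _ _ h5, List.getD_eq_getElem _ _ h5] at h4
      rw [List.getElem?_eq_getElem h5, h4]
    · rintro ⟨j, h1, h2⟩
      have h3 := hle.1 (by omega)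
      have h4 := hoff h3
      have h5 : R = j := by omega
      have h6 := (List.getElem?_eq_some_iff.1 h2).1
      have h7 : nv N e (p.hi ++ p.mid) = 0 := by
        by_contra h8
        have h9 : 1 * N ≤ nv N e (p.hi ++ p.mid) * N :=
          Nat.mul_le_mul_right _ (by omega)
        omega
      rw [h7, Nat.zero_mul, Nat.zero_add] at hR2
      refine ⟨h3, h7, by omega, ?_⟩
      rw [← hR2, h5, List.getD_append _ _ _ _ h6, List.getD_eq_getElem _ _ h6]
      exact (List.getElem?_eq_some_iff.1 h2).2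
  cases w with
  | ptr =>
    simp only [gF, Am]
    rw [Fml.eval_and, emax, eval_zero hR h, ← hRdef]
    constructor
    · rintro ⟨h1, h2⟩
      rw [hoff h1, h2, Nat.add_zero]
    · intro h1
      have h3 := hle.1 (by omega)
      have h4 := hoff h3
      exact ⟨h3, by omega⟩
  | bel =>
    simp only [gF, Am]
    rw [emax, hle]
  | in0 => exact hin false
  | in1 => exact hin true
  | gue =>
    simp only [gF, Am]
    rw [Fml.eval_and, Fml.eval_and, Fml.eval_not, Fml.eval_and, emax, eval_zero hhi h,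
      eval_zero hmid h, eval_smallF hl]
    constructor
    · rintro ⟨h1, h2, h3⟩
      rw [hoff h1]
      rw [h2, Nat.zero_mul, Nat.zero_add] at hRlo
      refine ⟨?_, by omega⟩
      by_cases h4 : nv N e p.mid = 0
      · have : ¬(e p.l + 2 < N) := fun h5 => h3 ⟨h4, h5⟩
        omega
      · have h9 : 1 * N ≤ nv N e p.mid * N := Nat.mul_le_mul_right _ (by omega)
        omega
    · rintro ⟨h1, h2⟩
      have h3 := hle.1 (by omega)
      have h4 := hoff h3
      have h5 : nv N e p.hi = 0 := by
        by_contra h8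
        have h9 : 1 * C ≤ nv N e p.hi * C := Nat.mul_le_mul_right _ (by omega)
        omega
      rw [h5, Nat.zero_mul, Nat.zero_add] at hRlo
      refine ⟨h3, h5, ?_⟩
      rintro ⟨h6, h7⟩
      rw [h6, Nat.zero_mul, Nat.zero_add] at hlo2
      omega
  | emp =>
    simp only [gF, Am]
    rw [Fml.eval_and, Fml.eval_not, emax, eval_zero hhi h]
    constructor
    · rintro ⟨h1, h2⟩
      rw [hoff h1]
      have h9 : 1 * C ≤ nv N e p.hi * C := Nat.mul_le_mul_right _ (by omega)
      omega
    · intro h1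
      have h3 := hle.1 (by omega)
      have h4 := hoff h3
      refine ⟨h3, fun h5 => ?_⟩
      rw [h5, Nat.zero_mul, Nat.zero_add] at hRlo
      omega

/-! ### Membership of literals in clauses -/

variable {K : Type} {Γ : K → Type} {S : Type}

/-- Whether a scheme applies. -/
def okF (c : Sc K Γ S) (tz : List (Vr L)) (p : PosV L) : Fml (Vr L) Unit :=
  .and (if c.lits.any (·.dt) then .not (maxT (dx tz)) else tt0)
    (.and (if c.lits.any (fun l => l.di = .succ) then .not (maxT (dx p.all)) else tt0)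
      (match c.g with
        | none => tt0
        | some w => .and (zeroT (dx tz)) (gF p w)))

/-- Condition for one literal. -/
def litF (l : Lt K Γ S) (tz : List (Vr L)) (p : PosV L) (tx ix : List (Vr L)) :
    Fml (Vr L) Unit :=
  .and (if l.dt then sucT (dx tz) (dx tx) else eqT (dx tz) (dx tx))
    (match l.di with
      | .zero => zeroT (dx ix)
      | .same => eqT (dx p.all) (dx ix)
      | .succ => sucT (dx p.all) (dx ix))

open Classical in
/-- Membership of a literal. -/
noncomputable def memF (q : Sc4 K Γ S) (tz : List (Vr L)) (p : PosV L) (v : VT K Γ S)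
    (tx ix : List (Vr L)) (b : Bool) : Fml (Vr L) Unit :=
  .or (.and (okF q.1 tz p) (Fml.disj ff0
      ((q.1.lits.filter fun l => l.v = v ∧ l.b = b).map fun l => litF l tz p tx ix)))
    (Fml.disj ff0 (([false, true].filter fun β => v = .dm β).map fun β =>
      .and (zeroT (dx tx)) (.and (zeroT (dx ix))
        (if b = sgn q β then tt0 else .not (okF q.1 tz p)))))

/-- Two disjoint lists of digit variables of the same length. -/
def Twin (vs vs' : List (Vr L)) : Prop :=
  vs.length = vs'.length ∧ DV vs ∧ DV vs' ∧ ∀ x ∈ vs, x ∉ vs'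

theorem Twin.sim {vs vs' : List (Vr L)} (h : Twin vs vs') :
    List.Forall₂ Sim (dx vs) (dx vs') := by
  obtain ⟨h1, h2, h3, h4⟩ := h
  induction vs generalizing vs' with
  | nil =>
    cases vs' with
    | nil => exact .nil
    | cons => simp at h1
  | cons v vs ih =>
    cases vs' with
    | nil => simp at h1
    | cons v' vs' =>
      refine .cons ⟨h2 v (by simp), h3 v' (by simp), fun h => ?_⟩
        (ih (by simpa using h1) (fun x hx => h2 x (by simp [hx]))
          (fun x hx => h3 x (by simp [hx])) fun x hx hx' => h4 x (by simp [hx]) (by simp [hx']))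
      exact h4 v (by simp) (by simp [h])

theorem Twin.eval_eq {vs vs' : List (Vr L)} (h : Twin vs vs') (he : ∀ x, e x < N) :
    (eqT (dx vs) (dx vs') : Fml (Vr L) Unit).eval N a e = true ↔ nv N e vs = nv N e vs' :=
  (eval_eqT h.sim (good_dx he vs) (good_dx he vs')).1

theorem Twin.eval_suc {vs vs' : List (Vr L)} (h : Twin vs vs') (he : ∀ x, e x < N) :
    (sucT (dx vs) (dx vs') : Fml (Vr L) Unit).eval N a e = true ↔
      nv N e vs + 1 = nv N e vs' :=
  eval_sucT h.sim (dvar_dx h.2.1) (dvar_dx h.2.2.1) (good_dx he vs) (good_dx he vs')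

theorem eval_max {vs : List (Vr L)} (hd : DV vs) (h : ∀ x, e x < N) :
    (maxT (dx vs) : Fml (Vr L) Unit).eval N a e = true ↔ nv N e vs + 1 = N ^ vs.length := by
  rw [eval_maxT (dvar_dx hd) (good_dx h vs), radP_dx]
  rfl

theorem eval_ff0 : (ff0 : Fml (Vr L) Unit).eval N a e = false := by
  simp [ff0, Fml.eval, eval_tt0]

section Sem

variable {x : List Bool} (hN : N = x.length + 2)
  (ha : ∀ t, t < N → a () [t] = (x ++ [true, true]).getD t false) (he : ∀ x, e x < N)
  {tz tx ix : List (Vr L)} {p : PosV L} {D : ℕ} (htz : tz.length = D) (hp : p.all.length = D)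
  (dtz : DV tz) (dp : DV p.all)

include hN ha he htz hp dtz dp

theorem eval_okF (c : Sc K Γ S) : (okF c tz p).eval N a e = true ↔
    c.ok (N ^ D) (Am (Pn N D) (Pn N D + N ^ (p.mid.length + 1)) x) (nv N e tz)
      (nv N e p.all) := by
  have h1 := nv_lt he tz
  have h2 := nv_lt he p.all
  rw [htz] at h1
  rw [hp] at h2
  have hm1 := eval_max (a := a) dtz he
  have hm2 := eval_max (a := a) dp he
  rw [htz] at hm1
  rw [hp] at hm2
  rw [okF, Fml.eval_and, Fml.eval_and, Sc.ok]
  refine and_congr ?_ (and_congr ?_ ?_)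
  · by_cases h : c.lits.any (·.dt) = true
    · rw [if_pos h, Fml.eval_not, hm1]
      constructor
      · intro h3 _; omega
      · intro h3; have := h3 h; omega
    · rw [if_neg h]
      simp only [eval_tt0, true_iff]
      intro h3
      exact absurd h3 h
  · by_cases h : c.lits.any (fun l => l.di = .succ) = true
    · rw [if_pos h, Fml.eval_not, hm2]
      constructor
      · intro h3 _; omega
      · intro h3; have := h3 h; omega
    · rw [if_neg h]
      simp only [eval_tt0, true_iff]
      intro h3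
      exact absurd h3 h
  · cases hg : c.g with
    | none => simp [eval_tt0]
    | some w =>
      simp only [Option.some.injEq, forall_eq']
      rw [Fml.eval_and, eval_zero dtz he, eval_gF dp he hN ha, hp]

theorem eval_litF (l : Lt K Γ S) (h1 : Twin tz tx) (h2 : Twin p.all ix) :
    (litF l tz p tx ix).eval N a e = true ↔
      nv N e tx = nv N e tz + l.dt.toNat ∧ nv N e ix = l.di.at (nv N e p.all) := by
  rw [litF, Fml.eval_and]
  refine and_congr ?_ ?_
  · cases l.dt
    · simp only [Bool.false_eq_true, if_false, Bool.toNat_false, Nat.add_zero]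
      rw [h1.eval_eq he]
      exact eq_comm
    · simp only [if_true, Bool.toNat_true]
      rw [h1.eval_suc he]
      exact eq_comm
  · cases l.di
    · simp only [Sh.at]
      exact eval_zero h2.2.2.1 he
    · simp only [Sh.at]
      rw [h2.eval_eq he]
      exact eq_comm
    · simp only [Sh.at]
      rw [h2.eval_suc he]
      exact eq_comm

theorem eval_memF (q : Sc4 K Γ S) (v : VT K Γ S) (b : Bool) (h1 : Twin tz tx)
    (h2 : Twin p.all ix) :
    (memF q tz p v tx ix b).eval N a e = true ↔
      Mem (N ^ D) (Am (Pn N D) (Pn N D + N ^ (p.mid.length + 1)) x) q (nv N e tz)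
        (nv N e p.all) v (nv N e tx) (nv N e ix) b := by
  classical
  rw [memF, Fml.eval_or, Fml.eval_and, Mem, eval_okF hN ha he htz hp dtz dp]
  refine or_congr (and_congr Iff.rfl ?_) ?_
  · rw [Fml.eval_disj]
    simp only [eval_ff0, Bool.false_eq_true, or_false, List.mem_map, List.mem_filter,
      decide_eq_true_eq]
    constructor
    · rintro ⟨_, ⟨l, ⟨hl, hv, hb⟩, rfl⟩, h⟩
      rw [eval_litF hN ha he htz hp dtz dp l h1 h2] at h
      exact ⟨l, hl, hv, hb, h⟩
    · rintro ⟨l, hl, hv, hb, h⟩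
      refine ⟨_, ⟨l, ⟨hl, hv, hb⟩, rfl⟩, ?_⟩
      rw [eval_litF hN ha he htz hp dtz dp l h1 h2]
      exact h
  · rw [Fml.eval_disj]
    simp only [eval_ff0, Bool.false_eq_true, or_false, List.mem_map, List.mem_filter,
      decide_eq_true_eq]
    have hlast : ∀ β : Bool, (if b = sgn q β then (tt0 : Fml (Vr L) Unit)
        else .not (okF q.1 tz p)).eval N a e = true ↔
        (¬q.1.ok (N ^ D) (Am (Pn N D) (Pn N D + N ^ (p.mid.length + 1)) x) (nv N e tz)
          (nv N e p.all) ∨ b = sgn q β) := by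
      intro β
      by_cases hb : b = sgn q β
      · rw [if_pos hb]
        simp [eval_tt0, hb]
      · rw [if_neg hb, Fml.eval_not, eval_okF hN ha he htz hp dtz dp]
        simp [hb]
    constructor
    · rintro ⟨_, ⟨β, ⟨-, hv⟩, rfl⟩, h⟩
      rw [Fml.eval_and, Fml.eval_and, eval_zero h1.2.2.1 he, eval_zero h2.2.2.1 he,
        hlast] at h
      exact ⟨β, hv, h⟩
    · rintro ⟨β, hv, h⟩
      refine ⟨_, ⟨β, ⟨?_, hv⟩, rfl⟩, ?_⟩
      · cases β <;> simp
      · rw [Fml.eval_and, Fml.eval_and, eval_zero h1.2.2.1 he, eval_zero h2.2.2.1 he,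
          hlast]
        exact h

end Sem

/-! ### Well-formedness -/

section Wf

variable {F : List (Vr L)}

/-- All arrays are one-dimensional. -/
abbrev ar1 : Unit → ℕ := fun _ => 1

theorem inS_dx {vs : List (Vr L)} (h : ∀ x ∈ vs, x ∈ F) : InS F (dx vs) := by
  intro x hx
  obtain ⟨y, hy, hxy⟩ := List.mem_map.1 hx
  cases hxy
  exact h _ hy

theorem wf_smallF (hF : Scope F) {l : Vr L} (hl : l ∈ F) : (smallF l).wf ar1 F = true := by
  simp only [smallF, Fml.wf, Bool.and_eq_true, decide_eq_true_eq]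
  refine ⟨hF 0, wf_lt (by simp [hl]) (by simp) (zv_ne hF hl).symm, ?_, ?_⟩
  · simp only [List.mem_cons, not_or]
    exact ⟨by simp, hF 1⟩
  · exact wf_lt (by simp) (by simp) (by simp)

theorem wf_inpF {l : Vr L} (hl : l ∈ F) (b : Bool) : (inpF l b).wf ar1 F = true := by
  cases b <;> simp [inpF, Fml.wf, hl]

theorem wf_gF (hF : Scope F) {p : PosV L} (hp : ∀ x ∈ p.all, x ∈ F) (w : GW) :
    (gF p w).wf ar1 F = true := by
  have hh : InS F [Dg.x p.h] := fun x hx => by
    simp only [List.mem_singleton, Dg.x.injEq] at hx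
    rw [hx]
    exact hp _ (by simp [PosV.all])
  have hl : p.l ∈ F := hp _ (by simp [PosV.all])
  have hhi : InS F (dx p.hi) := inS_dx fun x hx => hp x (by simp [PosV.all, hx])
  have hmid : InS F (dx p.mid) := inS_dx fun x hx => hp x (by simp [PosV.all, hx])
  have hhm : InS F (dx (p.hi ++ p.mid)) := inS_dx fun x hx => hp x (by
    rcases List.mem_append.1 hx with hx | hx <;> simp [PosV.all, hx])
  have hr : InS F (dx (p.hi ++ (p.mid ++ [p.l]))) := inS_dx fun x hx => hp x (by
    simp only [PosV.all, List.mem_cons]; exact Or.inr hx)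
  cases w with
  | ptr => exact wf_and (wf_maxD hF hh) (wf_zeroT hF hr)
  | bel => exact wf_maxD hF hh
  | in0 => exact wf_and (wf_maxD hF hh) (wf_and (wf_zeroT hF hhm)
      (wf_and (wf_smallF hF hl) (wf_inpF hl _)))
  | in1 => exact wf_and (wf_maxD hF hh) (wf_and (wf_zeroT hF hhm)
      (wf_and (wf_smallF hF hl) (wf_inpF hl _)))
  | gue => exact wf_and (wf_maxD hF hh) (wf_and (wf_zeroT hF hhi)
      (wf_not (wf_and (wf_zeroT hF hmid) (wf_smallF hF hl))))
  | emp => exact wf_and (wf_maxD hF hh) (wf_not (wf_zeroT hF hhi))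

theorem wf_okF (hF : Scope F) {p : PosV L} (hp : ∀ x ∈ p.all, x ∈ F) {tz : List (Vr L)}
    (htz : ∀ x ∈ tz, x ∈ F) (c : Sc K Γ S) : (okF c tz p).wf ar1 F = true := by
  refine wf_and ?_ (wf_and ?_ ?_)
  · split
    · exact wf_not (wf_maxT hF (inS_dx htz))
    · exact wf_tt0 hF
  · split
    · exact wf_not (wf_maxT hF (inS_dx hp))
    · exact wf_tt0 hF
  · split
    · exact wf_tt0 hF
    · exact wf_and (wf_zeroT hF (inS_dx htz)) (wf_gF hF hp _)

theorem wf_litF (hF : Scope F) {p : PosV L} (hp : ∀ x ∈ p.all, x ∈ F)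
    {tz tx ix : List (Vr L)} (htz : ∀ x ∈ tz, x ∈ F) (htx : ∀ x ∈ tx, x ∈ F)
    (hix : ∀ x ∈ ix, x ∈ F) (h1 : Twin tz tx) (h2 : Twin p.all ix) (l : Lt K Γ S) :
    (litF l tz p tx ix).wf ar1 F = true := by
  refine wf_and ?_ ?_
  · split
    · exact wf_sucT hF h1.sim (inS_dx htz) (inS_dx htx)
    · exact wf_eqT hF h1.sim (inS_dx htz) (inS_dx htx)
  · split
    · exact wf_zeroT hF (inS_dx hix)
    · exact wf_eqT hF h2.sim (inS_dx hp) (inS_dx hix)
    · exact wf_sucT hF h2.sim (inS_dx hp) (inS_dx hix)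

theorem wf_memF (hF : Scope F) {p : PosV L} (hp : ∀ x ∈ p.all, x ∈ F)
    {tz tx ix : List (Vr L)} (htz : ∀ x ∈ tz, x ∈ F) (htx : ∀ x ∈ tx, x ∈ F)
    (hix : ∀ x ∈ ix, x ∈ F) (h1 : Twin tz tx) (h2 : Twin p.all ix) (q : Sc4 K Γ S)
    (v : VT K Γ S) (b : Bool) : (memF q tz p v tx ix b).wf ar1 F = true := by
  classical
  refine wf_or (wf_and (wf_okF hF hp htz _) (wf_disj (wf_ff0 hF) _ fun φ hφ => ?_))
    (wf_disj (wf_ff0 hF) _ fun φ hφ => ?_)
  · obtain ⟨l, -, rfl⟩ := List.mem_map.1 hφ
    exact wf_litF hF hp htz htx hix h1 h2 l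
  · obtain ⟨β, -, rfl⟩ := List.mem_map.1 hφ
    refine wf_and (wf_zeroT hF (inS_dx htx)) (wf_and (wf_zeroT hF (inS_dx hix)) ?_)
    split
    · exact wf_tt0 hF
    · exact wf_not (wf_okF hF hp htz _)

end Wf

end Pool.Agent.Lib.MP_75fd85_lc
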