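import Pool.Agent.Lib.MP_75fd85_lc.Defs

/-! # Invariance under isomorphism -/

namespace Pool.Agent.Lib.MP_75fd85_lc

variable {V W : Type} {G : SimpleGraph V} {H : SimpleGraph W}

/-- Unordered pairs of equivalent types. -/
def sym2Equiv (e : V ≃ W) : Sym2 V ≃ Sym2 W where
  toFun := Sym2.map e
  invFun := Sym2.map e.symm
  left_inv x := by
    induction x using Sym2.ind with
    | _ a b => simp
  right_inv x := by
    induction x using Sym2.ind with
    | _ a b => simp

/-- Isomorphism of induced subgraphs. -/
def isoInduce (φ : G ≃g H) (s : Set V) (t : Set W) (h : ∀ x, x ∈ s ↔ φ x ∈ t) :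
    G.induce s ≃g H.induce t where
  toEquiv := φ.toEquiv.subtypeEquiv h
  map_rel_iff' := by
    intro a b
    exact φ.map_rel_iff

theorem ThreeConnected.iso [Fintype V] [Fintype W] (φ : G ≃g H) (h : ThreeConnected H) :
    ThreeConnected G := by
  classical
  refine ⟨by rw [Fintype.card_congr φ.toEquiv]; exact h.1, fun X hX => ?_⟩
  have h2 := h.2 (X.map φ.toEquiv.toEmbedding) (by rwa [Finset.card_map])
  refine ((isoInduce φ {v | v ∉ X} {v | v ∉ X.map φ.toEquiv.toEmbedding} ?_).connected_iff).2 h2
  intro x
  simp only [Set.mem_ofPred_eq, Finset.mem_map, not_iff_not]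
  constructor
  · intro hx
    exact ⟨x, hx, rfl⟩
  · rintro ⟨y, hy, hyx⟩
    have : y = x := φ.toEquiv.injective hyx
    rwa [← this]

theorem card_bridge (φ : G ≃g H) {v : V} (p : G.Walk v v) :
    Nat.card (Bridge G p) = Nat.card (Bridge H (p.map φ.toHom)) := by
  have hinj : Function.Injective φ.toHom := φ.toEquiv.injective
  have hs : ∀ x, x ∈ p.support ↔ φ x ∈ (p.map φ.toHom).support := by
    intro x
    rw [SimpleGraph.Walk.support_map, List.mem_map]
    constructor
    · intro hx
      exact ⟨x, hx, rfl⟩
    · rintro ⟨y, hy, hyx⟩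
      have : y = x := hinj hyx
      rwa [← this]
  refine Nat.card_congr (Equiv.sumCongr ?_ ?_)
  · refine (sym2Equiv φ.toEquiv).subtypeEquiv fun e => ?_
    refine and_congr ?_ (and_congr ?_ ?_)
    · induction e using Sym2.ind with
      | _ x y =>
        change G.Adj x y ↔ H.Adj (φ x) (φ y)
        exact φ.map_rel_iff.symm
    · rw [not_iff_not, SimpleGraph.Walk.edges_map, List.mem_map]
      constructor
      · intro he
        exact ⟨e, he, rfl⟩
      · rintro ⟨e', he', h⟩
        have : e' = e := (Sym2.map.injective hinj) h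
        rwa [← this]
    · induction e using Sym2.ind with
      | _ x y =>
        change (∀ z ∈ s(x, y), z ∈ p.support) ↔
          ∀ z ∈ s(φ x, φ y), z ∈ (p.map φ.toHom).support
        simp only [Sym2.mem_iff, forall_eq_or_imp, forall_eq]
        rw [hs x, hs y]
  · refine (isoInduce φ {x | x ∉ p.support} {x | x ∉ (p.map φ.toHom).support}
      ?_).connectedComponentEquiv
    intro x
    simp only [Set.mem_ofPred_eq, not_iff_not]
    exact hs x

theorem InducedNonseparating.iso (φ : G ≃g H) {v : V} {p : G.Walk v v}
    (h : InducedNonseparating G p) : InducedNonseparating H (p.map φ.toHom) := by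
  refine ⟨?_, ?_⟩
  · rw [SimpleGraph.Walk.isCycle_map_iff_of_injective φ.toEquiv.injective]
    exact h.1
  · rw [← card_bridge]
    exact h.2

end Pool.Agent.Lib.MP_75fd85_lc
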