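import Pool.Agent.Lib.MP_75fd85_lc.Conn

/-!
# Walks in the SAT graph: lower bounds
-/

namespace Pool.Agent.Lib.MP_75fd85_lc

open Vert SimpleGraph

variable {n m K : ℕ} {cl : Fin m → Finset (Fin n × Bool)}

/-- Removing the edge `uw` from a cycle leaves a path from `u` to `w`. -/
theorem exists_path_of_cycle {V : Type} [DecidableEq V] {G : SimpleGraph V} {u w v : V}
    (p : G.Walk v v) (hp : p.IsCycle) (he : s(u, w) ∈ p.edges) :
    ∃ P : G.Walk u w, P.IsPath ∧ s(u, w) ∉ P.edges ∧ P.length + 1 = p.length ∧
      ∀ x, x ∈ P.support ↔ x ∈ p.support := by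
  have hu : u ∈ p.support := p.fst_mem_support_of_mem_edges he
  have key : ∀ q : G.Walk u u, q.IsCycle → q.snd = w → ∃ P : G.Walk u w, P.IsPath ∧
      s(u, w) ∉ P.edges ∧ P.length + 1 = q.length ∧ ∀ x, x ∈ P.support ↔ x ∈ q.support := by
    intro q hq hs
    cases q with
    | nil => exact absurd hq (by simp)
    | cons h q' =>
      rw [Walk.snd_cons] at hs
      subst hs
      rw [Walk.cons_isCycle_iff] at hq
      refine ⟨q'.reverse, hq.1.reverse, by simpa using hq.2, by simp, fun x => ?_⟩
      rw [Walk.support_reverse, List.mem_reverse, Walk.support_cons, List.mem_cons]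
      constructor
      · exact fun hx => Or.inr hx
      · rintro (rfl | hx)
        · exact q'.end_mem_support
        · exact hx
  set q := p.rotate u hu with hq
  have hqc : q.IsCycle := hp.rotate hu
  have hqe : s(u, w) ∈ q.edges := by
    rw [hq, (p.rotate_edges u hu).mem_iff]
    exact he
  have hql : q.length = p.length := by rw [hq, Walk.length_rotate]
  have hqs : ∀ x, x ∈ q.support ↔ x ∈ p.support := fun x => by
    rw [hq, Walk.mem_support_rotate_iff]
  have hn : w ∈ q.toSubgraph.neighborSet u := by
    rw [Subgraph.mem_neighborSet, ← Subgraph.mem_edgeSet, Walk.mem_edges_toSubgraph]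
    exact hqe
  rw [hqc.neighborSet_toSubgraph_endpoint] at hn
  rcases hn with hn | hn
  · obtain ⟨P, h1, h2, h3, h4⟩ := key q hqc hn.symm
    exact ⟨P, h1, h2, by rw [h3, hql], fun x => (h4 x).trans (hqs x)⟩
  · obtain ⟨P, h1, h2, h3, h4⟩ := key q.reverse hqc.reverse (by
      rw [Walk.snd_reverse]; exact hn.symm)
    refine ⟨P, h1, h2, by rw [h3, Walk.length_reverse, hql], fun x => (h4 x).trans ?_⟩
    rw [Walk.support_reverse, List.mem_reverse]
    exact hqs x

/-- Height function: `2i` on `s i`, `2k+1` on the literals of variable `k`, `⌊t/K⌋` on layer `t`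
of the blobs. -/
def height : Vert n m K → ℕ
  | .s i => 2 * i.val
  | .lit k _ => 2 * k.val + 1
  | .blob _ t _ => t.val / K

theorem height_adj (hK : 1 ≤ K) {x y : Vert n m K} (h : (satGraph K cl).Adj x y)
    (hne : s(x, y) ≠ s(s 0, s (Fin.last n))) : height y ≤ height x + 1 := by
  have hdiv : ∀ t t' : ℕ, t' ≤ t + 1 → t' / K ≤ t / K + 1 := by
    intro t t' htt
    calc t' / K ≤ (t + K) / K := Nat.div_le_div_right (by omega)
      _ = t / K + 1 := Nat.add_div_right _ (by omega)
  have hpos : ∀ (k : Fin n) (b : Bool), pos K k b / K = 2 * k.val + b.toNat := by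
    intro k b
    unfold pos
    exact Nat.mul_div_cancel _ (by omega)
  rcases x with i | ⟨k, b⟩ | ⟨j, t, a⟩ <;> rcases y with i' | ⟨k', b'⟩ | ⟨j', t', a'⟩
  · exfalso
    rw [adj_s_s] at h
    apply hne
    rcases h.2 with ⟨h1, h2⟩ | ⟨h1, h2⟩
    · have e1 : i = 0 := Fin.ext h1
      have e2 : i' = Fin.last n := Fin.ext h2
      rw [e1, e2]
    · have e1 : i' = 0 := Fin.ext h1
      have e2 : i = Fin.last n := Fin.ext h2
      rw [e1, e2, Sym2.eq_swap]
  · rw [adj_s_lit] at h
    simp only [height]; omega
  · exact absurd h (adj_s_blob _ _ _ _)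
  · rw [adj_lit_s] at h
    simp only [height]; omega
  · exact absurd h (adj_lit_lit _ _ _ _)
  · rw [adj_lit_blob] at h
    simp only [height]
    rw [h.1, hpos]
    have := Bool.toNat_le b
    omega
  · exact absurd h (adj_blob_s _ _ _ _)
  · rw [adj_blob_lit] at h
    simp only [height]
    rw [h.1, hpos]
    omega
  · rw [adj_blob_blob] at h
    simp only [height]
    exact hdiv _ _ h.2.2

theorem height_walk (hK : 1 ≤ K) {x y : Vert n m K} (p : (satGraph K cl).Walk x y)
    (he : s(s 0, s (Fin.last n)) ∉ p.edges) : height y ≤ height x + p.length := by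
  induction p with
  | nil => simp
  | cons h p ih =>
    rw [Walk.edges_cons, List.mem_cons, not_or] at he
    have h1 := ih he.2
    have h2 := height_adj hK h (fun h => he.1 h.symm)
    rw [Walk.length_cons]
    omega

theorem length_ge (hK : 1 ≤ K) (P : (satGraph K cl).Walk (s 0) (s (Fin.last n)))
    (he : s(s 0, s (Fin.last n)) ∉ P.edges) : 2 * n ≤ P.length := by
  have := height_walk hK P he
  simpa [height] using this

/-- A walk leaving a blob without using the literal vertex `lit k b` is long if it starts near the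
layer of `(k, b)`. -/
theorem leave_blob (hK : 1 ≤ K) (k : Fin n) (b : Bool) (j : Option (Fin m)) {x z : Vert n m K}
    (p : (satGraph K cl).Walk x z) (hz : ∀ t a, z ≠ blob j t a) (hl : lit k b ∉ p.support) :
    ∀ t a, x = blob j t a →
      K + 1 ≤ p.length + (t.val - pos K k b) + (pos K k b - t.val) := by
  induction p with
  | nil => intro t a hx; exact absurd hx (hz t a)
  | @cons x y z h p ih =>
    intro t a hx
    subst hx
    rw [Walk.support_cons, List.mem_cons, not_or] at hl
    rw [Walk.length_cons]
    rcases y with i | ⟨k', b'⟩ | ⟨j', t', a'⟩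
    · exact absurd h (adj_blob_s _ _ _ _)
    · rw [adj_blob_lit] at h
      have hne : ¬ (k' = k ∧ b' = b) := by
        rintro ⟨rfl, rfl⟩
        exact hl.2 p.start_mem_support
      have hidx : 2 * k'.val + b'.toNat ≠ 2 * k.val + b.toNat := by
        intro heq
        apply hne
        have hb' : b'.toNat ≤ 1 := Bool.toNat_le b'
        have hb : b.toNat ≤ 1 := Bool.toNat_le b
        have h1 : k'.val = k.val := by omega
        have h2 : b'.toNat = b.toNat := by omega
        refine ⟨Fin.ext h1, ?_⟩
        cases b <;> cases b' <;> simp_all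
      rw [h.1]
      unfold pos
      rcases lt_or_gt_of_ne hidx with hlt | hgt
      · obtain ⟨d, hd⟩ := Nat.exists_eq_add_of_lt hlt
        rw [hd]
        have : (2 * k'.val + b'.toNat + d + 1) * K =
            (2 * k'.val + b'.toNat) * K + d * K + K := by ring
        rw [this]
        have : 0 ≤ d * K := Nat.zero_le _
        omega
      · obtain ⟨d, hd⟩ := Nat.exists_eq_add_of_lt hgt
        rw [hd]
        have : (2 * k.val + b.toNat + d + 1) * K =
            (2 * k.val + b.toNat) * K + d * K + K := by ring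
        rw [this]
        have : 0 ≤ d * K := Nat.zero_le _
        omega
    · rw [adj_blob_blob] at h
      obtain ⟨⟨rfl, _⟩, h1, h2⟩ := h
      have := ih hz hl.2 t' a' rfl
      omega

/-- A path between two vertices outside the blobs that enters a blob is long. -/
theorem path_blob (hK : 1 ≤ K) {x z : Vert n m K} (p : (satGraph K cl).Walk x z)
    (hp : p.IsPath) (hx : ∀ j t a, x ≠ blob j t a) (hz : ∀ j t a, z ≠ blob j t a)
    (hb : ∃ j t a, blob j t a ∈ p.support) : K + 2 ≤ p.length := by
  induction p with
  | nil =>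
    obtain ⟨j, t, a, h⟩ := hb
    rw [Walk.support_nil, List.mem_singleton] at h
    exact absurd h.symm (hx j t a)
  | @cons x y z h p ih =>
    rw [Walk.cons_isPath_iff] at hp
    rw [Walk.length_cons]
    by_cases hy : ∀ j t a, y ≠ blob j t a
    · obtain ⟨j, t, a, h'⟩ := hb
      rw [Walk.support_cons, List.mem_cons] at h'
      rcases h' with h' | h'
      · exact absurd h'.symm (hx j t a)
      · have := ih hp.1 hy hz ⟨j, t, a, h'⟩
        omega
    · push Not at hy
      obtain ⟨j, t, a, rfl⟩ := hy
      rcases x with i | ⟨k, b⟩ | ⟨j', t', a'⟩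
      · exact absurd h (adj_s_blob _ _ _ _)
      · rw [adj_lit_blob] at h
        have := leave_blob hK k b j p (fun t a => hz j t a) hp.2 t a rfl
        rw [h.1] at this
        omega
      · exact absurd rfl (hx j' t' a')

/-- A walk to `s n` from the left of variable `k`, avoiding the blobs and the edge `e`, passes
through a literal vertex of variable `k`. -/
theorem cut_lit (k : Fin n) {x z : Vert n m K} (p : (satGraph K cl).Walk x z)
    (hz : z = s (Fin.last n)) (he : s(s 0, s (Fin.last n)) ∉ p.edges)
    (hb : ∀ j t a, blob j t a ∉ p.support)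
    (hx : (∃ i : Fin (n + 1), i.val ≤ k.val ∧ x = s i) ∨
      (∃ (k' : Fin n) (b : Bool), k'.val < k.val ∧ x = lit k' b)) :
    ∃ b, lit k b ∈ p.support := by
  induction p with
  | nil =>
    subst hz
    rcases hx with ⟨i, hi, hx⟩ | ⟨k', b, _, hx⟩
    · rw [s.injEq] at hx
      have := k.isLt
      rw [← hx, Fin.val_last] at hi
      omega
    · simp at hx
  | @cons x y z h p ih =>
    rw [Walk.edges_cons, List.mem_cons, not_or] at he
    rw [Walk.support_cons]
    have hb' : ∀ j t a, blob j t a ∉ p.support := fun j t a h' => hb j t a (by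
      rw [Walk.support_cons]; exact List.mem_cons_of_mem _ h')
    have hfin : (∃ b, lit k b ∈ p.support) → ∃ b, lit k b ∈ x :: p.support := fun ⟨b, hb⟩ =>
      ⟨b, List.mem_cons_of_mem _ hb⟩
    rcases y with i' | ⟨k', b'⟩ | ⟨j', t', a'⟩
    · rcases hx with ⟨i, hi, rfl⟩ | ⟨k', b, hk', rfl⟩
      · exfalso
        apply he.1
        rw [adj_s_s] at h
        rcases h.2 with ⟨h1, h2⟩ | ⟨h1, h2⟩
        · have e1 : i = 0 := Fin.ext h1
          have e2 : i' = Fin.last n := Fin.ext h2
          rw [e1, e2]
        · have e1 : i' = 0 := Fin.ext h1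
          have e2 : i = Fin.last n := Fin.ext h2
          rw [e1, e2, Sym2.eq_swap]
      · rw [adj_lit_s] at h
        exact hfin (ih hz he.2 hb' (Or.inl ⟨i', by omega, rfl⟩))
    · rcases hx with ⟨i, hi, rfl⟩ | ⟨k'', b, hk', rfl⟩
      · rw [adj_s_lit] at h
        by_cases hkk : k' = k
        · subst hkk
          exact ⟨b', List.mem_cons_of_mem _ p.start_mem_support⟩
        · have : k'.val ≠ k.val := fun h => hkk (Fin.ext h)
          exact hfin (ih hz he.2 hb' (Or.inr ⟨k', b', by omega, rfl⟩))
      · exact absurd h (adj_lit_lit _ _ _ _)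
    · exact absurd p.start_mem_support (hb' _ _ _)

end Pool.Agent.Lib.MP_75fd85_lc
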