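import Pool.Agent.Lib.MP_75fd85_lc.Three
import Pool.Agent.Lib.MP_75fd85_lc.Walks

/-!
# Short induced nonseparating cycles correspond to satisfying assignments
-/

namespace Pool.Agent.Lib.MP_75fd85_lc

open Vert SimpleGraph

variable {n m K : ℕ} {cl : Fin m → Finset (Fin n × Bool)}

/-- Within the complement of a set `S` of vertices free of blob vertices, a connection from a
clause blob to the blob `none` passes through a literal vertex of the clause. -/
theorem exists_lit (S : Set (Vert n m K)) (c : Fin m) {x y : {v | v ∈ S}}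
    (p : ((satGraph K cl).induce {v | v ∈ S}).Walk x y)
    (hx : ∃ t a, x.1 = blob (some c) t a) (hy : ∀ t a, y.1 ≠ blob (some c) t a) :
    ∃ k b, (k, b) ∈ cl c ∧ lit k b ∈ S := by
  induction p with
  | nil =>
    obtain ⟨t, a, h⟩ := hx
    exact absurd h (hy t a)
  | @cons x y z h p ih =>
    obtain ⟨t, a, hx⟩ := hx
    rw [SimpleGraph.comap_adj] at h
    have h' : (satGraph K cl).Adj x.1 y.1 := h
    rw [hx] at h'
    obtain ⟨y, hyS⟩ := y
    rcases y with i | ⟨k, b⟩ | ⟨j', t', a'⟩
    · exact absurd h' (adj_blob_s _ _ _ _)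
    · have h2 := (adj_blob_lit _ _ _ _ _).mp h'
      exact ⟨k, b, h2.2 c rfl, hyS⟩
    · have h2 := (adj_blob_blob _ _ _ _ _ _).mp h'
      obtain ⟨⟨rfl, _⟩, _⟩ := h2
      exact ih ⟨t', a', rfl⟩ hy

theorem sat_of_short (hn : 1 ≤ n) (hK : 1 ≤ K) {v : Vert n m K}
    (p : (satGraph K cl).Walk v v) (hp : InducedNonseparating (satGraph K cl) p)
    (he : s(s 0, s (Fin.last n)) ∈ p.edges) (hlen : p.length < K + 3) : Satisfiable cl := by
  obtain ⟨P, hP, heP, hPl, hPs⟩ := exists_path_of_cycle p hp.1 he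
  have hpos : 0 < 2 * n * K := by positivity
  have hnb : ∀ j t a, blob j t a ∉ P.support := by
    intro j t a h
    have := path_blob hK P hP (by simp) (by simp) ⟨j, t, a, h⟩
    omega
  have hcut : ∀ k, ∃ b, lit k b ∈ P.support := fun k =>
    cut_lit k P rfl heP hnb (Or.inl ⟨0, by simp, rfl⟩)
  refine ⟨fun k => decide (lit k true ∉ p.support), fun c => ?_⟩
  -- the complement is connected
  have hsub := (Nat.card_eq_one_iff_unique.mp hp.2).1
  have hx1 : (blob (some c) ⟨0, hpos⟩ 0 : Vert n m K) ∈ {x | x ∉ p.support} := fun h =>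
    hnb _ _ _ ((hPs _).mpr h)
  have hx2 : (blob none ⟨0, hpos⟩ 0 : Vert n m K) ∈ {x | x ∉ p.support} := fun h =>
    hnb _ _ _ ((hPs _).mpr h)
  have hreach : ((satGraph K cl).induce {x | x ∉ p.support}).Reachable ⟨_, hx1⟩ ⟨_, hx2⟩ := by
    have h1 : (Sum.inr (((satGraph K cl).induce {x | x ∉ p.support}).connectedComponentMk
        ⟨_, hx1⟩) : Bridge (satGraph K cl) p) =
        Sum.inr (((satGraph K cl).induce {x | x ∉ p.support}).connectedComponentMk ⟨_, hx2⟩) :=
      hsub.elim _ _
    exact SimpleGraph.ConnectedComponent.exact (Sum.inr_injective h1)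
  obtain ⟨w⟩ := hreach
  obtain ⟨k, b, hkb, hS⟩ := exists_lit {x | x ∉ p.support} c w ⟨_, _, rfl⟩ (by simp)
  refine ⟨(k, b), hkb, ?_⟩
  cases b with
  | true => simpa using hS
  | false =>
    have hS' : lit k false ∉ p.support := hS
    obtain ⟨b', hb'⟩ := hcut k
    rw [hPs] at hb'
    cases b' with
    | true => simpa using hb'
    | false => exact absurd hb' hS'

/-- The path of the chain through the false literals. -/
theorem exists_chain (τ : Fin n → Bool) : ∀ (d : ℕ) (i : Fin (n + 1)), i.val + d = n →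
    ∃ w : (satGraph K cl).Walk (s i) (s (Fin.last n)), w.IsPath ∧ w.length = 2 * d ∧
      (∀ v, v ∈ w.support ↔ (∃ i' : Fin (n + 1), i.val ≤ i'.val ∧ v = s i') ∨
        (∃ k : Fin n, i.val ≤ k.val ∧ v = lit k (!τ k))) ∧
      (∀ e, e ∈ w.edges ↔ ∃ (i' : Fin (n + 1)) (k : Fin n), i.val ≤ k.val ∧
        (i'.val = k.val ∨ i'.val = k.val + 1) ∧ e = s(s i', lit k (!τ k))) := by
  intro d
  induction d with
  | zero =>
    intro i hi
    have e : i = Fin.last n := Fin.ext (by rw [Fin.val_last]; omega)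
    subst e
    refine ⟨Walk.nil, Walk.IsPath.nil, rfl, fun v => ?_, fun e => ?_⟩
    · rw [Walk.support_nil, List.mem_singleton]
      constructor
      · rintro rfl
        exact Or.inl ⟨_, le_rfl, rfl⟩
      · rintro (⟨i', hi', rfl⟩ | ⟨k, hk, rfl⟩)
        · rw [Fin.val_last] at hi'
          have : i' = Fin.last n := Fin.ext (by rw [Fin.val_last]; have := i'.isLt; omega)
          rw [this]
        · rw [Fin.val_last] at hk
          have := k.isLt
          omega
    · rw [Walk.edges_nil]
      constructor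
      · intro h; simp at h
      · rintro ⟨i', k, hk, _⟩
        rw [Fin.val_last] at hk
        have := k.isLt
        omega
  | succ d ih =>
    intro i hi
    have hin : i.val < n := by omega
    set k₀ : Fin n := ⟨i.val, hin⟩ with hk₀
    set i₁ : Fin (n + 1) := ⟨i.val + 1, by omega⟩ with hi₁
    obtain ⟨w, hw, hwl, hws, hwe⟩ := ih i₁ (by rw [hi₁]; simp only; omega)
    have a1 : (satGraph K cl).Adj (s i) (lit k₀ (!τ k₀)) := (adj_s_lit _ _ _).mpr (Or.inl rfl)
    have a2 : (satGraph K cl).Adj (lit k₀ (!τ k₀)) (s i₁) := (adj_lit_s _ _ _).mpr (Or.inr rfl)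
    have v1 : i₁.val = i.val + 1 := rfl
    have v0 : k₀.val = i.val := rfl
    refine ⟨Walk.cons a1 (Walk.cons a2 w), ?_, ?_, fun v => ?_, fun e => ?_⟩
    · rw [Walk.cons_isPath_iff, Walk.cons_isPath_iff, Walk.support_cons, List.mem_cons, not_or]
      refine ⟨⟨hw, ?_⟩, by simp, ?_⟩
      · rw [hws]
        rintro (⟨i', _, h⟩ | ⟨k, hk, h⟩)
        · simp at h
        · rw [lit.injEq] at h
          rw [← h.1] at hk
          omega
      · rw [hws]
        rintro (⟨i', hi', h⟩ | ⟨k, hk, h⟩)
        · rw [s.injEq] at h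
          rw [← h] at hi'
          omega
        · simp at h
    · rw [Walk.length_cons, Walk.length_cons, hwl]; ring
    · rw [Walk.support_cons, Walk.support_cons, List.mem_cons, List.mem_cons, hws]
      constructor
      · rintro (rfl | rfl | ⟨i', hi', rfl⟩ | ⟨k, hk, rfl⟩)
        · exact Or.inl ⟨i, le_rfl, rfl⟩
        · exact Or.inr ⟨k₀, by omega, rfl⟩
        · exact Or.inl ⟨i', by omega, rfl⟩
        · exact Or.inr ⟨k, by omega, rfl⟩
      · rintro (⟨i', hi', rfl⟩ | ⟨k, hk, rfl⟩)
        · by_cases h : i' = i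
          · subst h; exact Or.inl rfl
          · have : i'.val ≠ i.val := fun h' => h (Fin.ext h')
            exact Or.inr (Or.inr (Or.inl ⟨i', by omega, rfl⟩))
        · by_cases h : k = k₀
          · subst h; exact Or.inr (Or.inl rfl)
          · have : k.val ≠ k₀.val := fun h' => h (Fin.ext h')
            exact Or.inr (Or.inr (Or.inr ⟨k, by omega, rfl⟩))
    · rw [Walk.edges_cons, Walk.edges_cons, List.mem_cons, List.mem_cons, hwe]
      constructor
      · rintro (rfl | rfl | ⟨i', k, hk, hik, rfl⟩)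
        · exact ⟨i, k₀, by omega, Or.inl rfl, rfl⟩
        · exact ⟨i₁, k₀, by omega, Or.inr rfl, Sym2.eq_swap⟩
        · exact ⟨i', k, by omega, hik, rfl⟩
      · rintro ⟨i', k, hk, hik, rfl⟩
        by_cases h : k = k₀
        · subst h
          rcases hik with hik | hik
          · have : i' = i := Fin.ext (by omega)
            subst this
            exact Or.inl rfl
          · have : i' = i₁ := Fin.ext (by omega)
            subst this
            exact Or.inr (Or.inl Sym2.eq_swap)
        · have : k.val ≠ k₀.val := fun h' => h (Fin.ext h')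
          exact Or.inr (Or.inr ⟨i', k, by omega, hik, rfl⟩)

theorem cycle_of_sat (hn : 2 ≤ n) (hK : 1 ≤ K) (hsat : Satisfiable cl) :
    ∃ (v : Vert n m K) (p : (satGraph K cl).Walk v v),
      InducedNonseparating (satGraph K cl) p ∧ s(s 0, s (Fin.last n)) ∈ p.edges ∧
      p.length = 2 * n + 1 := by
  obtain ⟨τ, hτ⟩ := hsat
  obtain ⟨w, hw, hwl, hws, hwe⟩ := exists_chain (K := K) (cl := cl) τ n 0 (by simp)
  have hadj : (satGraph K cl).Adj (s (Fin.last n)) (s 0) := by
    rw [adj_s_s]
    refine ⟨fun h => ?_, Or.inr ⟨by simp, by simp⟩⟩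
    have := congrArg Fin.val h
    simp at this
    omega
  set p : (satGraph K cl).Walk (s (Fin.last n)) (s (Fin.last n)) := Walk.cons hadj w with hp
  have hcyc : p.IsCycle := by
    rw [hp, Walk.cons_isCycle_iff]
    refine ⟨hw, ?_⟩
    rw [hwe]
    rintro ⟨i', k, _, _, h⟩
    rw [Sym2.eq_iff] at h
    simp at h
  have hsupp : ∀ v, v ∈ p.support ↔ (∃ i' : Fin (n + 1), v = s i') ∨
      (∃ k : Fin n, v = lit k (!τ k)) := by
    intro v
    rw [hp, Walk.support_cons, List.mem_cons, hws]
    constructor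
    · rintro (rfl | ⟨i', _, rfl⟩ | ⟨k, _, rfl⟩)
      · exact Or.inl ⟨_, rfl⟩
      · exact Or.inl ⟨_, rfl⟩
      · exact Or.inr ⟨_, rfl⟩
    · rintro (⟨i', rfl⟩ | ⟨k, rfl⟩)
      · exact Or.inr (Or.inl ⟨i', by simp, rfl⟩)
      · exact Or.inr (Or.inr ⟨k, by simp, rfl⟩)
  have hedge : ∀ e, e ∈ p.edges ↔ e = s(s (Fin.last n), s 0) ∨
      ∃ (i' : Fin (n + 1)) (k : Fin n), (i'.val = k.val ∨ i'.val = k.val + 1) ∧
        e = s(s i', lit k (!τ k)) := by
    intro e
    rw [hp, Walk.edges_cons, List.mem_cons, hwe]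
    constructor
    · rintro (h | ⟨i', k, _, h1, h2⟩)
      · exact Or.inl h
      · exact Or.inr ⟨i', k, h1, h2⟩
    · rintro (h | ⟨i', k, h1, h2⟩)
      · exact Or.inl h
      · exact Or.inr ⟨i', k, by simp, h1, h2⟩
  refine ⟨_, p, ⟨hcyc, ?_⟩, ?_, ?_⟩
  · rw [Nat.card_eq_one_iff_unique]
    -- no chords
    have hnochord : IsEmpty {e : Sym2 (Vert n m K) // e ∈ (satGraph K cl).edgeSet ∧
        e ∉ p.edges ∧ ∀ x ∈ e, x ∈ p.support} := by
      constructor
      rintro ⟨e, he1, he2, he3⟩
      induction e using Sym2.ind with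
      | _ x y =>
        have hx := (hsupp x).mp (he3 x (Sym2.mem_mk_left x y))
        have hy := (hsupp y).mp (he3 y (Sym2.mem_mk_right x y))
        rw [SimpleGraph.mem_edgeSet] at he1
        apply he2
        rw [hedge]
        rcases hx with ⟨i, rfl⟩ | ⟨k, rfl⟩ <;> rcases hy with ⟨i', rfl⟩ | ⟨k', rfl⟩
        · left
          rw [adj_s_s] at he1
          rcases he1.2 with ⟨h1, h2⟩ | ⟨h1, h2⟩
          · have e1 : i = 0 := Fin.ext h1
            have e2 : i' = Fin.last n := Fin.ext h2
            rw [e1, e2, Sym2.eq_swap]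
          · have e1 : i' = 0 := Fin.ext h1
            have e2 : i = Fin.last n := Fin.ext h2
            rw [e1, e2]
        · right
          exact ⟨i, k', (adj_s_lit _ _ _).mp he1, rfl⟩
        · right
          exact ⟨i', k, (adj_lit_s _ _ _).mp he1, Sym2.eq_swap⟩
        · exact absurd he1 (adj_lit_lit _ _ _ _)
    have hconn : ((satGraph K cl).induce {x | x ∉ p.support}).Connected := by
      refine connected_of (by omega) hK _ ?_ ?_ ?_
      · intro j t
        refine ⟨0, fun h => ?_⟩
        rw [hsupp] at h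
        rcases h with ⟨_, h⟩ | ⟨_, h⟩ <;> simp at h
      · intro c
        obtain ⟨l, hl, hl2⟩ := hτ c
        refine ⟨l, hl, fun h => ?_⟩
        rw [hsupp] at h
        rcases h with ⟨_, h⟩ | ⟨k, h⟩
        · simp at h
        · rw [lit.injEq] at h
          rw [← h.1, hl2] at h
          have := h.2
          cases hb : l.2 <;> simp [hb] at this
      · intro i hi
        exact absurd ((hsupp _).mpr (Or.inl ⟨i, rfl⟩)) hi
    have hne : Nonempty ((satGraph K cl).induce {x | x ∉ p.support}).ConnectedComponent := by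
      obtain ⟨x⟩ := hconn.nonempty
      exact ⟨SimpleGraph.connectedComponentMk _ x⟩
    have hss : Subsingleton ((satGraph K cl).induce {x | x ∉ p.support}).ConnectedComponent :=
      hconn.preconnected.subsingleton_connectedComponent
    constructor
    · constructor
      rintro (a | a) (b | b)
      · exact (hnochord.false a).elim
      · exact (hnochord.false a).elim
      · exact (hnochord.false b).elim
      · exact congrArg Sum.inr (Subsingleton.elim a b)
    · obtain ⟨x⟩ := hne
      exact ⟨Sum.inr x⟩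
  · rw [hedge, Sym2.eq_swap]
    exact Or.inl rfl
  · rw [hp, Walk.length_cons, hwl]

/-- The reduction theorem. -/
theorem sat_graph_theorem (n m K : ℕ) (hn : 2 ≤ n) (hK : 1 ≤ K)
    (cl : Fin m → Finset (Fin n × Bool)) (h3 : ∀ j, 3 ≤ (cl j).card) :
    ThreeConnected (satGraph K cl) ∧
    Fintype.card (Vert n m K) = (n + 1) + 2 * n + 6 * (m + 1) * n * K ∧
    (satGraph K cl).Adj (s 0) (s (Fin.last n)) ∧
    (∀ (v : Vert n m K) (p : (satGraph K cl).Walk v v), p.IsCycle →
      s(s 0, s (Fin.last n)) ∈ p.edges → 2 * n + 1 ≤ p.length) ∧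
    (Satisfiable cl → ∃ (v : Vert n m K) (p : (satGraph K cl).Walk v v),
      InducedNonseparating (satGraph K cl) p ∧ s(s 0, s (Fin.last n)) ∈ p.edges ∧
      p.length = 2 * n + 1) ∧
    (¬ Satisfiable cl → ∀ (v : Vert n m K) (p : (satGraph K cl).Walk v v),
      InducedNonseparating (satGraph K cl) p → s(s 0, s (Fin.last n)) ∈ p.edges →
      K + 3 ≤ p.length) := by
  refine ⟨satGraph_threeConnected hn hK h3, card_vert n m K, ?_, ?_, cycle_of_sat hn hK, ?_⟩
  · rw [adj_s_s]
    refine ⟨fun h => ?_, Or.inl ⟨by simp, by simp⟩⟩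
    have := congrArg Fin.val h
    simp at this
    omega
  · intro v p hp he
    obtain ⟨P, _, heP, hPl, _⟩ := exists_path_of_cycle p hp he
    have := length_ge hK P heP
    omega
  · intro hns v p hp he
    by_contra hlt
    exact hns (sat_of_short (by omega) hK p hp he (by omega))

end Pool.Agent.Lib.MP_75fd85_lc
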