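import Pool.Agent.Lib.PolyTM.Emit
import Pool.Agent.Lib.PolyTM.Comp

/-! # Padding the input and reading the answer -/

namespace Pool.Agent.Lib.MP_75fd85_lc

set_option linter.unusedSectionVars false
set_option linter.unusedSimpArgs false

open Pool.Agent.Lib.PolyTM Function

/-- A true closed formula. -/
def tt3 : Fml (Fin 3) Unit := Fml.tt (.ex 0 (.ex 1 (.le 0 1)))

/-- Append two letters. -/
def padS : PolyTM.Stmt (Fin 3) Unit :=
  .seq (.loop 0 (.emit (.arr () [0]))) (.seq (.emit tt3) (.emit tt3))

theorem padS_wf : padS.wf (fun _ => 1) [] = true := by decide

/-- Number of ones in the last block. -/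
def onesF : Fml (Fin 3) Unit :=
  .and (.arr () [0]) (.not (.ex 1 (.and (.lt 0 1) (.and (.not (.arr () [1]))
    (.ex 2 (.lt 1 2))))))

/-- Compare the number of zeros with the length of the last block of ones. -/
def postS : PolyTM.Stmt (Fin 3) Unit :=
  .ite (.more 0 (.not (.arr () [0])) onesF) (.emit (.not tt3)) (.emit tt3)

theorem postS_wf : postS.wf (fun _ => 1) [] = true := by decide

theorem enc_one (N t : ℕ) : enc N [t] = t := by simp [enc]

theorem iniArr_one (N : ℕ) (w : List Bool) (t : ℕ) :
    iniArr N (fun (_ : Unit) b => some b) w () [t] = w.getD t false := by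
  simp [iniArr, enc_one, cell]

theorem padS_out (x : List Bool) :
    padS.out (fun _ => true) (fun _ b => some b) x = x ++ [true, true] := by
  have hc : x.countP (fun _ => true) = x.length := by simp
  unfold Stmt.out
  rw [hc]
  set a := iniArr x.length (fun (_ : Unit) b => some b) x with ha
  have h1 : Emits x.length a (.loop 0 (.emit (.arr () [0])) : PolyTM.Stmt (Fin 3) Unit)
      (fun _ => 0) ((List.range x.length).flatMap fun t => [x.getD t false]) := by
    refine Emits.loop fun t _ => ?_
    have := Emits.emit (N := x.length) (a := a) (e := update (fun _ : Fin 3 => 0) 0 t)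
      (.arr () [0])
    rw [Fml.eval_arr] at this
    simp only [List.map_cons, List.map_nil, update_self] at this
    rw [ha, iniArr_one] at this
    exact this
  have h2 : Emits x.length a (.emit tt3 : PolyTM.Stmt (Fin 3) Unit) (fun _ => 0) [true] := by
    have := Emits.emit (N := x.length) (a := a) (e := fun _ : Fin 3 => 0) tt3
    rwa [tt3, Fml.eval_tt] at this
  have h := (h1.seq (h2.seq h2)) []
  have h3 : ((List.range x.length).flatMap fun t => [x.getD t false]) = x := by
    have : ∀ (l : List ℕ) (g : ℕ → Bool), (l.flatMap fun t => [g t]) = l.map g := by
      intro l g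
      induction l with
      | nil => rfl
      | cons y l ih => rw [List.flatMap_cons, ih]; rfl
    rw [this]
    apply List.ext_getElem
    · simp
    · intro i h1 h2
      rw [List.getElem_map, List.getElem_range, List.getD_eq_getElem _ _ h2]
  rw [padS, h, h3]
  simp

/-- Code of a list of numbers. -/
def blocks (l : List ℕ) : List Bool := l.flatMap fun t => List.replicate t true ++ [false]

theorem card_filter_getD (w : List Bool) (b : Bool) :
    ((Finset.range w.length).filter fun t => w.getD t false = b).card = w.count b := by
  induction w using List.reverseRecOn with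
  | nil => simp
  | append_singleton w c ih =>
    rw [List.length_append, List.length_singleton, Finset.range_add_one, Finset.filter_insert]
    have h1 : (Finset.range w.length).filter (fun t => (w ++ [c]).getD t false = b) =
        (Finset.range w.length).filter (fun t => w.getD t false = b) := by
      refine Finset.filter_congr fun t ht => ?_
      rw [Finset.mem_range] at ht
      rw [List.getD_append _ _ _ _ ht]
    have h2 : (w ++ [c]).getD w.length false = c := by
      rw [List.getD_append_right _ _ _ _ le_rfl]
      simp
    rw [h1, h2, List.count_append]
    by_cases hc : c = b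
    · rw [if_pos hc, Finset.card_insert_of_notMem (by simp), ih]
      simp [hc]
    · rw [if_neg hc, ih]
      simp [List.count_cons, hc]

theorem blocks_append (l l' : List ℕ) : blocks (l ++ l') = blocks l ++ blocks l' := by
  simp [blocks]

theorem count_blocks (l : List ℕ) : (blocks l).count false = l.length := by
  induction l with
  | nil => rfl
  | cons t l ih =>
    have : blocks (t :: l) = (List.replicate t true ++ [false]) ++ blocks l := by
      simp [blocks]
    rw [this, List.count_append, List.count_append, ih]
    simp [List.count_replicate]
    omega

theorem blocks_last (l : List ℕ) :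
    blocks l = [] ∨ (blocks l).getD ((blocks l).length - 1) false = false ∧
      0 < (blocks l).length := by
  rcases List.eq_nil_or_concat l with rfl | ⟨l', t, rfl⟩
  · exact Or.inl rfl
  · right
    have : blocks (l' ++ [t]) = (blocks l' ++ List.replicate t true) ++ [false] := by
      simp [blocks]
    rw [List.concat_eq_append, this]
    refine ⟨?_, by simp⟩
    rw [List.getD_append_right _ _ _ _ (by simp)]
    simp

theorem postS_out (l : List ℕ) (t : ℕ) :
    postS.out (fun _ => true) (fun _ b => some b) (blocks (l ++ [t])) =
      [decide (l.length + 1 ≤ t)] := by
  set w := blocks (l ++ [t]) with hw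
  have hc : w.countP (fun _ => true) = w.length := by simp
  unfold Stmt.out
  rw [hc]
  set a := iniArr w.length (fun (_ : Unit) b => some b) w with ha
  have hwe : w = blocks l ++ (List.replicate t true ++ [false]) := by
    rw [hw, blocks_append]
    simp [blocks]
  set p := (blocks l).length with hp
  have hlen : w.length = p + t + 1 := by
    rw [hwe]; simp [hp]; omega
  have hbig : ∀ i, w.getD (p + i) false = decide (i < t) := by
    intro i
    rw [hwe, List.getD_append_right _ _ _ _ (by omega),
      show p + i - (blocks l).length = i by omega]
    rcases Nat.lt_or_ge i t with h | h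
    · rw [List.getD_append _ _ _ _ (by simpa using h)]
      rw [List.getD_eq_getElem _ _ (by simpa using h)]
      simp [h]
    · rw [List.getD_append_right _ _ _ _ (by simpa using h)]
      simp only [List.length_replicate]
      rcases Nat.eq_zero_or_pos (i - t) with h2 | h2
      · rw [h2]; simp; omega
      · rw [List.getD_eq_default _ _ (by simp only [List.length_singleton]; omega)]
        simp
        omega
  have hsmall : p ≠ 0 → w.getD (p - 1) false = false := by
    intro hp0
    rw [hwe, List.getD_append _ _ _ _ (by omega)]
    rcases blocks_last l with h | h
    · rw [hp, h] at hp0; simp at hp0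
    · exact h.1
  have hz : (Fml.not (.arr () [0]) : Fml (Fin 3) Unit).count w.length a 0 (fun _ => 0) =
      l.length + 1 := by
    have h1 : (Fml.not (.arr () [0]) : Fml (Fin 3) Unit).count w.length a 0 (fun _ => 0) =
        ((Finset.range w.length).filter fun t => w.getD t false = false).card := by
      unfold Fml.count
      congr 1
      refine Finset.filter_congr fun i _ => ?_
      rw [Fml.eval_not, Fml.eval_arr]
      simp only [List.map_cons, List.map_nil, update_self]
      rw [ha, iniArr_one]
      simp
    rw [h1, card_filter_getD, hw, count_blocks]
    simp
  have ho : onesF.count w.length a 0 (fun _ => 0) = t := by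
    have h1 : onesF.count w.length a 0 (fun _ => 0) =
        ((Finset.range t).image fun i => p + i).card := by
      unfold Fml.count
      congr 1
      ext z
      simp only [Finset.mem_filter, Finset.mem_range, Finset.mem_image]
      rw [onesF, Fml.eval_and, Fml.eval_not, Fml.eval_ex, Fml.eval_arr]
      simp only [List.map_cons, List.map_nil, update_self]
      rw [ha, iniArr_one, ← ha]
      have key : (∃ t_1 < w.length, (Fml.and (.lt 0 1) (.and (.not (.arr () [1]))
          (.ex 2 (.lt 1 2))) : Fml (Fin 3) Unit).eval w.length a
            (update (update (fun _ => 0) 0 z) 1 t_1) = true) ↔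
          ∃ y, z < y ∧ y + 1 < w.length ∧ w.getD y false = false := by
        constructor
        · rintro ⟨y, hy, h⟩
          rw [Fml.eval_and, Fml.eval_and, Fml.eval_not, Fml.eval_lt, Fml.eval_ex,
            Fml.eval_arr] at h
          obtain ⟨h2, h3, y', hy', h4⟩ := h
          rw [Fml.eval_lt] at h4
          simp only [List.map_cons, List.map_nil, update_self] at h3
          rw [ha, iniArr_one] at h3
          simp [update] at h2 h4
          refine ⟨y, h2, by omega, by simpa using h3⟩
        · rintro ⟨y, h2, h3, h4⟩
          refine ⟨y, by omega, ?_⟩
          rw [Fml.eval_and, Fml.eval_and, Fml.eval_not, Fml.eval_lt, Fml.eval_ex,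
            Fml.eval_arr]
          refine ⟨by simpa [update] using h2, ?_, y + 1, h3, ?_⟩
          · simp only [List.map_cons, List.map_nil, update_self]
            rw [ha, iniArr_one, h4]
            simp
          · rw [Fml.eval_lt]
            simp [update]
      rw [key]
      constructor
      · rintro ⟨h1, h2, h3⟩
        have h4 : p ≤ z := by
          by_contra h5
          have h6 := hsmall (by omega)
          rcases Nat.lt_or_ge z (p - 1) with h7 | h7
          · exact h3 ⟨p - 1, h7, by omega, h6⟩
          · rw [show z = p - 1 by omega, h6] at h2
            exact absurd h2 (by simp)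
        obtain ⟨i, rfl⟩ := Nat.exists_eq_add_of_le h4
        rw [hbig] at h2
        exact ⟨i, by simpa using h2, rfl⟩
      · rintro ⟨i, hi, rfl⟩
        refine ⟨by omega, by rw [hbig]; simpa using hi, ?_⟩
        rintro ⟨y, h1, h2, h3⟩
        obtain ⟨j, rfl⟩ := Nat.exists_eq_add_of_le (show p ≤ y by omega)
        rw [hbig] at h3
        simp at h3
        omega
    rw [h1, Finset.card_image_of_injective _ (fun i j h => by simpa using h),
      Finset.card_range]
  have h0 : Emits w.length a postS (fun _ => 0) [decide (l.length + 1 ≤ t)] := by
    refine Emits.ite ?_
    simp only [Cond.eval, hz, ho]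
    by_cases h : t < l.length + 1
    · rw [if_pos (by simpa using h)]
      have := Emits.emit (N := w.length) (a := a) (e := fun _ : Fin 3 => 0) (.not tt3)
      have h5 : (Fml.not tt3).eval w.length a (fun _ => 0) = false := by
        simp [Fml.eval, tt3, Fml.eval_tt]
      rw [h5] at this
      rw [decide_eq_false (by omega)]
      exact this
    · rw [if_neg (by simpa using h)]
      have := Emits.emit (N := w.length) (a := a) (e := fun _ : Fin 3 => 0) tt3
      rw [tt3, Fml.eval_tt] at this
      rw [decide_eq_true (by omega)]
      exact this
  rw [h0 []]
  rfl

/-- Programs with one array holding the input compute polynomial-time functions. -/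
theorem polyFun_out {V : Type} [DecidableEq V] [Fintype V] (S : PolyTM.Stmt V Unit)
    (hwf : S.wf (fun _ => 1) [] = true) :
    PolyFun (S.out (fun _ => true) (fun (_ : Unit) (b : Bool) => some b)) :=
  Stmt.polytime S hwf _ _

end Pool.Agent.Lib.MP_75fd85_lc
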