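import Pool.Agent.Lib.MP_75fd85_lc.Word

/-! # The instance word -/

namespace Pool.Agent.Lib.MP_75fd85_lc

set_option linter.unusedSectionVars false
set_option linter.unusedSimpArgs false

open Pool.Agent.Lib.PolyTM Pool.Agent.Lib.PolyTM.Tab Function

section List

variable {n m K' : ℕ}

theorem mem_vl (x : Vert n m K') : x ∈ vl n m K' := by
  simp only [vl, litL, sL, blobL, List.mem_append, List.mem_map, List.mem_cons, List.mem_flatMap,
    List.mem_finRange, true_and]
  rcases x with i | ⟨k, b⟩ | ⟨j, t, a⟩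
  · induction i using Fin.lastCases with
    | last => simp
    | cast i => exact Or.inr (Or.inr (Or.inl ⟨i, rfl⟩))
  · cases b
    · exact Or.inl ⟨k, rfl⟩
    · exact Or.inr (Or.inl ⟨k, rfl⟩)
  · have ha : a = 0 ∨ a = 1 ∨ a = 2 := by fin_cases a <;> simp
    cases j with
    | none =>
      refine Or.inr (Or.inr (Or.inr (Or.inr (Or.inl ⟨t, a, ?_, rfl⟩))))
      rcases ha with rfl | rfl | rfl <;> simp
    | some j =>
      refine Or.inr (Or.inr (Or.inr (Or.inr (Or.inr ⟨j, t, a, ?_, rfl⟩))))
      rcases ha with rfl | rfl | rfl <;> simp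

theorem blobL_nodup (j : Option (Fin m)) : (blobL j : List (Vert n m K')).Nodup := by
  unfold blobL
  rw [List.nodup_flatMap]
  refine ⟨fun t _ => by simp, ?_⟩
  refine List.Pairwise.imp_of_mem ?_ (List.nodup_finRange _)
  intro t t' _ _ htt
  simp only [Function.onFun, List.disjoint_left, List.mem_map]
  rintro _ ⟨a, -, rfl⟩ ⟨a', -, h⟩
  simp only [Vert.blob.injEq] at h
  exact htt h.2.1.symm

theorem mem_blobL {j : Option (Fin m)} {x : Vert n m K'} (h : x ∈ blobL j) :
    ∃ t a, x = .blob j t a := by
  simp only [blobL, List.mem_flatMap, List.mem_map] at h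
  obtain ⟨t, -, a, -, rfl⟩ := h
  exact ⟨t, a, rfl⟩

theorem vl_nodup : (vl n m K').Nodup := by
  have h1 : ∀ b, (litL b : List (Vert n m K')).Nodup := fun b =>
    List.Nodup.map (fun i j h => by simpa using h) (List.nodup_finRange n)
  have h2 : (sL : List (Vert n m K')).Nodup :=
    List.Nodup.map (fun i j h => by simpa using h) (List.nodup_finRange n)
  have h3 : ((List.finRange m).flatMap fun j => (blobL (some j) : List (Vert n m K'))).Nodup := by
    rw [List.nodup_flatMap]
    refine ⟨fun j _ => blobL_nodup _, ?_⟩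
    refine List.Pairwise.imp_of_mem ?_ (List.nodup_finRange _)
    intro j j' _ _ hjj
    simp only [Function.onFun, List.disjoint_left]
    intro x hx hx'
    obtain ⟨t, a, rfl⟩ := mem_blobL hx
    obtain ⟨t', a', h⟩ := mem_blobL hx'
    simp only [Vert.blob.injEq, Option.some.injEq] at h
    exact hjj h.1
  have hlit : ∀ {b} {x : Vert n m K'}, x ∈ litL b → ∃ k, x = .lit k b := by
    intro b x hx
    obtain ⟨k, -, rfl⟩ := List.mem_map.1 hx
    exact ⟨k, rfl⟩
  have hs : ∀ {x : Vert n m K'}, x ∈ sL → ∃ k, x = .s (Fin.castSucc k) := by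
    intro x hx
    obtain ⟨k, -, rfl⟩ := List.mem_map.1 hx
    exact ⟨k, rfl⟩
  have hbl : ∀ {x : Vert n m K'}, (x ∈ blobL none ∨ x ∈ (List.finRange m).flatMap fun j =>
      blobL (some j)) → ∃ j t a, x = .blob j t a := by
    rintro x (hx | hx)
    · obtain ⟨t, a, rfl⟩ := mem_blobL hx
      exact ⟨_, t, a, rfl⟩
    · obtain ⟨j, -, hx⟩ := List.mem_flatMap.1 hx
      obtain ⟨t, a, rfl⟩ := mem_blobL hx
      exact ⟨_, t, a, rfl⟩
  unfold vl
  rw [List.nodup_append, List.nodup_append, List.nodup_append, List.nodup_cons,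
    List.nodup_append]
  refine ⟨h1 _, ⟨h1 _, ⟨h2, ⟨?_, blobL_nodup _, h3, ?_⟩, ?_⟩, ?_⟩, ?_⟩
  · intro hx
    obtain ⟨j, t, a, h⟩ := hbl (List.mem_append.1 hx)
    simp at h
  · intro x hx y hy hxy
    subst hxy
    obtain ⟨t, a, rfl⟩ := mem_blobL hx
    obtain ⟨j, -, hx⟩ := List.mem_flatMap.1 hy
    obtain ⟨t, a, h⟩ := mem_blobL hx
    simp at h
  · intro x hx y hy hxy
    subst hxy
    obtain ⟨k, rfl⟩ := hs hx
    simp only [List.mem_cons, List.mem_append] at hy
    rcases hy with hy | hy
    · simp only [Vert.s.injEq] at hy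
      exact absurd hy (Fin.castSucc_lt_last k).ne
    · obtain ⟨j, t, a, h⟩ := hbl hy
      simp at h
  · intro x hx y hy hxy
    subst hxy
    obtain ⟨k, rfl⟩ := hlit hx
    simp only [List.mem_cons, List.mem_append] at hy
    rcases hy with hy | hy | hy
    · obtain ⟨k, h⟩ := hs hy
      simp at h
    · simp at hy
    · obtain ⟨j, t, a, h⟩ := hbl hy
      simp at h
  · intro x hx y hy hxy
    subst hxy
    obtain ⟨k, rfl⟩ := hlit hx
    simp only [List.mem_cons, List.mem_append] at hy
    rcases hy with hy | hy | hy | hy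
    · obtain ⟨k, h⟩ := hlit hy
      simp at h
    · obtain ⟨k, h⟩ := hs hy
      simp at h
    · simp at hy
    · obtain ⟨j, t, a, h⟩ := hbl hy
      simp at h

theorem vl_s0 (hn : 0 < n) : (vl n m K')[2 * n]? = some (.s 0) := by
  obtain ⟨n, rfl⟩ : ∃ n', n = n' + 1 := ⟨n - 1, by omega⟩
  unfold vl
  rw [List.getElem?_append_right (by
      simp only [litL, List.length_map, List.length_finRange]; omega),
    List.getElem?_append_right (by
      simp only [litL, List.length_map, List.length_finRange]; omega),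
    List.getElem?_append_left (by
      simp only [litL, sL, List.length_map, List.length_finRange]; omega)]
  simp only [litL, sL, List.length_map, List.length_finRange]
  rw [show 2 * (n + 1) - (n + 1) - (n + 1) = 0 by omega]
  simp [List.finRange_succ]

theorem vl_sl : (vl n m K')[3 * n]? = some (.s (Fin.last n)) := by
  unfold vl
  rw [List.getElem?_append_right (by simp [litL]; omega),
    List.getElem?_append_right (by simp [litL]; omega),
    List.getElem?_append_right (by simp [litL, sL]; omega)]
  simp only [litL, sL, List.length_map, List.length_finRange]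
  rw [show 3 * n - n - n - n = 0 by omega]
  rfl

end List

section

variable {K : Type} {Γ : K → Type} {S : Type} {U : ℕ} {P : Par} {cd : VT K Γ S ≃ Fin U}
  {cs : List (Sc K Γ S)} {N : ℕ} {a : Arr Unit} {e : P.V → ℕ}

theorem num_ext {β γ : Bool} (h : β ≠ γ) {e e' : P.V → ℕ} (he : Ext P γ e e')
    {ds : List (Dg P.V)} (hds : ∀ y, .x y ∈ ds → ∃ g i, y = .inl (β, g, i)) :
    num N e' ds = num N e ds := by
  refine num_congr fun y hy => he y fun g i hgi => ?_
  obtain ⟨g', i', h'⟩ := hds y hy
  rw [hgi] at h'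
  simp only [Sum.inl.injEq, Prod.mk.injEq] at h'
  exact h h'.1.symm

theorem fam_dk {β : Bool} {v : ℕ} (y : P.V) (hy : .x y ∈ dk P U β v) :
    ∃ g i, y = .inl (β, g, i) := by
  simp only [dk, List.mem_cons, reduceCtorEq, false_or] at hy
  obtain ⟨z, hz, hzy⟩ := List.mem_map.1 hy
  cases hzy
  rcases List.mem_append.1 hz with hz | hz
  · obtain ⟨i, h⟩ := P.mem_grp hz
    exact ⟨_, i, h⟩
  · obtain ⟨i, h⟩ := P.mem_grp hz
    exact ⟨_, i, h⟩

theorem fam_dt {β : Bool} {v b : ℕ} (y : P.V) (hy : .x y ∈ dt P U β v b) :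
    ∃ g i, y = .inl (β, g, i) := by
  rcases List.mem_append.1 hy with hy | hy
  · exact fam_dk y hy
  · simp only [List.mem_cons, reduceCtorEq, false_or] at hy
    obtain ⟨z, hz, hzy⟩ := List.mem_map.1 hy
    cases hzy
    obtain ⟨i, h⟩ := P.mem_grp hz
    exact ⟨_, i, h⟩

theorem fam_dj {β : Bool} {σ : ℕ} (y : P.V) (hy : .x y ∈ dj P cs β σ) :
    ∃ g i, y = .inl (β, g, i) := by
  simp only [dj, List.mem_cons, reduceCtorEq, false_or] at hy
  obtain ⟨z, hz, hzy⟩ := List.mem_map.1 hy
  cases hzy
  rcases List.mem_append.1 hz with hz | hz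
  · obtain ⟨i, h⟩ := P.mem_grp hz
    exact ⟨_, i, h⟩
  · obtain ⟨g, i, h, -⟩ := P.mem_pz hz
    exact ⟨_, i, h⟩

theorem Rel.ext {β γ : Bool} (h : β ≠ γ) {e e' : P.V → ℕ} (he : Ext P γ e e') {X : SV}
    {x : Vert (nn U N P) (mm cs N P) (N ^ P.c)} (hX : Rel P cs N e β X x) :
    Rel P cs N e' β X x := by
  cases X with
  | lit v b =>
    cases x with
    | s i => exact hX
    | blob j t a => exact hX
    | lit k bb =>
      simp only [Rel] at hX ⊢
      rw [num_ext h he fam_dk]
      exact hX
  | s v =>
    cases x with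
    | lit k bb => exact hX
    | blob j t a => exact hX
    | s i =>
      simp only [Rel] at hX ⊢
      rw [num_ext h he fam_dk]
      exact hX
  | sl =>
    cases x with
    | lit k bb => exact hX
    | blob j t a => exact hX
    | s i => exact hX
  | bl j v b a =>
    cases x with
    | lit k bb => exact hX
    | s i => exact hX
    | blob j' t a' =>
      simp only [Rel] at hX ⊢
      rw [num_ext h he fam_dt]
      refine ⟨hX.1, hX.2.1, hX.2.2.1, hX.2.2.2.1, ?_⟩
      have h5 := hX.2.2.2.2
      cases j with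
      | none => cases j' <;> exact h5
      | some σ =>
        cases j' with
        | none => exact h5
        | some c =>
          simp only [JRel] at h5 ⊢
          rw [num_ext h he fam_dj]
          exact h5

variable (P cd cs)

/-- The program writing the instance. -/
noncomputable def wordP : Prog P :=
  .seq (allV P cs U false fun _ => .emit tt0) (.seq (.emit ff0)
    (.seq (litP P U false false fun _ => .emit tt0)
    (.seq (litP P U false true fun _ => .emit tt0) (.seq (.emit ff0)
    (.seq (litP P U false false fun _ => .emit tt0)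
    (.seq (litP P U false true fun _ => .emit tt0)
    (.seq (sP P U false fun _ => .emit tt0) (.seq (.emit ff0)
    (allV P cs U false fun X => allV P cs U true fun Y => .emit (adjF P cd cs X Y))))))))))

variable {P cd cs}

open Classical in
/-- The instance word of a graph with given order of the vertices. -/
noncomputable def instWord {V : Type} (G : SimpleGraph V) (l : List V) (u v : ℕ) : List Bool :=
  List.replicate l.length true ++ false :: (List.replicate u true ++ false ::
    (List.replicate v true ++ false ::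
      l.flatMap fun x => l.map fun y => decide (G.Adj x y)))

theorem flatMap_true {α : Type} (l : List α) : (l.flatMap fun _ => [true]) =
    List.replicate l.length true := by
  induction l with
  | nil => rfl
  | cons x l ih =>
    rw [List.flatMap_cons, ih, List.length_cons, List.replicate_succ]
    rfl

theorem flatMap_single {α : Type} (l : List α) (g : α → Bool) :
    (l.flatMap fun w => [g w]) = l.map g := by
  induction l with
  | nil => rfl
  | cons x l ih => rw [List.flatMap_cons, ih]; rfl

theorem emits_wordP (hU : 0 < U) {x : List Bool} (hN : N = x.length + 2)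
    (ha : ∀ t, t < N → a () [t] = (x ++ [true, true]).getD t false) (he : ∀ y, e y < N) :
    Emits N a (wordP P cd cs) e
      (instWord (satGraph (N ^ P.c) (clauses cd cs (N ^ P.D) (AmP P N x)))
        (vl (nn U N P) (mm cs N P) (N ^ P.c)) (2 * nn U N P) (3 * nn U N P)) := by
  classical
  set n := nn U N P with hn
  have hB : ∀ β, BodyOK P cs U N a β e (fun _ => .emit tt0) (fun _ => [true]) := by
    intro β X y e' _ _ _
    have := Emits.emit (N := N) (a := a) (e := e') (tt0 : Fml P.V Unit)
    rwa [eval_tt0] at this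
  have hff : Emits N a (.emit (ff0 : Fml P.V Unit)) e [false] := by
    have := Emits.emit (N := N) (a := a) (e := e) (ff0 : Fml P.V Unit)
    rwa [eval_ff0] at this
  have l1 : ∀ b, (litL b : List (Vert n (mm cs N P) (N ^ P.c))).length = n := fun b => by
    simp [litL]
  have l2 : (sL : List (Vert n (mm cs N P) (N ^ P.c))).length = n := by simp [sL]
  have k1 := emits_allV (cs := cs) he (hB false)
  have k2 := emits_litP (cs := cs) he (hB false) false
  have k3 := emits_litP (cs := cs) he (hB false) true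
  have k4 := emits_sP (cs := cs) he (hB false)
  rw [flatMap_true] at k1 k2 k3 k4
  rw [l1] at k2 k3
  rw [l2] at k4
  have k5 : Emits N a (allV P cs U false fun X => allV P cs U true fun Y =>
      .emit (adjF P cd cs X Y)) e ((vl n (mm cs N P) (N ^ P.c)).flatMap fun u =>
        (vl n (mm cs N P) (N ^ P.c)).flatMap fun w =>
          [decide ((satGraph (N ^ P.c) (clauses cd cs (N ^ P.D) (AmP P N x))).Adj u w)]) := by
    refine emits_allV he fun X u e' hX _ he' => emits_allV he' fun Y w e'' hY hx he'' => ?_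
    have := Emits.emit (N := N) (a := a) (e := e'') (adjF P cd cs X Y)
    have h2 := eval_adjF (cd := cd) hN ha he'' hU (hX.ext (by simp) hx) hY
    have h3 : (adjF P cd cs X Y).eval N a e'' =
        decide ((satGraph (N ^ P.c) (clauses cd cs (N ^ P.D) (AmP P N x))).Adj u w) := by
      rw [Bool.eq_iff_iff, h2, decide_eq_true_iff]
    rwa [h3] at this
  have key := k1.seq (hff.seq (k2.seq (k3.seq (hff.seq (k2.seq (k3.seq (k4.seq
    (hff.seq k5))))))))
  rw [instWord]
  have e1 : List.replicate (2 * n) true = List.replicate n true ++ List.replicate n true := by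
    rw [← List.replicate_add]; congr 1; omega
  have e2 : List.replicate (3 * n) true = List.replicate n true ++ (List.replicate n true ++
      List.replicate n true) := by
    rw [← List.replicate_add, ← List.replicate_add]; congr 1; omega
  rw [e1, e2]
  simp only [List.append_assoc, List.cons_append, List.nil_append] at key ⊢
  simp only [flatMap_single] at key
  exact key

/-! ### Well-formedness -/

/-- Variables of a symbolic vertex. -/
def varsOf (P : Par) (β : Bool) : SV → List P.V
  | .lit _ _ => P.xT β ++ P.xI β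
  | .s _ => P.xT β ++ P.xI β
  | .sl => []
  | .bl none _ _ _ => P.xT β ++ P.xI β ++ P.rr β
  | .bl (some _) _ _ _ => P.xT β ++ P.xI β ++ P.rr β ++ (P.zT β ++ (P.pz β).all)

/-- The body is well-formed. -/
def BodyWf (P : Par) (β : Bool) (B : SV → Prog P) (F : List P.V) : Prop :=
  ∀ X F', (∀ x ∈ varsOf P β X, x ∈ F') → (∀ x ∈ F, x ∈ F') →
    (∀ x ∈ F', x ∈ F ∨ ∃ g i, x = .inl (β, g, i)) → (B X).wf ar1 F' = true

variable {β : Bool} {B : SV → Prog P} {F : List P.V}

theorem wf_litP (hF : ∀ g i, .inl (β, g, i) ∉ F) (h : BodyWf P β B F) (b : Bool) :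
    (litP P U β b B).wf ar1 F = true := by
  refine wf_enumP _ (nodup_sk P β) (fun y hy => ?_) _ fun ds hds => ?_
  · obtain ⟨g, i, rfl⟩ := mem_vars_sk hy
    exact hF g i
  · obtain ⟨v, hv, rfl⟩ := shape_sk P hds
    rw [consts_dk]
    refine h _ _ (fun y hy => ?_) (fun y hy => by simp [hy]) fun y hy => ?_
    · rw [vars_sk]
      simp only [varsOf] at hy
      simp only [List.mem_append, List.mem_reverse]
      exact Or.inl (List.mem_append.1 hy)
    · simp only [List.mem_append, List.mem_reverse] at hy
      rcases hy with hy | hy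
      · exact Or.inr (mem_vars_sk hy)
      · exact Or.inl hy

theorem wf_sP (hF : ∀ g i, .inl (β, g, i) ∉ F) (h : BodyWf P β B F) :
    (sP P U β B).wf ar1 F = true := by
  refine wf_enumP _ (nodup_sk P β) (fun y hy => ?_) _ fun ds hds => ?_
  · obtain ⟨g, i, rfl⟩ := mem_vars_sk hy
    exact hF g i
  · obtain ⟨v, hv, rfl⟩ := shape_sk P hds
    rw [consts_dk]
    refine h _ _ (fun y hy => ?_) (fun y hy => by simp [hy]) fun y hy => ?_
    · rw [vars_sk]
      simp only [varsOf] at hy
      simp only [List.mem_append, List.mem_reverse]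
      exact Or.inl (List.mem_append.1 hy)
    · simp only [List.mem_append, List.mem_reverse] at hy
      rcases hy with hy | hy
      · exact Or.inr (mem_vars_sk hy)
      · exact Or.inl hy

theorem wf_bP (j : Option ℕ) (hF : ∀ y ∈ vars (st U P β), y ∉ F)
    (h : ∀ v b ac F', (∀ x ∈ vars (st U P β), x ∈ F') → (∀ x ∈ F, x ∈ F') →
      (∀ x ∈ F', x ∈ F ∨ ∃ g i, x = .inl (β, g, i)) → (B (.bl j v b ac)).wf ar1 F' = true) :
    (bP P U β B j).wf ar1 F = true := by
  refine wf_enumP _ (nodup_st P β) hF _ fun ds hds => ?_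
  obtain ⟨v, hv, b, hb, rfl⟩ := shape_st P hds
  rw [consts_dt]
  refine wf_seqs _ fun s hs => ?_
  obtain ⟨ac, -, rfl⟩ := List.mem_map.1 hs
  refine h v b ac _ (fun y hy => by simp [hy]) (fun y hy => by simp [hy]) fun y hy => ?_
  simp only [List.mem_append, List.mem_reverse] at hy
  rcases hy with hy | hy
  · obtain ⟨g, i, h, -⟩ := mem_vars_st hy
    exact Or.inr ⟨g, i, h⟩
  · exact Or.inl hy

theorem wf_blP (hF : ∀ g i, .inl (β, g, i) ∉ F) (h : BodyWf P β B F) :
    (blP P cs U β B).wf ar1 F = true := by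
  unfold blP
  simp only [Stmt.wf, Bool.and_eq_true]
  constructor
  · refine wf_bP none (fun y hy => ?_) fun v b ac F' h1 h2 h3 => h _ F' ?_ h2 h3
    · obtain ⟨g, i, rfl, -⟩ := mem_vars_st hy
      exact hF g i
    · rw [vars_st] at h1
      exact h1
  · refine wf_enumP _ (nodup_sj P cs β) (fun y hy => ?_) _ fun ds hds => ?_
    · obtain ⟨g, i, rfl, -⟩ := mem_vars_sj hy
      exact hF g i
    · obtain ⟨σ, hσ, rfl⟩ := shape_sj P cs hds
      rw [consts_dj]
      refine wf_bP (some σ) (fun y hy hy' => ?_) fun v b ac F' h1 h2 h3 => h _ F' ?_ ?_ ?_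
      · simp only [List.mem_append, List.mem_reverse] at hy'
        obtain ⟨g, i, rfl, g1, g2⟩ := mem_vars_st hy
        rcases hy' with hy' | hy'
        · obtain ⟨g', i', h', g3⟩ := mem_vars_sj hy'
          simp only [Sum.inl.injEq, Prod.mk.injEq, true_and] at h'
          obtain ⟨rfl, -⟩ := h'
          rcases g3 with g3 | g3
          · exact g2 g3
          · exact absurd (le_trans g3 g1) (by decide)
        · exact hF g i hy'
      · intro y hy
        rw [vars_st] at h1
        simp only [varsOf] at hy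
        rcases List.mem_append.1 hy with hy | hy
        · exact h1 y hy
        · refine h2 y ?_
          rw [vars_sj]
          simp only [List.mem_append, List.mem_reverse]
          exact Or.inl (List.mem_append.1 hy)
      · intro y hy
        exact h2 y (by simp [hy])
      · intro y hy
        rcases h3 y hy with hy | hy
        · simp only [List.mem_append, List.mem_reverse] at hy
          rcases hy with hy | hy
          · obtain ⟨g, i, h, -⟩ := mem_vars_sj hy
            exact Or.inr ⟨g, i, h⟩
          · exact Or.inl hy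
        · exact Or.inr hy

theorem wf_allV (hF : ∀ g i, .inl (β, g, i) ∉ F) (h : BodyWf P β B F) :
    (allV P cs U β B).wf ar1 F = true := by
  unfold allV
  simp only [Stmt.wf, Bool.and_eq_true]
  refine ⟨wf_litP hF h _, wf_litP hF h _, wf_sP hF h, ?_, wf_blP hF h⟩
  exact h .sl F (by simp [varsOf]) (fun _ hx => hx) fun _ hx => Or.inl hx

theorem inS_dk {β : Bool} {v : ℕ} (h : ∀ x ∈ P.xT β ++ P.xI β, x ∈ F) :
    InS F (dk P U β v) := by
  intro y hy
  simp only [dk, List.mem_cons, reduceCtorEq, false_or] at hy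
  exact inS_dx h y hy

theorem inS_dt {β : Bool} {v b : ℕ} (h : ∀ x ∈ P.xT β ++ P.xI β ++ P.rr β, x ∈ F) :
    InS F (dt P U β v b) := by
  intro y hy
  rcases List.mem_append.1 hy with hy | hy
  · exact inS_dk (fun z hz => h z (List.mem_append.2 (Or.inl hz))) y hy
  · simp only [List.mem_cons, reduceCtorEq, false_or] at hy
    exact inS_dx (fun z hz => h z (List.mem_append.2 (Or.inr hz))) y hy

theorem inS_dj {β : Bool} {σ : ℕ} (h : ∀ x ∈ P.zT β ++ (P.pz β).all, x ∈ F) :
    InS F (dj P cs β σ) := by
  intro y hy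
  simp only [dj, List.mem_cons, reduceCtorEq, false_or] at hy
  exact inS_dx h y hy

theorem wf_clF (hF : Scope F) {β γ : Bool} (h1 : ∀ x ∈ P.zT β ++ (P.pz β).all, x ∈ F)
    (h2 : ∀ x ∈ P.xT γ ++ P.xI γ, x ∈ F) (σ v : ℕ) (b : Bool) :
    (clF P cd cs β σ γ v b).wf ar1 F = true := by
  unfold clF
  split
  · exact wf_ff0 hF
  · split
    · exact wf_memF hF (fun x hx => h1 x (List.mem_append.2 (Or.inr hx)))
        (fun x hx => h1 x (List.mem_append.2 (Or.inl hx)))
        (fun x hx => h2 x (List.mem_append.2 (Or.inl hx)))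
        (fun x hx => h2 x (List.mem_append.2 (Or.inr hx))) (P.twin_zx β γ) (P.twin_pz β γ) _ _ _
    · exact wf_ff0 hF

theorem wf_lbF (hF : Scope F) {γ β : Bool} (hγβ : γ ≠ β) {v : ℕ} {b : Bool} {j : Option ℕ}
    {v' b' : ℕ} {ac : Fin 3} (h1 : ∀ x ∈ varsOf P γ (.lit v b), x ∈ F)
    (h2 : ∀ x ∈ varsOf P β (.bl j v' b' ac), x ∈ F) :
    (lbF P cd cs γ v b β j v' b').wf ar1 F = true := by
  simp only [varsOf] at h1
  have h3 : ∀ x ∈ P.xT β ++ P.xI β ++ P.rr β, x ∈ F := by
    cases j with
    | none => exact h2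
    | some σ => exact fun x hx => h2 x (List.mem_append.2 (Or.inl hx))
  unfold lbF
  refine wf_and (wf_cst hF _) (wf_and (wf_eqT hF (sim_dk hγβ _ _) (inS_dk h1)
    (inS_dk fun x hx => h3 x (List.mem_append.2 (Or.inl hx)))) (wf_and (wf_zeroT hF
      (inS_dx fun x hx => h3 x (List.mem_append.2 (Or.inr hx)))) ?_))
  cases j with
  | none => exact wf_tt0 hF
  | some σ => exact wf_clF hF (fun x hx => h2 x (List.mem_append.2 (Or.inr hx))) h1 _ _ _

theorem wf_adjF (hF : Scope F) {X Y : SV} (h1 : ∀ x ∈ varsOf P false X, x ∈ F)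
    (h2 : ∀ x ∈ varsOf P true Y, x ∈ F) : (adjF P cd cs X Y).wf ar1 F = true := by
  have hbl : ∀ {β : Bool} {j : Option ℕ} {v b : ℕ} {ac : Fin 3},
      (∀ x ∈ varsOf P β (.bl j v b ac), x ∈ F) → InS F (dt P U β v b) := by
    intro β j v b ac h
    cases j with
    | none => exact inS_dt h
    | some σ => exact inS_dt fun x hx => h x (List.mem_append.2 (Or.inl hx))
  cases X with
  | lit v b =>
    cases Y with
    | lit v' b' => exact wf_ff0 hF
    | s v' =>
      exact wf_or (wf_eqT hF (sim_dk (by simp) _ _) (inS_dk h1) (inS_dk h2))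
        (wf_sucT hF (sim_dk (by simp) _ _) (inS_dk h1) (inS_dk h2))
    | sl => exact wf_maxT hF (inS_dk h1)
    | bl j v' b' ac => exact wf_lbF (ac := ac) hF (by simp) h1 h2
  | s v =>
    cases Y with
    | lit v' b' =>
      exact wf_or (wf_eqT hF (sim_dk (by simp) _ _) (inS_dk h1) (inS_dk h2))
        (wf_sucT hF (sim_dk (by simp) _ _) (inS_dk h2) (inS_dk h1))
    | s v' => exact wf_ff0 hF
    | sl => exact wf_zeroT hF (inS_dk h1)
    | bl j v' b' ac => exact wf_ff0 hF
  | sl =>
    cases Y with
    | lit v' b' => exact wf_maxT hF (inS_dk h2)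
    | s v' => exact wf_zeroT hF (inS_dk h2)
    | sl => exact wf_ff0 hF
    | bl j v' b' ac => exact wf_ff0 hF
  | bl j v b ac =>
    cases Y with
    | lit v' b' => exact wf_lbF (ac := ac) hF (by simp) h2 h1
    | s v' => exact wf_ff0 hF
    | sl => exact wf_ff0 hF
    | bl j' v' b' ac' =>
      refine wf_and ?_ (wf_or (wf_and (wf_eqT hF (sim_dt (by simp) _ _ _ _) (hbl h1) (hbl h2))
        (wf_cst hF _)) (wf_or (wf_sucT hF (sim_dt (by simp) _ _ _ _) (hbl h1) (hbl h2))
        (wf_sucT hF (sim_dt (by simp) _ _ _ _) (hbl h2) (hbl h1))))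
      cases j with
      | none =>
        cases j' with
        | none => exact wf_tt0 hF
        | some σ => exact wf_ff0 hF
      | some σ =>
        cases j' with
        | none => exact wf_ff0 hF
        | some σ' =>
          exact wf_eqT hF (sim_dj (by simp) _ _)
            (inS_dj fun x hx => h1 x (List.mem_append.2 (Or.inr hx)))
            (inS_dj fun x hx => h2 x (List.mem_append.2 (Or.inr hx)))

theorem wf_wordP : (wordP P cd cs).wf ar1 [] = true := by
  have hnil : ∀ g i, (.inl (false, g, i) : P.V) ∉ ([] : List P.V) := by simp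
  have hsc : ∀ F' : List P.V, (∀ x ∈ F', x ∈ ([] : List P.V) ∨
      ∃ g i, x = .inl (false, g, i)) → Scope F' := by
    intro F' h i hi
    rcases h _ hi with h | ⟨g, j, h⟩
    · simp at h
    · simp at h
  have hB : BodyWf P false (fun _ => .emit tt0) [] := fun X F' _ _ h3 => wf_tt0 (hsc F' h3)
  have hff : (Stmt.emit (ff0 : Fml P.V Unit)).wf ar1 [] = true := wf_ff0 (by
    intro i; simp)
  unfold wordP
  simp only [Stmt.wf, Bool.and_eq_true]
  refine ⟨wf_allV hnil hB, hff, wf_litP hnil hB _, wf_litP hnil hB _, hff, wf_litP hnil hB _,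
    wf_litP hnil hB _, wf_sP hnil hB, hff, ?_⟩
  refine wf_allV hnil fun X F' h1 h2 h3 => wf_allV (fun g i hgi => ?_)
    fun Y F'' k1 k2 k3 => ?_
  · rcases h3 _ hgi with h | ⟨g, j, h⟩
    · simp at h
    · simp at h
  · refine wf_adjF (fun i hi => ?_) (fun x hx => k2 x (h1 x hx)) k1
    rcases k3 _ hi with h | ⟨g, j, h⟩
    · exact hsc F' h3 i h
    · simp at h

end

end Pool.Agent.Lib.MP_75fd85_lc
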