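import Pool.Agent.Lib.MP_75fd85_lc.Algo
import Pool.Agent.Lib.MP_75fd85_lc.Iso
import Pool.Agent.Lib.MP_75fd85_lc.Post
import Pool.Agent.Lib.MP_75fd85_lc.Prog

/-! # The reduction -/

namespace Pool.Agent.Lib.MP_75fd85_lc

set_option linter.unusedSectionVars false
set_option linter.unusedSimpArgs false

open Pool.Agent.Lib.PolyTM Pool.Agent.Lib.PolyTM.Tab Function Turing

theorem poly_pow_bound (p : Polynomial ℕ) : ∃ k, ∀ N ≥ 2, p.eval N ≤ N ^ k := by
  induction p using Polynomial.induction_on' with
  | add p q hp hq =>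
    obtain ⟨k, hk⟩ := hp
    obtain ⟨l, hl⟩ := hq
    refine ⟨k + l + 1, fun N hN => ?_⟩
    rw [Polynomial.eval_add]
    have h1 := (hk N hN).trans (Nat.pow_le_pow_right (by omega) (show k ≤ k + l by omega))
    have h2 := (hl N hN).trans (Nat.pow_le_pow_right (by omega) (show l ≤ k + l by omega))
    rw [pow_succ]
    nlinarith
  | monomial n a =>
    refine ⟨a + n, fun N hN => ?_⟩
    rw [Polynomial.eval_monomial, pow_add]
    refine Nat.mul_le_mul_right _ ?_
    calc a ≤ 2 ^ a := a.lt_two_pow_self.le
      _ ≤ N ^ a := Nat.pow_le_pow_left hN a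

/-! ### Instances as words -/

theorem map_get_finRange {V : Type} (l : List V) :
    (List.finRange l.length).map l.get = l := by
  apply List.ext_getElem <;> simp

theorem instWord_eq {V : Type} (G : SimpleGraph V) (l : List V) (u v : ℕ)
    (hu : u < l.length) (hv : v < l.length) :
    instWord G l u v = instanceWord (G.comap l.get) ⟨u, hu⟩ ⟨v, hv⟩ := by
  classical
  unfold instWord instanceWord
  have h : ∀ f : V → V → Bool, (l.flatMap fun x => l.map fun y => f x y) =
      (List.finRange l.length).flatMap fun i => (List.finRange l.length).map fun j =>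
        f (l.get i) (l.get j) := by
    intro f
    conv_lhs => rw [← map_get_finRange l]
    rw [List.flatMap_map]
    refine List.flatMap_congr fun i _ => ?_
    rw [List.map_map]
    simp [Function.comp_def]
  rw [h]
  rfl

/-! ### Literals of the schemes -/

section Lits

variable {K : Type} {Γ : K → Type} {S : Type} [DecidableEq K] [Fintype K]
  [∀ k, Fintype (Γ k)] [Fintype S]

theorem schemes_lits (act : S → Act K Γ S) (start rej : S) (k0 : K) (g : Bool ⊕ Bool → Γ k0)
    (c : Sc K Γ S) (hc : c ∈ schemes act start rej k0 g) :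
    ∃ l ∈ c.lits, ∀ β, l.v ≠ .dm β := by
  classical
  unfold schemes at hc
  simp only [List.mem_cons, List.mem_append, List.mem_flatMap, Finset.mem_toList,
    Finset.mem_univ, true_and] at hc
  have hst : ∀ s : S, ∀ β, (VT.st s : VT K Γ S) ≠ .dm β := by simp
  rcases hc with rfl | hc | ⟨s, hc | hc | hc | ⟨k, hc | hc⟩⟩
  · exact ⟨_, List.mem_cons_self, hst _⟩
  · simp only [inS, List.mem_append, List.mem_cons, List.not_mem_nil, or_false, List.mem_map,
      Finset.mem_toList, Finset.mem_univ, Finset.mem_filter, true_and] at hc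
    rcases hc with (((rfl | rfl | rfl | rfl | rfl | rfl) | ⟨k, rfl⟩) | ⟨k, hk, rfl⟩)
    all_goals exact ⟨_, List.mem_cons_self, by simp [il, nl]⟩
  · unfold stS at hc
    split at hc
    · rw [List.mem_singleton] at hc; subst hc
      exact ⟨_, List.mem_cons_self, hst _⟩
    · rw [List.mem_singleton] at hc; subst hc
      exact ⟨_, List.mem_cons_self, hst _⟩
    · rw [List.mem_map] at hc
      obtain ⟨o, -, rfl⟩ := hc
      exact ⟨_, List.mem_cons_self, hst _⟩
  · unfold puS at hc
    split at hc
    · simp only [List.mem_cons, List.not_mem_nil, or_false] at hc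
      rcases hc with rfl | rfl
      all_goals exact ⟨_, List.mem_cons_self, hst _⟩
    · simp at hc
  · unfold poS at hc
    split at hc
    · simp only [List.mem_cons, List.mem_append, List.not_mem_nil, or_false, List.mem_map,
        Finset.mem_toList, Finset.mem_univ, true_and] at hc
      rcases hc with ⟨γ, rfl⟩ | (rfl | rfl) | ⟨o, rfl⟩
      all_goals exact ⟨_, List.mem_cons_self, hst _⟩
    · simp at hc
  · unfold hdS at hc
    split at hc
    · simp at hc
    · rw [List.mem_singleton] at hc; subst hc
      exact ⟨_, List.mem_cons_self, hst _⟩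
  · unfold ceS at hc
    split at hc
    · simp at hc
    · rw [List.mem_map] at hc
      obtain ⟨o, -, rfl⟩ := hc
      exact ⟨_, List.mem_cons_self, hst _⟩

end Lits

/-! ### Runs of the verifier -/

theorem verifier_run (MV : TM2ComputableAux (Bool ⊕ Bool) Bool) (x y : List Bool) (b : Bool)
    (T : ℕ) (h : Halts MV (x.map Sum.inl ++ y.map Sum.inr) [b] T) :
    ∃ stk, ∃ n ≤ (∑ l : MV.tm.Λ, Micro.depth (MV.tm.m l)) * T + 1, ∀ n' ≥ n,
      run (Micro.act MV.tm.m MV.tm.k₁ (MV.outputAlphabet.invFun true))
        (Micro.mk MV.tm.m (MV.tm.m MV.tm.main) MV.tm.initialState) MV.tm.k₀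
        MV.inputAlphabet.invFun x y n' =
      ⟨if b then .inr true else .inr false, stk⟩ := by
  obtain ⟨h⟩ := h
  obtain ⟨n, hn, hv⟩ := micro_verdict MV.tm (MV.outputAlphabet.invFun true) _ _ T h
  refine ⟨(haltList MV.tm ([b].map MV.outputAlphabet.invFun)).stk, n, hn, fun n' hn' => ?_⟩
  obtain ⟨h1, h2⟩ := hv n' hn'
  have hc : c0 (Micro.mk MV.tm.m (MV.tm.m MV.tm.main) MV.tm.initialState) MV.tm.k₀
      MV.inputAlphabet.invFun x y = Micro.emb MV.tm.m (initList MV.tm
        ((x.map Sum.inl ++ y.map Sum.inr).map MV.inputAlphabet.invFun)) := by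
    ext1
    · rfl
    · funext k
      by_cases hk : k = MV.tm.k₀
      · subst hk
        simp [c0, Micro.emb, initList]
      · simp [c0, Micro.emb, initList, hk]
  have h3 : run (Micro.act MV.tm.m MV.tm.k₁ (MV.outputAlphabet.invFun true))
        (Micro.mk MV.tm.m (MV.tm.m MV.tm.main) MV.tm.initialState) MV.tm.k₀
        MV.inputAlphabet.invFun x y n' =
      (mstep (Micro.act MV.tm.m MV.tm.k₁ (MV.outputAlphabet.invFun true)))^[n']
        (Micro.emb MV.tm.m (initList MV.tm
        ((x.map Sum.inl ++ y.map Sum.inr).map MV.inputAlphabet.invFun))) := by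
    rw [run, hc]
  rw [h3]
  ext1
  · rw [h1]
    cases b
    · have : MV.outputAlphabet.invFun false ≠ MV.outputAlphabet.invFun true := by
        intro hh
        exact absurd (MV.outputAlphabet.symm.injective hh) (by simp)
      simp [this]
    · simp
  · rw [h2]

end Pool.Agent.Lib.MP_75fd85_lc
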