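import Pool.Agent.Lib.MP_75fd85_lc.Form
import Pool.Agent.Lib.MP_75fd85_lc.Main

/-! # Symbolic vertices and the adjacency formula -/

namespace Pool.Agent.Lib.MP_75fd85_lc

set_option linter.unusedSectionVars false
set_option linter.unusedSimpArgs false

open Pool.Agent.Lib.PolyTM Pool.Agent.Lib.PolyTM.Tab Function

/-- Digit variables: a family, a group and an index. -/
abbrev Xv (B : ℕ) : Type := Bool × Fin 8 × Fin (B + 1)

/-- Parameters: lengths of the groups of digits. -/
structure Par where
  m1 : ℕ
  m2 : ℕ
  c : ℕ

namespace Par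

variable (P : Par)

/-- Number of digits of times and positions. -/
def D : ℕ := P.m1 + P.m2 + 2

/-- Bound for the lengths of groups. -/
def B : ℕ := P.m1 + P.m2 + 2 + P.c

abbrev V : Type := Vr (Xv P.B)

/-- A group of variables. -/
def grp (β : Bool) (g : Fin 8) (len : ℕ) : List P.V :=
  ((List.finRange (P.B + 1)).take len).map fun i => .inl (β, g, i)

def xT (β : Bool) : List P.V := P.grp β 0 P.D
def xI (β : Bool) : List P.V := P.grp β 1 P.D
def zT (β : Bool) : List P.V := P.grp β 2 P.D
def rr (β : Bool) : List P.V := P.grp β 3 P.c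
def pz (β : Bool) : PosV (Xv P.B) :=
  ⟨.inl (β, 4, 0), P.grp β 5 P.m1, P.grp β 6 P.m2, .inl (β, 7, 0)⟩

theorem mem_grp {β : Bool} {g : Fin 8} {len : ℕ} {x : P.V} (h : x ∈ P.grp β g len) :
    ∃ i, x = .inl (β, g, i) := by
  obtain ⟨i, -, rfl⟩ := List.mem_map.1 h
  exact ⟨i, rfl⟩

theorem grp_length (β : Bool) (g : Fin 8) {len : ℕ} (h : len ≤ P.B + 1) :
    (P.grp β g len).length = len := by
  simp [grp]
  omega

theorem grp_nodup (β : Bool) (g : Fin 8) (len : ℕ) : (P.grp β g len).Nodup := by
  refine List.Nodup.map ?_ ((List.nodup_finRange _).sublist (List.take_sublist _ _))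
  intro i j h
  simpa using h

theorem xT_length (β : Bool) : (P.xT β).length = P.D := P.grp_length _ _ (by simp [D, B]; omega)
theorem xI_length (β : Bool) : (P.xI β).length = P.D := P.grp_length _ _ (by simp [D, B]; omega)
theorem zT_length (β : Bool) : (P.zT β).length = P.D := P.grp_length _ _ (by simp [D, B]; omega)
theorem rr_length (β : Bool) : (P.rr β).length = P.c := P.grp_length _ _ (by simp [B]; omega)
theorem mid_length (β : Bool) : (P.pz β).mid.length = P.m2 :=
  P.grp_length _ _ (by simp [B]; omega)
theorem pz_length (β : Bool) : (P.pz β).all.length = P.D := by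
  simp only [PosV.all, pz, List.length_cons, List.length_append, List.length_nil]
  rw [P.grp_length _ _ (by simp [B]; omega), P.grp_length _ _ (by simp [B]; omega)]
  simp only [D]
  omega

theorem mem_pz {β : Bool} {x : P.V} (h : x ∈ (P.pz β).all) :
    ∃ g i, x = .inl (β, g, i) ∧ (4 : Fin 8) ≤ g := by
  simp only [PosV.all, pz, List.mem_cons, List.mem_append, List.not_mem_nil, or_false] at h
  rcases h with h | h | h | h
  · exact ⟨4, 0, h, le_rfl⟩
  · obtain ⟨i, h⟩ := P.mem_grp h
    exact ⟨5, i, h, by decide⟩
  · obtain ⟨i, h⟩ := P.mem_grp h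
    exact ⟨6, i, h, by decide⟩
  · exact ⟨7, 0, h, by decide⟩

theorem dv_grp (β : Bool) (g : Fin 8) (len : ℕ) : DV (P.grp β g len) := fun x hx => by
  obtain ⟨i, h⟩ := P.mem_grp hx
  exact ⟨_, h⟩

theorem dv_pz (β : Bool) : DV (P.pz β).all := fun x hx => by
  obtain ⟨g, i, h, -⟩ := P.mem_pz hx
  exact ⟨_, h⟩

theorem twin_grp {β β' : Bool} {g g' : Fin 8} {len len' : ℕ}
    (hl : (P.grp β g len).length = (P.grp β' g' len').length) (h : (β, g) ≠ (β', g')) :
    Twin (P.grp β g len) (P.grp β' g' len') := by
  refine ⟨hl, P.dv_grp _ _ _, P.dv_grp _ _ _, fun x hx hx' => ?_⟩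
  obtain ⟨i, rfl⟩ := P.mem_grp hx
  obtain ⟨j, hj⟩ := P.mem_grp hx'
  simp only [Sum.inl.injEq, Prod.mk.injEq] at hj
  exact h (by simp [hj.1, hj.2.1])

theorem twin_pz (β γ : Bool) : Twin (P.pz β).all (P.xI γ) := by
  refine ⟨by rw [P.pz_length, P.xI_length], P.dv_pz _, P.dv_grp _ _ _, fun x hx hx' => ?_⟩
  obtain ⟨g, i, rfl, hg⟩ := P.mem_pz hx
  obtain ⟨j, hj⟩ := P.mem_grp hx'
  simp only [Sum.inl.injEq, Prod.mk.injEq] at hj
  rw [hj.2.1] at hg
  exact absurd hg (by decide)

theorem twin_zx (β γ : Bool) : Twin (P.zT β) (P.xT γ) :=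
  P.twin_grp (by rw [← zT, ← xT, P.zT_length, P.xT_length]) (by simp)

theorem pz_nodup (β : Bool) : (P.pz β).all.Nodup := by
  simp only [PosV.all, pz]
  rw [List.nodup_cons, List.nodup_append, List.nodup_append]
  refine ⟨?_, P.grp_nodup _ _ _, ⟨P.grp_nodup _ _ _, by simp, ?_⟩, ?_⟩
  · simp only [List.mem_append, List.mem_singleton, not_or]
    refine ⟨fun h => ?_, fun h => ?_, by simp⟩
    · obtain ⟨i, h⟩ := P.mem_grp h
      simp at h
    · obtain ⟨i, h⟩ := P.mem_grp h
      simp at h
  · intro x hx y hy
    obtain ⟨i, rfl⟩ := P.mem_grp hx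
    simp only [List.mem_singleton] at hy
    rw [hy]
    simp
  · intro x hx y hy
    obtain ⟨i, rfl⟩ := P.mem_grp hx
    simp only [List.mem_append, List.mem_singleton] at hy
    rcases hy with hy | hy
    · obtain ⟨j, rfl⟩ := P.mem_grp hy
      simp
    · rw [hy]
      simp

theorem append_nodup {β : Bool} {g g' : Fin 8} {len len' : ℕ} (h : g ≠ g') :
    (P.grp β g len ++ P.grp β g' len').Nodup := by
  rw [List.nodup_append]
  refine ⟨P.grp_nodup _ _ _, P.grp_nodup _ _ _, fun x hx y hy => ?_⟩
  obtain ⟨i, rfl⟩ := P.mem_grp hx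
  obtain ⟨j, rfl⟩ := P.mem_grp hy
  intro hxy
  simp only [Sum.inl.injEq, Prod.mk.injEq] at hxy
  exact h hxy.2.1

theorem zp_nodup (β : Bool) : (P.zT β ++ (P.pz β).all).Nodup := by
  rw [List.nodup_append]
  refine ⟨P.grp_nodup _ _ _, P.pz_nodup _, fun x hx y hy => ?_⟩
  obtain ⟨i, rfl⟩ := P.mem_grp hx
  obtain ⟨g, j, rfl, hg⟩ := P.mem_pz hy
  intro hxy
  simp only [Sum.inl.injEq, Prod.mk.injEq] at hxy
  rw [← hxy.2.1] at hg
  exact absurd hg (by decide)

end Par

/-- Symbolic vertices. -/
inductive SV
  | lit (v : ℕ) (b : Bool)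
  | s (v : ℕ)
  | sl
  | bl (j : Option ℕ) (v b : ℕ) (a : Fin 3)

section

variable {K : Type} {Γ : K → Type} {S : Type} {U : ℕ} (P : Par) (cd : VT K Γ S ≃ Fin U)
  (cs : List (Sc K Γ S))

/-- Digits of a variable. -/
def dk (U : ℕ) (β : Bool) (v : ℕ) : List (Dg P.V) := .c U v :: dx (P.xT β ++ P.xI β)
/-- Digits of a layer. -/
def dt (U : ℕ) (β : Bool) (v b : ℕ) : List (Dg P.V) := dk P U β v ++ .c 2 b :: dx (P.rr β)
/-- Digits of a clause. -/
def dj (β : Bool) (σ : ℕ) : List (Dg P.V) :=
  .c (sc4 cs).length σ :: dx (P.zT β ++ (P.pz β).all)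

/-- Membership of a literal in a clause. -/
noncomputable def clF (β : Bool) (σ : ℕ) (γ : Bool) (v : ℕ) (b : Bool) : Fml P.V Unit :=
  match (sc4 cs)[σ]? with
  | none => ff0
  | some q => if h : v < U then
      memF q (P.zT β) (P.pz β) (cd.symm ⟨v, h⟩) (P.xT γ) (P.xI γ) b else ff0

/-- Literal vertex of family `γ`, thick path vertex of family `β`. -/
noncomputable def lbF (γ : Bool) (v : ℕ) (b : Bool) (β : Bool) (j : Option ℕ) (v' b' : ℕ) :
    Fml P.V Unit :=
  .and (cst (decide (b.toNat = b'))) (.and (eqT (dk P U γ v) (dk P U β v'))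
    (.and (zeroT (dx (P.rr β))) (match j with
      | none => tt0
      | some σ => clF P cd cs β σ γ v b)))

/-- Equality of clause indices. -/
def jF : Option ℕ → Option ℕ → Fml P.V Unit
  | none, none => tt0
  | some σ, some σ' => eqT (dj P cs false σ) (dj P cs true σ')
  | _, _ => ff0

/-- The adjacency formula. -/
noncomputable def adjF : SV → SV → Fml P.V Unit
  | .lit v _, .s w => .or (eqT (dk P U false v) (dk P U true w))
      (sucT (dk P U false v) (dk P U true w))
  | .s w, .lit v _ => .or (eqT (dk P U false w) (dk P U true v))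
      (sucT (dk P U true v) (dk P U false w))
  | .lit v _, .sl => maxT (dk P U false v)
  | .sl, .lit v _ => maxT (dk P U true v)
  | .s w, .sl => zeroT (dk P U false w)
  | .sl, .s w => zeroT (dk P U true w)
  | .lit v b, .bl j v' b' _ => lbF P cd cs false v b true j v' b'
  | .bl j v' b' _, .lit v b => lbF P cd cs true v b false j v' b'
  | .bl j v b a, .bl j' v' b' a' => .and (jF P cs j j')
      (.or (.and (eqT (dt P U false v b) (dt P U true v' b')) (cst (decide (a ≠ a'))))
        (.or (sucT (dt P U false v b) (dt P U true v' b'))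
          (sucT (dt P U true v' b') (dt P U false v b))))
  | _, _ => ff0

/-- Number of variables of the formula. -/
abbrev nn (U N : ℕ) (P : Par) : ℕ := U * (N ^ P.D * N ^ P.D)
/-- Number of clauses of the formula. -/
abbrev mm (cs : List (Sc K Γ S)) (N : ℕ) (P : Par) : ℕ :=
  (sc4 cs).length * (N ^ P.D * N ^ P.D)

/-- Symbolic clause index. -/
def JRel (N : ℕ) (e : P.V → ℕ) (β : Bool) : Option ℕ → Option (Fin (mm cs N P)) → Prop
  | none, none => True
  | some σ, some c => σ < (sc4 cs).length ∧ c.val = num N e (dj P cs β σ)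
  | _, _ => False

/-- The symbolic vertex `X` of family `β` denotes `x` in the environment `e`. -/
def Rel (N : ℕ) (e : P.V → ℕ) (β : Bool) :
    SV → Vert (nn U N P) (mm cs N P) (N ^ P.c) → Prop
  | .lit v b, .lit k b' => v < U ∧ b = b' ∧ k.val = num N e (dk P U β v)
  | .s v, .s i => v < U ∧ i.val = num N e (dk P U β v)
  | .sl, .s i => i.val = nn U N P
  | .bl j v b a, .blob j' t a' => v < U ∧ b < 2 ∧ a = a' ∧ t.val = num N e (dt P U β v b) ∧
      JRel P cs N e β j j'
  | _, _ => False

end

section Eval

variable {K : Type} {Γ : K → Type} {S : Type} {U : ℕ} {P : Par} {cd : VT K Γ S ≃ Fin U}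
  {cs : List (Sc K Γ S)} {N : ℕ} {a : Arr Unit} {e : P.V → ℕ} {x : List Bool}

theorem num_dk (β : Bool) (v : ℕ) : num N e (dk P U β v) =
    idx (N ^ P.D) v (nv N e (P.xT β)) (nv N e (P.xI β)) := by
  rw [dk, num, radP_dx, ← nv, nv_append, List.length_append, P.xT_length, P.xI_length, idx,
    pow_add]
  rfl

theorem num_dj (β : Bool) (σ : ℕ) : num N e (dj P cs β σ) =
    idx (N ^ P.D) σ (nv N e (P.zT β)) (nv N e (P.pz β).all) := by
  rw [dj, num, radP_dx, ← nv, nv_append, List.length_append, P.zT_length, P.pz_length, idx,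
    pow_add]
  rfl

theorem radP_dk (β : Bool) (v : ℕ) : radP N (dk P U β v) = nn U N P := by
  rw [dk, radP_cons, radP_dx, List.length_append, P.xT_length, P.xI_length, pow_add]
  rfl

theorem num_dt (β : Bool) (v b : ℕ) : num N e (dt P U β v b) =
    (2 * num N e (dk P U β v) + b) * N ^ P.c + nv N e (P.rr β) := by
  rw [dt, num_append, radP_cons, num, radP_dx, P.rr_length, ← nv]
  simp only [Dg.rad, Dg.val]
  ring

theorem dvar_dk (β : Bool) (v : ℕ) : Dvar (dk P U β v) := by
  intro y hy
  simp only [dk, List.mem_cons, reduceCtorEq, false_or] at hy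
  refine dvar_dx (vs := P.xT β ++ P.xI β) (fun z hz => ?_) y hy
  rcases List.mem_append.1 hz with hz | hz
  · exact P.dv_grp _ _ _ z hz
  · exact P.dv_grp _ _ _ z hz

theorem good_dk (he : ∀ y, e y < N) (β : Bool) {v : ℕ} (hv : v < U) :
    Good N e (dk P U β v) := by
  intro d hd
  rcases List.mem_cons.1 hd with rfl | hd
  · exact hv
  · exact good_dx he _ d hd

theorem dvar_dt (β : Bool) (v b : ℕ) : Dvar (dt P U β v b) := by
  intro y hy
  rcases List.mem_append.1 hy with hy | hy
  · exact dvar_dk β v y hy
  · simp only [List.mem_cons, reduceCtorEq, false_or] at hy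
    exact dvar_dx (P.dv_grp _ _ _) y hy

theorem good_dt (he : ∀ y, e y < N) (β : Bool) {v b : ℕ} (hv : v < U) (hb : b < 2) :
    Good N e (dt P U β v b) := by
  intro d hd
  rcases List.mem_append.1 hd with hd | hd
  · exact good_dk he β hv d hd
  · rcases List.mem_cons.1 hd with rfl | hd
    · exact hb
    · exact good_dx he _ d hd

theorem good_dj (he : ∀ y, e y < N) (β : Bool) {σ : ℕ} (hσ : σ < (sc4 cs).length) :
    Good N e (dj P cs β σ) := by
  intro d hd
  rcases List.mem_cons.1 hd with rfl | hd
  · exact hσ
  · exact good_dx he _ d hd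

theorem sim_append {ds1 ds1' ds2 ds2' : List (Dg P.V)} (h : List.Forall₂ Sim ds1 ds1')
    (h' : List.Forall₂ Sim ds2 ds2') : List.Forall₂ Sim (ds1 ++ ds2) (ds1' ++ ds2') := by
  induction h with
  | nil => exact h'
  | cons h1 _ ih => exact .cons h1 ih

theorem sim_dk {β γ : Bool} (h : β ≠ γ) (v w : ℕ) :
    List.Forall₂ Sim (dk P U β v) (dk P U γ w) := by
  refine .cons rfl ?_
  simp only [dx, List.map_append]
  exact sim_append
    (P.twin_grp (by rw [← Par.xT, ← Par.xT, P.xT_length, P.xT_length]) (by simp [h])).sim
    (P.twin_grp (by rw [← Par.xI, ← Par.xI, P.xI_length, P.xI_length]) (by simp [h])).sim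

theorem sim_dt {β γ : Bool} (h : β ≠ γ) (v w b b' : ℕ) :
    List.Forall₂ Sim (dt P U β v b) (dt P U γ w b') := by
  refine sim_append (sim_dk h v w) (.cons rfl ?_)
  exact (P.twin_grp (by rw [← Par.rr, ← Par.rr, P.rr_length, P.rr_length]) (by simp [h])).sim

theorem pz_sim {β γ : Bool} (h : β ≠ γ) : Twin (P.pz β).all (P.pz γ).all := by
  refine ⟨by rw [P.pz_length, P.pz_length], P.dv_pz _, P.dv_pz _, fun y hy hy' => ?_⟩
  obtain ⟨g, i, rfl, -⟩ := P.mem_pz hy
  obtain ⟨g', i', h', -⟩ := P.mem_pz hy'
  simp only [Sum.inl.injEq, Prod.mk.injEq] at h'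
  exact h h'.1

theorem sim_dj {β γ : Bool} (h : β ≠ γ) (σ σ' : ℕ) :
    List.Forall₂ Sim (dj P cs β σ) (dj P cs γ σ') := by
  refine .cons rfl ?_
  simp only [dx, List.map_append]
  exact sim_append
    (P.twin_grp (by rw [← Par.zT, ← Par.zT, P.zT_length, P.zT_length]) (by simp [h])).sim
    (pz_sim h).sim

theorem eval_eq_dk (he : ∀ y, e y < N) {β γ : Bool} (h : β ≠ γ) {v w : ℕ} (hv : v < U)
    (hw : w < U) : (eqT (dk P U β v) (dk P U γ w) : Fml P.V Unit).eval N a e = true ↔
      num N e (dk P U β v) = num N e (dk P U γ w) :=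
  (eval_eqT (sim_dk h v w) (good_dk he β hv) (good_dk he γ hw)).1

theorem eval_suc_dk (he : ∀ y, e y < N) {β γ : Bool} (h : β ≠ γ) {v w : ℕ} (hv : v < U)
    (hw : w < U) : (sucT (dk P U β v) (dk P U γ w) : Fml P.V Unit).eval N a e = true ↔
      num N e (dk P U β v) + 1 = num N e (dk P U γ w) :=
  eval_sucT (sim_dk h v w) (dvar_dk β v) (dvar_dk γ w) (good_dk he β hv) (good_dk he γ hw)

theorem eval_eq_dt (he : ∀ y, e y < N) {β γ : Bool} (h : β ≠ γ) {v w b b' : ℕ} (hv : v < U)
    (hw : w < U) (hb : b < 2) (hb' : b' < 2) :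
    (eqT (dt P U β v b) (dt P U γ w b') : Fml P.V Unit).eval N a e = true ↔
      num N e (dt P U β v b) = num N e (dt P U γ w b') :=
  (eval_eqT (sim_dt h v w b b') (good_dt he β hv hb) (good_dt he γ hw hb')).1

theorem eval_suc_dt (he : ∀ y, e y < N) {β γ : Bool} (h : β ≠ γ) {v w b b' : ℕ} (hv : v < U)
    (hw : w < U) (hb : b < 2) (hb' : b' < 2) :
    (sucT (dt P U β v b) (dt P U γ w b') : Fml P.V Unit).eval N a e = true ↔
      num N e (dt P U β v b) + 1 = num N e (dt P U γ w b') :=
  eval_sucT (sim_dt h v w b b') (dvar_dt β v b) (dvar_dt γ w b') (good_dt he β hv hb)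
    (good_dt he γ hw hb')

variable (hN : N = x.length + 2)
  (ha : ∀ t, t < N → a () [t] = (x ++ [true, true]).getD t false) (he : ∀ y, e y < N)

/-- Meaning of the position predicates. -/
abbrev AmP (P : Par) (N : ℕ) (x : List Bool) : GW → ℕ → Prop :=
  Am (Pn N P.D) (Pn N P.D + N ^ (P.m2 + 1)) x

include hN ha he

theorem eval_clF {β γ : Bool} {σ v : ℕ} (b : Bool) (hσ : σ < (sc4 cs).length) (hv : v < U)
    (k : Fin (nn U N P)) (c : Fin (mm cs N P)) (hk : k.val = num N e (dk P U γ v))
    (hc : c.val = num N e (dj P cs β σ)) :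
    (clF P cd cs β σ γ v b).eval N a e = true ↔
      (k, b) ∈ clauses cd cs (N ^ P.D) (AmP P N x) c := by
  have h1 : nv N e (P.xT γ) < N ^ P.D := by have := nv_lt he (P.xT γ); rwa [P.xT_length] at this
  have h2 : nv N e (P.xI γ) < N ^ P.D := by have := nv_lt he (P.xI γ); rwa [P.xI_length] at this
  have h3 : nv N e (P.zT β) < N ^ P.D := by have := nv_lt he (P.zT β); rwa [P.zT_length] at this
  have h4 : nv N e (P.pz β).all < N ^ P.D := by
    have := nv_lt he (P.pz β).all; rwa [P.pz_length] at this
  rw [num_dk] at hk
  rw [num_dj] at hc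
  rw [mem_clauses]
  simp only
  rw [hk, hc, idx_div h1 h2, idx_mid h1 h2, idx_mod h2, idx_div h3 h4, idx_mid h3 h4,
    idx_mod h4, clF, List.getElem?_eq_getElem hσ]
  simp only [dif_pos hv, Option.some.injEq]
  rw [eval_memF hN ha he (P.zT_length β) (P.pz_length β) (P.dv_grp _ _ _) (P.dv_pz _) _ _ _
    (P.twin_zx β γ) (P.twin_pz β γ), P.mid_length]
  constructor
  · intro h
    exact ⟨_, cd.symm ⟨v, hv⟩, rfl, by simp, h⟩
  · rintro ⟨_, v', rfl, hv', h⟩
    have : v' = cd.symm ⟨v, hv⟩ := by
      rw [Equiv.eq_symm_apply]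
      exact Fin.ext hv'
    rw [← this]
    exact h

theorem eval_lbF {γ β : Bool} (hγβ : γ ≠ β) {v : ℕ} {b : Bool} {j : Option ℕ} {v' b' : ℕ}
    {ac : Fin 3} {k : Fin (nn U N P)} {bb : Bool} {j' : Option (Fin (mm cs N P))}
    {t : Fin (2 * nn U N P * N ^ P.c)} {a' : Fin 3}
    (h1 : Rel P cs N e γ (.lit v b) (.lit k bb : Vert (nn U N P) (mm cs N P) (N ^ P.c)))
    (h2 : Rel P cs N e β (.bl j v' b' ac)
      (.blob j' t a' : Vert (nn U N P) (mm cs N P) (N ^ P.c))) :
    (lbF P cd cs γ v b β j v' b').eval N a e = true ↔
      (t.val = pos (N ^ P.c) k bb ∧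
        ∀ c ∈ j', (k, bb) ∈ clauses cd cs (N ^ P.D) (AmP P N x) c) := by
  simp only [Rel] at h1 h2
  obtain ⟨hv, rfl, hk⟩ := h1
  obtain ⟨hv', hb', -, ht, hj⟩ := h2
  unfold lbF
  have hrd : DV (P.rr β) := P.dv_grp _ _ _
  rw [Fml.eval_and, Fml.eval_and, Fml.eval_and, eval_cst, decide_eq_true_eq,
    eval_eq_dk he hγβ hv hv', eval_zero hrd he, ht, num_dt, ← hk, pos]
  have hr : nv N e (P.rr β) < N ^ P.c := by have := nv_lt he (P.rr β); rwa [P.rr_length] at this
  have hkey : ((2 * num N e (dk P U β v') + b') * N ^ P.c + nv N e (P.rr β) =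
      (2 * k.val + b.toNat) * N ^ P.c) ↔
      (b.toNat = b' ∧ k.val = num N e (dk P U β v') ∧ nv N e (P.rr β) = 0) := by
    constructor
    · intro h
      have hbt : b.toNat < 2 := b.toNat_lt
      have h5 : (2 * num N e (dk P U β v') + b') = 2 * k.val + b.toNat := by
        rcases Nat.lt_trichotomy (2 * num N e (dk P U β v') + b') (2 * k.val + b.toNat) with
          h6 | h6 | h6
        · have := Nat.mul_le_mul_right (N ^ P.c) h6
          nlinarith
        · exact h6
        · have := Nat.mul_le_mul_right (N ^ P.c) h6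
          nlinarith
      rw [h5] at h
      omega
    · rintro ⟨h5, h6, h7⟩
      rw [h5, h6, h7]
      ring
  have hlast : (match j with
      | none => (tt0 : Fml P.V Unit)
      | some σ => clF P cd cs β σ γ v b).eval N a e = true ↔
      ∀ c ∈ j', (k, b) ∈ clauses cd cs (N ^ P.D) (AmP P N x) c := by
    cases j with
    | none =>
      cases j' with
      | none => simp [eval_tt0]
      | some c => exact absurd hj (by simp [JRel])
    | some σ =>
      cases j' with
      | none => exact absurd hj (by simp [JRel])
      | some c =>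
        simp only [JRel] at hj
        simp only [Option.mem_def, Option.some.injEq, forall_eq']
        exact eval_clF hN ha he b hj.1 hv k c hk hj.2
  rw [hkey, hlast]
  tauto

theorem eval_adjF {X Y : SV} {u w : Vert (nn U N P) (mm cs N P) (N ^ P.c)}
    (hU : 0 < U)
    (h1 : Rel P cs N e false X u) (h2 : Rel P cs N e true Y w) :
    (adjF P cd cs X Y).eval N a e = true ↔
      (satGraph (N ^ P.c) (clauses cd cs (N ^ P.D) (AmP P N x))).Adj u w := by
  have hN0 : 0 < N := by omega
  have hnn : 0 < nn U N P := by
    unfold nn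
    have := pow_pos hN0 P.D
    positivity
  have hlt : ∀ β v, v < U → num N e (dk P U β v) < nn U N P := by
    intro β v hv
    have := num_lt (good_dk (P := P) he β hv)
    rwa [radP_dk] at this
  cases X with
  | lit v b =>
    cases u with
    | s i => exact absurd h1 (by simp [Rel])
    | blob j t a' => exact absurd h1 (by simp [Rel])
    | lit k bb =>
      cases Y with
      | lit v' b' =>
        cases w with
        | s i => exact absurd h2 (by simp [Rel])
        | blob j t a' => exact absurd h2 (by simp [Rel])
        | lit k' bb' =>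
          simp only [adjF, eval_ff0, Bool.false_eq_true, false_iff]
          exact adj_lit_lit _ _ _ _
      | s v' =>
        cases w with
        | lit k' bb' => exact absurd h2 (by simp [Rel])
        | blob j t a' => exact absurd h2 (by simp [Rel])
        | s i =>
          simp only [Rel] at h1 h2
          rw [adjF, Fml.eval_or, eval_eq_dk he (by simp) h1.1 h2.1,
            eval_suc_dk he (by simp) h1.1 h2.1, adj_lit_s, h1.2.2, h2.2]
          refine or_congr eq_comm eq_comm
      | sl =>
        cases w with
        | lit k' bb' => exact absurd h2 (by simp [Rel])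
        | blob j t a' => exact absurd h2 (by simp [Rel])
        | s i =>
          simp only [Rel] at h1 h2
          rw [adjF, eval_maxT (dvar_dk _ _) (good_dk he _ h1.1), radP_dk, adj_lit_s, h1.2.2, h2]
          have := hlt false v h1.1
          omega
      | bl j v' b' ac =>
        cases w with
        | lit k' bb' => exact absurd h2 (by simp [Rel])
        | s i => exact absurd h2 (by simp [Rel])
        | blob j' t a' =>
          rw [adjF, eval_lbF hN ha he (by simp) h1 h2, adj_lit_blob]
  | s v =>
    cases u with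
    | lit k bb => exact absurd h1 (by simp [Rel])
    | blob j t a' => exact absurd h1 (by simp [Rel])
    | s i =>
      cases Y with
      | lit v' b' =>
        cases w with
        | s i => exact absurd h2 (by simp [Rel])
        | blob j t a' => exact absurd h2 (by simp [Rel])
        | lit k' bb' =>
          simp only [Rel] at h1 h2
          rw [adjF, Fml.eval_or, eval_eq_dk he (by simp) h1.1 h2.1,
            eval_suc_dk he (by simp) h2.1 h1.1, adj_s_lit, h2.2.2, h1.2]
          refine or_congr Iff.rfl eq_comm
      | s v' =>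
        cases w with
        | lit k' bb' => exact absurd h2 (by simp [Rel])
        | blob j t a' => exact absurd h2 (by simp [Rel])
        | s i' =>
          simp only [Rel] at h1 h2
          simp only [adjF, eval_ff0, Bool.false_eq_true, false_iff]
          rw [adj_s_s]
          have h3 := hlt false v h1.1
          have h4 := hlt true v' h2.1
          rw [← h1.2] at h3
          rw [← h2.2] at h4
          rintro ⟨-, ⟨-, h5⟩ | ⟨-, h5⟩⟩
          · exact (ne_of_lt h4) h5
          · exact (ne_of_lt h3) h5
      | sl =>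
        cases w with
        | lit k' bb' => exact absurd h2 (by simp [Rel])
        | blob j t a' => exact absurd h2 (by simp [Rel])
        | s i' =>
          simp only [Rel] at h1 h2
          rw [adjF, eval_zeroT (dvar_dk _ _) (good_dk he _ h1.1), adj_s_s, ← h1.2]
          constructor
          · intro h3
            refine ⟨fun h4 => ?_, Or.inl ⟨h3, h2⟩⟩
            rw [h4] at h3
            omega
          · rintro ⟨-, ⟨h3, -⟩ | ⟨h3, -⟩⟩
            · exact h3
            · omega
      | bl j v' b' ac =>
        cases w with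
        | lit k' bb' => exact absurd h2 (by simp [Rel])
        | s i => exact absurd h2 (by simp [Rel])
        | blob j' t a' =>
          simp only [adjF, eval_ff0, Bool.false_eq_true, false_iff]
          exact adj_s_blob _ _ _ _
  | sl =>
    cases u with
    | lit k bb => exact absurd h1 (by simp [Rel])
    | blob j t a' => exact absurd h1 (by simp [Rel])
    | s i =>
      cases Y with
      | lit v' b' =>
        cases w with
        | s i => exact absurd h2 (by simp [Rel])
        | blob j t a' => exact absurd h2 (by simp [Rel])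
        | lit k' bb' =>
          simp only [Rel] at h1 h2
          rw [adjF, eval_maxT (dvar_dk _ _) (good_dk he _ h2.1), radP_dk, adj_s_lit, h2.2.2, h1]
          have := hlt true v' h2.1
          omega
      | s v' =>
        cases w with
        | lit k' bb' => exact absurd h2 (by simp [Rel])
        | blob j t a' => exact absurd h2 (by simp [Rel])
        | s i' =>
          simp only [Rel] at h1 h2
          rw [adjF, eval_zeroT (dvar_dk _ _) (good_dk he _ h2.1), adj_s_s, ← h2.2]
          constructor
          · intro h3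
            refine ⟨fun h4 => ?_, Or.inr ⟨h3, h1⟩⟩
            rw [← h4] at h3
            omega
          · rintro ⟨-, ⟨h3, -⟩ | ⟨h3, -⟩⟩
            · omega
            · exact h3
      | sl =>
        cases w with
        | lit k' bb' => exact absurd h2 (by simp [Rel])
        | blob j t a' => exact absurd h2 (by simp [Rel])
        | s i' =>
          simp only [Rel] at h1 h2
          simp only [adjF, eval_ff0, Bool.false_eq_true, false_iff]
          rw [adj_s_s]
          omega
      | bl j v' b' ac =>
        cases w with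
        | lit k' bb' => exact absurd h2 (by simp [Rel])
        | s i => exact absurd h2 (by simp [Rel])
        | blob j' t a' =>
          simp only [adjF, eval_ff0, Bool.false_eq_true, false_iff]
          exact adj_s_blob _ _ _ _
  | bl j v b ac =>
    cases u with
    | lit k bb => exact absurd h1 (by simp [Rel])
    | s i => exact absurd h1 (by simp [Rel])
    | blob j' t a' =>
      cases Y with
      | lit v' b' =>
        cases w with
        | s i => exact absurd h2 (by simp [Rel])
        | blob j t a' => exact absurd h2 (by simp [Rel])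
        | lit k' bb' =>
          rw [adjF, eval_lbF hN ha he (by simp) h2 h1, adj_blob_lit]
      | s v' =>
        cases w with
        | lit k' bb' => exact absurd h2 (by simp [Rel])
        | blob j t a' => exact absurd h2 (by simp [Rel])
        | s i' =>
          simp only [adjF, eval_ff0, Bool.false_eq_true, false_iff]
          exact adj_blob_s _ _ _ _
      | sl =>
        cases w with
        | lit k' bb' => exact absurd h2 (by simp [Rel])
        | blob j t a' => exact absurd h2 (by simp [Rel])
        | s i' =>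
          simp only [adjF, eval_ff0, Bool.false_eq_true, false_iff]
          exact adj_blob_s _ _ _ _
      | bl j2 v2 b2 ac2 =>
        cases w with
        | lit k' bb' => exact absurd h2 (by simp [Rel])
        | s i => exact absurd h2 (by simp [Rel])
        | blob j2' t2 a2' =>
          simp only [Rel] at h1 h2
          obtain ⟨g1, g2, rfl, g4, g5⟩ := h1
          obtain ⟨k1, k2, rfl, k4, k5⟩ := h2
          have hj : (jF P cs j j2).eval N a e = true ↔ j' = j2' := by
            cases j with
            | none =>
              cases j' with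
              | some c => exact absurd g5 (by simp [JRel])
              | none =>
                cases j2 with
                | none =>
                  cases j2' with
                  | none => simp [jF, eval_tt0]
                  | some c => exact absurd k5 (by simp [JRel])
                | some σ =>
                  cases j2' with
                  | none => exact absurd k5 (by simp [JRel])
                  | some c => simp [jF, eval_ff0]
            | some σ =>
              cases j' with
              | none => exact absurd g5 (by simp [JRel])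
              | some c =>
                cases j2 with
                | none =>
                  cases j2' with
                  | none => simp [jF, eval_ff0]
                  | some c => exact absurd k5 (by simp [JRel])
                | some σ' =>
                  cases j2' with
                  | none => exact absurd k5 (by simp [JRel])
                  | some c' =>
                    simp only [JRel] at g5 k5
                    simp only [jF]
                    rw [(eval_eqT (sim_dj (by simp) σ σ') (good_dj he _ g5.1)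
                      (good_dj he _ k5.1)).1, ← g5.2, ← k5.2]
                    simp only [Option.some.injEq]
                    exact ⟨fun h => Fin.ext h, fun h => by rw [h]⟩
          rw [adjF, Fml.eval_and, Fml.eval_or, Fml.eval_or, Fml.eval_and, hj,
            eval_eq_dt he (by simp) g1 k1 g2 k2, eval_suc_dt he (by simp) g1 k1 g2 k2,
            eval_suc_dt he (by simp) k1 g1 k2 g2, eval_cst, decide_eq_true_eq, ← g4, ← k4,
            adj_blob_blob, Fin.ext_iff (a := t)]
          constructor
          · rintro ⟨h3, ⟨h4, h5⟩ | h4 | h4⟩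
            · exact ⟨⟨h3, fun h => h5 h.2⟩, by omega, by omega⟩
            · exact ⟨⟨h3, fun h => by omega⟩, by omega, by omega⟩
            · exact ⟨⟨h3, fun h => by omega⟩, by omega, by omega⟩
          · rintro ⟨⟨h3, h4⟩, h5, h6⟩
            refine ⟨h3, ?_⟩
            rcases Nat.lt_trichotomy t.val t2.val with h7 | h7 | h7
            · exact Or.inr (Or.inl (by omega))
            · exact Or.inl ⟨h7, fun h => h4 ⟨h7, h⟩⟩
            · exact Or.inr (Or.inr (by omega))

end Eval

end Pool.Agent.Lib.MP_75fd85_lc
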