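import Pool.Agent.Lib.MP_75fd85_lc.Conn

/-!
# The SAT graph is 3-connected
-/

namespace Pool.Agent.Lib.MP_75fd85_lc

open Vert

variable {n m K : ℕ} {cl : Fin m → Finset (Fin n × Bool)}

theorem card_le_two_of {V : Type} [DecidableEq V] {X : Finset V} (hX : X.card ≤ 2) {x y z : V}
    (hxy : x ≠ y) (hxz : x ≠ z) (hyz : y ≠ z) (hx : x ∈ X) (hy : y ∈ X) : z ∉ X := by
  intro hz
  have h3 : ({x, y, z} : Finset V).card = 3 := by
    rw [Finset.card_insert_of_notMem (by simp [hxy, hxz]),
      Finset.card_insert_of_notMem (by simp [hyz]), Finset.card_singleton]
  have : ({x, y, z} : Finset V) ⊆ X := by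
    intro w hw
    simp only [Finset.mem_insert, Finset.mem_singleton] at hw
    rcases hw with rfl | rfl | rfl <;> assumption
  have := Finset.card_le_card this
  omega

theorem satGraph_threeConnected (hn : 2 ≤ n) (hK : 1 ≤ K) (h3 : ∀ j, 3 ≤ (cl j).card) :
    ThreeConnected (satGraph K cl) := by
  constructor
  · rw [card_vert]; nlinarith [Nat.zero_le (6 * (m + 1) * n * K)]
  · intro X hX
    refine connected_of (by omega) hK _ ?_ ?_ ?_
    · intro j t
      by_contra hcon
      push Not at hcon
      have h0 : blob j t 0 ∈ X := by simpa using hcon 0
      have h1 : blob j t 1 ∈ X := by simpa using hcon 1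
      have h2 : blob j t 2 ∈ X := by simpa using hcon 2
      exact card_le_two_of hX (by simp) (by simp) (by simp) h0 h1 h2
    · intro c
      by_contra hcon
      push Not at hcon
      have hsub : (cl c).image (fun l => (lit l.1 l.2 : Vert n m K)) ⊆ X := by
        intro v hv
        rw [Finset.mem_image] at hv
        obtain ⟨l, hl, rfl⟩ := hv
        simpa using hcon l hl
      have hinj : ((cl c).image (fun l => (lit l.1 l.2 : Vert n m K))).card = (cl c).card := by
        apply Finset.card_image_of_injective
        rintro ⟨a, b⟩ ⟨c, d⟩ h
        simpa using h
      have := Finset.card_le_card hsub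
      have := h3 c
      omega
    · intro i hi
      -- one of the gadgets next to `s i`
      have key : ∀ k : Fin n, (i.val = k.val ∨ i.val = k.val + 1) →
          (∃ b, lit k b ∉ X) → ∃ k b, ∃ hk : (lit k b : Vert n m K) ∈ {v | v ∉ X},
          ((satGraph K cl).induce {v | v ∉ X}).Reachable ⟨s i, hi⟩ ⟨lit k b, hk⟩ := by
        rintro k hk ⟨b, hb⟩
        refine ⟨k, b, hb, SimpleGraph.Adj.reachable ?_⟩
        rw [SimpleGraph.comap_adj]
        exact (adj_s_lit i k b).mpr hk
      obtain ⟨k, hk⟩ : ∃ k : Fin n, (i.val = k.val ∨ i.val = k.val + 1) := by
        by_cases h : i.val < n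
        · exact ⟨⟨i.val, h⟩, Or.inl rfl⟩
        · exact ⟨⟨n - 1, by omega⟩, Or.inr (by have := i.isLt; simp only; omega)⟩
      by_cases hb : ∃ b, lit k b ∉ X
      · exact key k hk hb
      · push Not at hb
        have hout : ∀ z : Vert n m K, z ≠ lit k true → z ≠ lit k false → z ∉ X := by
          intro z h1 h2
          exact card_le_two_of hX (x := lit k true) (y := lit k false) (by simp) h1.symm h2.symm
            (hb true) (hb false)
        by_cases hint : 0 < i.val ∧ i.val < n
        · -- the other gadget
          obtain ⟨k', hk', hne⟩ : ∃ k' : Fin n, (i.val = k'.val ∨ i.val = k'.val + 1) ∧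
              k' ≠ k := by
            rcases hk with hk | hk
            · refine ⟨⟨i.val - 1, by omega⟩, Or.inr (by simp only; omega), fun h => ?_⟩
              have := congrArg Fin.val h
              simp only at this; omega
            · refine ⟨⟨i.val, hint.2⟩, Or.inl rfl, fun h => ?_⟩
              have := congrArg Fin.val h
              simp only at this; omega
          exact key k' hk' ⟨true, hout _ (by simp [hne]) (by simp)⟩
        · -- `s i` is an end of the chain: use the edge `e`
          have hi' : i.val = 0 ∨ i.val = n := by
            have := i.isLt; omega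
          rcases hi' with hi0 | hin
          · have hk0 : k.val = 0 := by omega
            have hs : (s (Fin.last n) : Vert n m K) ∉ X := hout _ (by simp) (by simp)
            have hl : (lit ⟨n - 1, by omega⟩ true : Vert n m K) ∉ X := by
              apply hout
              · intro h
                rw [lit.injEq] at h
                have := congrArg Fin.val h.1
                simp only at this; omega
              · simp
            refine ⟨_, _, hl, (SimpleGraph.Adj.reachable (v := ⟨s (Fin.last n), hs⟩) ?_).trans
              (SimpleGraph.Adj.reachable ?_)⟩
            · rw [SimpleGraph.comap_adj]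
              refine (adj_s_s i (Fin.last n)).mpr ⟨fun h => ?_, Or.inl ⟨hi0, by simp⟩⟩
              have := congrArg Fin.val h
              rw [Fin.val_last] at this; omega
            · rw [SimpleGraph.comap_adj]
              refine (adj_s_lit _ _ _).mpr (Or.inr ?_)
              rw [Fin.val_last]; simp only; omega
          · have hk0 : k.val = n - 1 := by omega
            have hs : (s 0 : Vert n m K) ∉ X := hout _ (by simp) (by simp)
            have hl : (lit ⟨0, by omega⟩ true : Vert n m K) ∉ X := by
              apply hout
              · intro h
                rw [lit.injEq] at h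
                have := congrArg Fin.val h.1
                simp only at this; omega
              · simp
            refine ⟨_, _, hl, (SimpleGraph.Adj.reachable (v := ⟨s 0, hs⟩) ?_).trans
              (SimpleGraph.Adj.reachable ?_)⟩
            · rw [SimpleGraph.comap_adj]
              refine (adj_s_s i 0).mpr ⟨fun h => ?_, Or.inr ⟨by simp, hin⟩⟩
              have := congrArg Fin.val h
              rw [Fin.val_zero] at this; omega
            · rw [SimpleGraph.comap_adj]
              refine (adj_s_lit _ _ _).mpr (Or.inl ?_)
              simp

end Pool.Agent.Lib.MP_75fd85_lc
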