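import Pool.Agent.Lib.MP_75fd85_lc.Sym

/-! # The program writing the instance -/

namespace Pool.Agent.Lib.MP_75fd85_lc

set_option linter.unusedSectionVars false
set_option linter.unusedSimpArgs false

open Pool.Agent.Lib.PolyTM Pool.Agent.Lib.PolyTM.Tab Function

/-- Constants of a digit list. -/
def consts {V : Type} : List (Dg V) → List ℕ
  | [] => []
  | .c _ v :: ds => v :: consts ds
  | .x _ :: ds => consts ds

theorem consts_append {V : Type} (ds ds' : List (Dg V)) :
    consts (ds ++ ds') = consts ds ++ consts ds' := by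
  induction ds with
  | nil => rfl
  | cons d ds ih => cases d <;> simp [consts, ih]

theorem consts_dx {L : Type} (vs : List (Vr L)) : consts (dx vs) = [] := by
  induction vs with
  | nil => rfl
  | cons v vs ih => simpa [consts] using ih

/-- Loop specification of variables. -/
def spx {L : Type} (vs : List (Vr L)) : List (Sp (Vr L)) := vs.map .inr

theorem vars_spx {L : Type} (vs : List (Vr L)) : vars (spx vs) = vs := by
  induction vs with
  | nil => rfl
  | cons v vs ih => simp only [spx, List.map_cons, vars] at ih ⊢; rw [ih]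

theorem radS_spx {L : Type} {N : ℕ} (vs : List (Vr L)) : radS N (spx vs) = N ^ vs.length := by
  induction vs with
  | nil => rfl
  | cons v vs ih =>
    simp only [spx, List.map_cons, radS, List.length_cons] at ih ⊢
    rw [ih, pow_succ, Nat.mul_comm]

theorem shape_spx {L : Type} {vs : List (Vr L)} {ds : List (Dg (Vr L))}
    (h : Shape (spx vs) ds) : ds = dx vs := by
  induction vs generalizing ds with
  | nil => cases h; rfl
  | cons v vs ih =>
    cases h with
    | x _ _ ds h => rw [ih h]; rfl

theorem flatMap_fin {α : Type} (n : ℕ) (f : Fin n → List α) (f' : ℕ → List α)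
    (h : ∀ k : Fin n, f' k.val = f k) :
    (List.range n).flatMap f' = (List.finRange n).flatMap f := by
  have h1 : List.range n = (List.finRange n).map (fun k => k.val) := by
    apply List.ext_getElem <;> simp
  rw [h1, List.flatMap_map]
  exact List.flatMap_congr fun k _ => h k

section

variable {K : Type} {Γ : K → Type} {S : Type} {U : ℕ} (P : Par) (cd : VT K Γ S ≃ Fin U)
  (cs : List (Sc K Γ S))

abbrev Prog (P : Par) : Type := PolyTM.Stmt P.V Unit

/-- Specifications. -/
def sk (U : ℕ) (P : Par) (β : Bool) : List (Sp P.V) := .inl U :: spx (P.xT β ++ P.xI β)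
def st (U : ℕ) (P : Par) (β : Bool) : List (Sp P.V) := sk U P β ++ .inl 2 :: spx (P.rr β)
def sj (β : Bool) : List (Sp P.V) :=
  .inl (sc4 cs).length :: spx (P.zT β ++ (P.pz β).all)

theorem shape_sk {β : Bool} {ds : List (Dg P.V)} (h : Shape (sk U P β) ds) :
    ∃ v < U, ds = dk P U β v := by
  cases h with
  | c _ v hv _ ds h => exact ⟨v, hv, by rw [shape_spx h]; rfl⟩

theorem shape_st {β : Bool} {ds : List (Dg P.V)} (h : Shape (st U P β) ds) :
    ∃ v < U, ∃ b < 2, ds = dt P U β v b := by
  obtain ⟨ds1, ds2, rfl, h1, h2⟩ := h.append_inv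
  obtain ⟨v, hv, rfl⟩ := shape_sk P h1
  cases h2 with
  | c _ b hb _ ds h3 => exact ⟨v, hv, b, hb, by rw [shape_spx h3]; rfl⟩

theorem shape_sj {β : Bool} {ds : List (Dg P.V)} (h : Shape (sj P cs β) ds) :
    ∃ σ < (sc4 cs).length, ds = dj P cs β σ := by
  cases h with
  | c _ v hv _ ds h => exact ⟨v, hv, by rw [shape_spx h]; rfl⟩

theorem consts_dk (β : Bool) (v : ℕ) : consts (dk P U β v) = [v] := by
  simp only [dk, consts, consts_dx]

theorem consts_dt (β : Bool) (v b : ℕ) : consts (dt P U β v b) = [v, b] := by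
  rw [dt, consts_append, consts_dk, consts, consts_dx]
  rfl

theorem consts_dj (β : Bool) (σ : ℕ) : consts (dj P cs β σ) = [σ] := by
  simp only [dj, consts, consts_dx]

theorem radS_sk (N : ℕ) (β : Bool) : radS N (sk U P β) = nn U N P := by
  rw [sk, radS, radS_spx, List.length_append, P.xT_length, P.xI_length, pow_add]

theorem radS_st (N : ℕ) (β : Bool) : radS N (st U P β) = 2 * nn U N P * N ^ P.c := by
  rw [st, radS_append, radS_sk, radS, radS_spx, P.rr_length]
  ring

theorem radS_sj (N : ℕ) (β : Bool) : radS N (sj P cs β) = mm cs N P := by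
  rw [sj, radS, radS_spx, List.length_append, P.zT_length, P.pz_length, pow_add]

theorem vars_sk (β : Bool) : vars (sk U P β) = P.xT β ++ P.xI β := by
  rw [sk, vars, vars_spx]

theorem vars_st (β : Bool) : vars (st U P β) = P.xT β ++ P.xI β ++ P.rr β := by
  rw [st, vars_append, vars_sk, vars, vars_spx]

theorem vars_sj (β : Bool) : vars (sj P cs β) = P.zT β ++ (P.pz β).all := by
  rw [sj, vars, vars_spx]

theorem nodup_sk (β : Bool) : (vars (sk U P β)).Nodup := by
  rw [vars_sk]
  exact P.append_nodup (by decide)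

theorem nodup_st (β : Bool) : (vars (st U P β)).Nodup := by
  rw [vars_st, List.nodup_append]
  refine ⟨P.append_nodup (by decide), P.grp_nodup _ _ _, fun x hx y hy => ?_⟩
  obtain ⟨j, rfl⟩ := P.mem_grp hy
  rcases List.mem_append.1 hx with hx | hx
  · obtain ⟨i, rfl⟩ := P.mem_grp hx
    simp
  · obtain ⟨i, rfl⟩ := P.mem_grp hx
    simp

theorem nodup_sj (β : Bool) : (vars (sj P cs β)).Nodup := by
  rw [vars_sj]
  exact P.zp_nodup β

/-- Run the body for all literal vertices. -/
def litP (U : ℕ) (β b : Bool) (B : SV → Prog P) : Prog P :=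
  enumP (sk U P β) fun ds => match consts ds with
    | [v] => B (.lit v b)
    | _ => .skip

/-- Run the body for the vertices `s`, except the last one. -/
def sP (U : ℕ) (β : Bool) (B : SV → Prog P) : Prog P :=
  enumP (sk U P β) fun ds => match consts ds with
    | [v] => B (.s v)
    | _ => .skip

/-- Run the body for one thick path. -/
def bP (U : ℕ) (β : Bool) (B : SV → Prog P) (j : Option ℕ) : Prog P :=
  enumP (st U P β) fun ds => match consts ds with
    | [v, b] => seqs (([0, 1, 2] : List (Fin 3)).map fun a => B (.bl j v b a))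
    | _ => .skip

/-- Run the body for all thick paths. -/
def blP (U : ℕ) (β : Bool) (B : SV → Prog P) : Prog P :=
  .seq (bP P U β B none) (enumP (sj P cs β) fun ds => match consts ds with
    | [σ] => bP P U β B (some σ)
    | _ => .skip)

/-- Run the body for all vertices. -/
def allV (U : ℕ) (β : Bool) (B : SV → Prog P) : Prog P :=
  .seq (litP P U β false B) (.seq (litP P U β true B) (.seq (sP P U β B)
    (.seq (B .sl) (blP P cs U β B))))

/-- Vertices of a thick path. -/
def blobL {n m K' : ℕ} (j : Option (Fin m)) : List (Vert n m K') :=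
  (List.finRange (2 * n * K')).flatMap fun t =>
    ([0, 1, 2] : List (Fin 3)).map fun a => .blob j t a

/-- Literal vertices with sign `b`. -/
def litL {n m K' : ℕ} (b : Bool) : List (Vert n m K') :=
  (List.finRange n).map fun k => .lit k b

/-- The vertices `s`, except the last one. -/
def sL {n m K' : ℕ} : List (Vert n m K') := (List.finRange n).map fun k => .s k.castSucc

/-- All vertices. -/
def vl (n m K' : ℕ) : List (Vert n m K') :=
  litL false ++ (litL true ++ (sL ++ (.s (Fin.last n) :: (blobL none ++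
    (List.finRange m).flatMap fun j => blobL (some j)))))

variable {P cs}
variable {N : ℕ} {a : Arr Unit} {e : P.V → ℕ}

/-- The environments agree outside family `β`. -/
def Ext (P : Par) (β : Bool) (e e' : P.V → ℕ) : Prop :=
  ∀ y : P.V, (∀ g i, y ≠ .inl (β, g, i)) → e' y = e y

theorem Ext.refl (β : Bool) (e : P.V → ℕ) : Ext P β e e := fun _ _ => rfl

theorem Ext.trans {β : Bool} {e e' e'' : P.V → ℕ} (h : Ext P β e e') (h' : Ext P β e' e'') :
    Ext P β e e'' := fun y hy => (h' y hy).trans (h y hy)

theorem ext_of_vars {β : Bool} {e e' : P.V → ℕ} {vs : List P.V}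
    (hvs : ∀ y ∈ vs, ∃ g i, y = .inl (β, g, i)) (h : ∀ y, y ∉ vs → e' y = e y) :
    Ext P β e e' := fun y hy => h y fun hm => by
  obtain ⟨g, i, hgi⟩ := hvs y hm
  exact hy g i hgi

theorem mem_vars_st {β : Bool} {y : P.V} (h : y ∈ vars (st U P β)) :
    ∃ g i, y = .inl (β, g, i) ∧ g ≤ 3 ∧ g ≠ 2 := by
  rw [vars_st] at h
  simp only [List.mem_append] at h
  rcases h with (h | h) | h
  · obtain ⟨i, rfl⟩ := P.mem_grp h; exact ⟨_, i, rfl, by decide, by decide⟩
  · obtain ⟨i, rfl⟩ := P.mem_grp h; exact ⟨_, i, rfl, by decide, by decide⟩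
  · obtain ⟨i, rfl⟩ := P.mem_grp h; exact ⟨_, i, rfl, by decide, by decide⟩

theorem mem_vars_sk {β : Bool} {y : P.V} (h : y ∈ vars (sk U P β)) :
    ∃ g i, y = .inl (β, g, i) := by
  rw [vars_sk] at h
  simp only [List.mem_append] at h
  rcases h with h | h
  · obtain ⟨i, rfl⟩ := P.mem_grp h; exact ⟨_, i, rfl⟩
  · obtain ⟨i, rfl⟩ := P.mem_grp h; exact ⟨_, i, rfl⟩

theorem mem_vars_sj {β : Bool} {y : P.V} (h : y ∈ vars (sj P cs β)) :
    ∃ g i, y = .inl (β, g, i) ∧ (g = 2 ∨ 4 ≤ g) := by
  rw [vars_sj] at h
  simp only [List.mem_append] at h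
  rcases h with h | h
  · obtain ⟨i, rfl⟩ := P.mem_grp h; exact ⟨_, i, rfl, Or.inl rfl⟩
  · obtain ⟨g, i, rfl, hg⟩ := P.mem_pz h; exact ⟨_, i, rfl, Or.inr hg⟩

theorem lt_of_vars {e e' : P.V → ℕ} {vs : List P.V} (he : ∀ y, e y < N)
    (h1 : ∀ y, y ∉ vs → e' y = e y) (h2 : ∀ y ∈ vs, e' y < N) (y : P.V) : e' y < N := by
  by_cases hy : y ∈ vs
  · exact h2 y hy
  · rw [h1 y hy]; exact he y

/-- Hypothesis on the body. -/
def BodyOK (P : Par) (cs : List (Sc K Γ S)) (U N : ℕ) (a : Arr Unit) (β : Bool) (e : P.V → ℕ)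
    (B : SV → Prog P) (f : Vert (nn U N P) (mm cs N P) (N ^ P.c) → List Bool) : Prop :=
  ∀ X x e', Rel P cs N e' β X x → Ext P β e e' → (∀ y, e' y < N) → Emits N a (B X) e' (f x)

variable {β : Bool} {B : SV → Prog P}
  {f : Vert (nn U N P) (mm cs N P) (N ^ P.c) → List Bool}

theorem emits_litP (he : ∀ y, e y < N) (hB : BodyOK P cs U N a β e B f) (b : Bool) :
    Emits N a (litP P U β b B) e ((litL b).flatMap f) := by
  have h := Emits.enum (N := N) (a := a) (sk U P β) (nodup_sk P β)
    (fun ds => match consts ds with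
      | [v] => B (.lit v b)
      | _ => .skip) e
    (fun k => if h : k < nn U N P then f (.lit ⟨k, h⟩ b) else []) (by
      intro ds e' hs h1 h2
      obtain ⟨v, hv, rfl⟩ := shape_sk P hs
      have he' := lt_of_vars he h1 h2
      have hlt : num N e' (dk P U β v) < nn U N P := by
        have := num_lt (good_dk (P := P) he' β hv)
        rwa [radP_dk] at this
      rw [dif_pos hlt, consts_dk]
      exact hB _ _ e' ⟨hv, rfl, rfl⟩ (ext_of_vars (fun y hy => mem_vars_sk hy) h1) he')
  rw [radS_sk, flatMap_fin (nn U N P) (fun k => f (.lit k b)) _ (fun k => by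
    rw [dif_pos k.2])] at h
  rw [litL, List.flatMap_map]
  exact h

theorem emits_sP (he : ∀ y, e y < N) (hB : BodyOK P cs U N a β e B f) :
    Emits N a (sP P U β B) e (sL.flatMap f) := by
  have h := Emits.enum (N := N) (a := a) (sk U P β) (nodup_sk P β)
    (fun ds => match consts ds with
      | [v] => B (.s v)
      | _ => .skip) e
    (fun k => if h : k < nn U N P then f (.s (Fin.castSucc ⟨k, h⟩)) else []) (by
      intro ds e' hs h1 h2
      obtain ⟨v, hv, rfl⟩ := shape_sk P hs
      have he' := lt_of_vars he h1 h2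
      have hlt : num N e' (dk P U β v) < nn U N P := by
        have := num_lt (good_dk (P := P) he' β hv)
        rwa [radP_dk] at this
      rw [dif_pos hlt, consts_dk]
      exact hB _ _ e' ⟨hv, rfl⟩ (ext_of_vars (fun y hy => mem_vars_sk hy) h1) he')
  rw [radS_sk, flatMap_fin (nn U N P) (fun k => f (.s k.castSucc)) _ (fun k => by
    rw [dif_pos k.2])] at h
  rw [sL, List.flatMap_map]
  exact h

theorem emits_bP (he : ∀ y, e y < N) (hB : BodyOK P cs U N a β e B f) (j : Option ℕ)
    (j' : Option (Fin (mm cs N P)))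
    (hj : ∀ e', (∀ y, y ∉ vars (st U P β) → e' y = e y) → JRel P cs N e' β j j') :
    Emits N a (bP P U β B j) e ((blobL j').flatMap f) := by
  have h := Emits.enum (N := N) (a := a) (st U P β) (nodup_st P β)
    (fun ds => match consts ds with
      | [v, b] => seqs (([0, 1, 2] : List (Fin 3)).map fun a => B (.bl j v b a))
      | _ => .skip) e
    (fun k => if h : k < 2 * nn U N P * N ^ P.c then
      ([0, 1, 2] : List (Fin 3)).flatMap fun a => f (.blob j' ⟨k, h⟩ a) else []) (by
      intro ds e' hs h1 h2
      obtain ⟨v, hv, b, hb, rfl⟩ := shape_st P hs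
      have he' := lt_of_vars he h1 h2
      have hlt : num N e' (dt P U β v b) < 2 * nn U N P * N ^ P.c := by
        have := num_lt (good_dt (P := P) he' β hv hb)
        rwa [hs.radP, radS_st] at this
      rw [dif_pos hlt, consts_dt]
      refine Emits.seqs _ fun ac _ => ?_
      exact hB _ _ e' ⟨hv, hb, rfl, rfl, hj e' h1⟩
        (ext_of_vars (fun y hy => by
          obtain ⟨g, i, h, -⟩ := mem_vars_st hy
          exact ⟨g, i, h⟩) h1) he')
  rw [radS_st, flatMap_fin (2 * nn U N P * N ^ P.c)
    (fun t => ([0, 1, 2] : List (Fin 3)).flatMap fun a => f (.blob j' t a)) _ (fun k => by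
    rw [dif_pos k.2])] at h
  rw [blobL, List.flatMap_assoc]
  simp only [List.flatMap_map]
  exact h

theorem emits_blP (he : ∀ y, e y < N) (hB : BodyOK P cs U N a β e B f) :
    Emits N a (blP P cs U β B) e
      ((blobL none ++ (List.finRange (mm cs N P)).flatMap fun j => blobL (some j)).flatMap f) := by
  rw [List.flatMap_append]
  refine Emits.seq (emits_bP he hB none none fun _ _ => trivial) ?_
  have h := Emits.enum (N := N) (a := a) (sj P cs β) (nodup_sj P cs β)
    (fun ds => match consts ds with
      | [σ] => bP P U β B (some σ)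
      | _ => .skip) e
    (fun k => if h : k < mm cs N P then (blobL (some ⟨k, h⟩)).flatMap f else []) (by
      intro ds e' hs h1 h2
      obtain ⟨σ, hσ, rfl⟩ := shape_sj P cs hs
      have he' := lt_of_vars he h1 h2
      have hlt : num N e' (dj P cs β σ) < mm cs N P := by
        have := num_lt (good_dj (P := P) he' β hσ)
        rwa [hs.radP, radS_sj] at this
      rw [dif_pos hlt, consts_dj]
      have hext : Ext P β e e' := ext_of_vars (fun y hy => by
          obtain ⟨g, i, h, -⟩ := mem_vars_sj hy
          exact ⟨g, i, h⟩) h1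
      refine emits_bP he' (fun X x e'' hr hx hl => hB X x e'' hr (hext.trans hx) hl)
        (some σ) _ fun e'' h3 => ⟨hσ, ?_⟩
      refine num_congr fun y hy => ?_
      rw [h3]
      intro hy'
      obtain ⟨g, i, rfl, g1, g2⟩ := mem_vars_st hy'
      obtain ⟨g', i', h', g3⟩ := mem_vars_sj (hs.mem_vars hy)
      simp only [Sum.inl.injEq, Prod.mk.injEq, true_and] at h'
      obtain ⟨rfl, -⟩ := h'
      rcases g3 with g3 | g3
      · exact g2 g3
      · exact absurd (le_trans g3 g1) (by decide))
  rw [radS_sj, flatMap_fin (mm cs N P) (fun j => (blobL (some j)).flatMap f) _ (fun k => by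
    rw [dif_pos k.2])] at h
  rw [List.flatMap_assoc]
  exact h

theorem emits_allV (he : ∀ y, e y < N) (hB : BodyOK P cs U N a β e B f) :
    Emits N a (allV P cs U β B) e ((vl (nn U N P) (mm cs N P) (N ^ P.c)).flatMap f) := by
  rw [vl, List.flatMap_append, List.flatMap_append, List.flatMap_append, List.flatMap_cons]
  refine (emits_litP he hB false).seq ((emits_litP he hB true).seq ((emits_sP he hB).seq
    (Emits.seq ?_ (emits_blP he hB))))
  exact hB .sl _ e rfl (Ext.refl β e) he

end

end Pool.Agent.Lib.MP_75fd85_lc
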